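import Pool.Agent.Helper69.LW.Main

/-!
# Anti-concentration, general form
-/

set_option autoImplicit false

namespace Pool.Agent.Helper69.LW

open Finset Pool.Agent.Y466.RW

section
variable {L : Type*} {K : Type*} [Group K]

/-- The letters as elements of the subgroup generated by them. -/
def res (x : Option L → K) (z : Option L) : Subgroup.closure (Set.range x) :=
  ⟨x z, Subgroup.subset_closure ⟨z, rfl⟩⟩

theorem res_none {x : Option L → K} (hx : x none = 1) : res x none = 1 := Subtype.ext hx

theorem res_top (x : Option L → K) : Subgroup.closure (Set.range (res x)) = ⊤ := by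
  have h := Subgroup.closure_closure_coe_preimage (k := Set.range x)
  have e : Set.range (res x) = ((↑) : Subgroup.closure (Set.range x) → K) ⁻¹' Set.range x := by
    ext ⟨y, hy⟩
    constructor
    · rintro ⟨z, hz⟩
      exact ⟨z, congrArg Subtype.val hz⟩
    · rintro ⟨z, hz⟩
      exact ⟨z, Subtype.ext hz⟩
  rw [e]
  exact h

theorem pr_res (x : Option L → K) {N : ℕ} (w : Fin N → Option L) :
    ((pr (res x) w : Subgroup.closure (Set.range x)) : K) = pr x w := by
  unfold pr
  rw [Subgroup.val_list_prod, List.map_ofFn]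
  rfl

variable [Fintype L]

open Classical in
/-- **Anti-concentration** of functions of finite degree. -/
theorem anti_gen {A : Type*} [AddCommGroup A]
    (htf : ∀ (n : ℕ) (a : A), n ≠ 0 → n • a = 0 → a = 0) {x : Option L → K} (hx : x none = 1)
    {n : ℕ} {F : K → A} (hF : Pol (n + 1) F) {N₀ N₁ : ℕ} {w₀ : Fin N₀ → Option L}
    {w₁ : Fin N₁ → Option L} (hne : F (pr x w₀) ≠ F (pr x w₁)) (N : ℕ) (c : A) :
    (#{w : Fin N → Option L | F (pr x w) = c} : ℝ) ≤
      rt (Fintype.card (Option L)) n N * (Fintype.card (Option L) : ℝ) ^ N := by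
  obtain ⟨φ, hφ⟩ := exists_char htf (sub_ne_zero.2 hne)
  have h1 : Pol (n + 1) (fun y : Subgroup.closure (Set.range x) => φ (F y)) :=
    (hF.map φ).hom (Subgroup.closure (Set.range x)).subtype
  have h2 := anti_rat (res_none hx) (res_top x) n h1 (p := pr (res x) w₀) (q := pr (res x) w₁)
    (by
      rw [pr_res, pr_res]
      intro h
      apply hφ
      rw [map_sub, h, sub_self]) N (φ c)
  refine le_trans ?_ h2
  have h3 : #{w : Fin N → Option L | F (pr x w) = c} ≤
      #{w : Fin N → Option L | φ (F ((pr (res x) w : Subgroup.closure (Set.range x)) : K)) =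
        φ c} := by
    refine card_le_card fun w hw => ?_
    rw [mem_filter] at hw ⊢
    refine ⟨hw.1, ?_⟩
    rw [pr_res, hw.2]
  exact_mod_cast h3

/-! ### Several degrees at once -/

open Classical in
theorem jumps_aux {x : Option L → K} (hx : x none = 1)
    (hg : Subgroup.closure (Set.range x) = ⊤) (F : ℕ → K → ℚ) (n : ℕ → ℕ) (c : ℕ → ℚ) (M : ℕ)
    (r : ℕ) (hF : ∀ i < r, Pol (n i + 1) (F i)) (hn : ∀ i j, i < j → j < r → n i < n j)
    (h0 : ∀ i < r, 0 < n i)
    (hj : ∀ i < r, ¬ (⊤ : Subgroup K).lowerCentralSeries (n i - 1) ≤ Ker (F i)) (q : K) :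
    (#{w : Fin (M * r) → Option L | ∀ i < r, F i (pr x w * q) = c i} : ℝ) ≤
      (∏ i ∈ range r, st (Fintype.card (Option L)) (n i) M) *
        (Fintype.card (Option L) : ℝ) ^ (M * r) := by
  have hX1 : (0 : ℝ) ≤ Fintype.card (Option L) := Nat.cast_nonneg _
  induction r generalizing q with
  | zero =>
    rw [range_zero, prod_empty, one_mul]
    refine le_trans (Nat.cast_le.2 (card_le_univ _)) ?_
    rw [Fintype.card_fun, Fintype.card_fin]
    push_cast
    exact le_rfl
  | succ r ih =>
    have ih' := fun q => ih (fun i hi => hF i (by omega)) (fun i j hij hj => hn i j hij (by omega))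
      (fun i hi => h0 i (by omega)) (fun i hi => hj i (by omega)) q
    -- the pair
    obtain ⟨u, u', hl, h1⟩ : ∃ u u', Lev L (n r - 1) u u' ∧ quo x u u' ∉ Ker (F r) := by
      by_contra hcon
      push Not at hcon
      exact hj r (by omega) (lcs_le hx hg _ _ hcon)
    set γ := quo x u u' with hγ
    obtain ⟨U, U', hU, hUU⟩ := hl.fn (not_mem_ker_ne h1)
    have hr0 := h0 r (by omega)
    have hlow : Low ℚ (n r) γ := by
      have := hl.low (A := ℚ) x
      rwa [show n r - 1 + 1 = n r by omega] at this
    have hker : ∀ i < r, γ ∈ Ker (F i) := fun i hi =>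
      hlow.mem_Ker ((hF i (by omega)).mono (hn i r hi (by omega)))
    have hcom := ker_comm fun g => (low_comm hlow g).mem_Ker (hF r (by omega))
    have hconst : ∀ a b, D γ (F r) a = D γ (F r) b := fun a b =>
      (hlow 1 (F r) (by rw [add_comm]; exact hF r (by omega))).const a b
    have hδ : D γ (F r) 1 ≠ 0 := by
      intro h2
      apply h1
      intro a b
      have h3 := hcom 1 a b
      rw [one_mul, one_mul] at h3
      have h4 := hconst (a * b) 1
      rw [h2] at h4
      unfold D at h4
      rw [← h3, mul_assoc, sub_eq_zero.1 h4]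
    have hpow : ∀ (k : ℕ) (a b : K), F r (a * γ ^ k * b) = F r (a * b) + k * D γ (F r) 1 := by
      intro k
      induction k with
      | zero => intro a b; simp
      | succ k ihk =>
        intro a b
        have h3 := hcom 1 (a * γ ^ k) b
        have h4 := hconst (a * γ ^ k * b) 1
        have h5 : D γ (F r) (a * γ ^ k * b) = F r (γ * (a * γ ^ k * b)) - F r (a * γ ^ k * b) := rfl
        rw [h5] at h4
        have e1 : (1 : K) * γ * (a * γ ^ k) * b = γ * (a * γ ^ k * b) := by
          simp only [mul_assoc, one_mul]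
        have e2 : (1 : K) * (a * γ ^ k) * γ * b = a * γ ^ (k + 1) * b := by
          rw [pow_succ]; simp only [mul_assoc, one_mul]
        rw [e1, e2] at h3
        rw [← h3, sub_eq_iff_eq_add.1 h4, ihk]
        push_cast
        ring
    -- the number of the first words
    set B : ℕ := ⌊(∏ i ∈ range r, st (Fintype.card (Option L)) (n i) M) *
        (Fintype.card (Option L) : ℝ) ^ (M * r)⌋₊ with hBdef
    have hBnn : 0 ≤ (∏ i ∈ range r, st (Fintype.card (Option L)) (n i) M) *
        (Fintype.card (Option L) : ℝ) ^ (M * r) :=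
      mul_nonneg (prod_nonneg fun i _ => st_nonneg _ _ _) (by positivity)
    have hcnt := count_words (ι := Fin (M * r) → Option L) x (fun w => pr x w) (γ := γ)
      (E := fun p => ∀ i < r + 1, F i (p * q) = c i) (Q := fun p => ∀ i < r, F i (p * q) = c i)
      (n := 1) (B := B)
      (fun a g b => by
        refine forall_congr' fun i => forall_congr' fun hi => ?_
        rcases Nat.lt_succ_iff_lt_or_eq.1 hi with h | h
        · have h3 := hker i h a (g * (b * q))
          have h4 := hker i h (a * g) (b * q)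
          have e1 : a * γ * g * b * q = a * γ * (g * (b * q)) := by simp only [mul_assoc]
          have e2 : a * g * γ * b * q = a * g * γ * (b * q) := by simp only [mul_assoc]
          rw [e1, e2, h3, h4, mul_assoc a]
        · subst h
          have h3 := hcom a g (b * q)
          rw [← mul_assoc, ← mul_assoc] at h3
          rw [h3])
      (fun p' q' s hs => by
        refine card_le_one.2 fun k hk l hl' => ?_
        have h3 := hs k hk r (by omega)
        have h4 := hs l hl' r (by omega)
        rw [mul_assoc, hpow] at h3 h4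
        have h5 : (k : ℚ) * D γ (F r) 1 = l * D γ (F r) 1 := by linarith
        exact_mod_cast mul_right_cancel₀ hδ h5)
      (fun p' hp i hi => hp i (by omega))
      (fun a b => by
        refine forall_congr' fun i => forall_congr' fun hi => ?_
        have h3 := hker i hi a (b * q)
        rw [← mul_assoc, ← mul_assoc] at h3
        rw [h3])
      (fun q' => by
        refine Nat.le_floor ?_
        have h3 := ih' (q' * q)
        simp only [mul_assoc] at h3 ⊢
        convert h3)
      hU hUU M
    have hm : ((2 ^ (n r - 1 + 1) - 1 : ℕ) : ℝ) = (2 : ℝ) ^ (n r) - 1 := by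
      rw [Nat.cast_sub Nat.one_le_two_pow, show n r - 1 + 1 = n r by omega]; push_cast; rfl
    have h7 : Real.sqrt (((2 ^ (n r - 1 + 1) - 1 : ℕ) : ℝ) *
        (Fintype.card (Option L) : ℝ) ^ (2 ^ (n r - 1 + 1) - 1) / (2 * (M + 1))) =
        st (Fintype.card (Option L)) (n r) M := by
      unfold st
      rw [hm, show n r - 1 + 1 = n r by omega]
    rw [h7] at hcnt
    have h8 : (#{w : Fin (M * (r + 1)) → Option L | ∀ i < r + 1, F i (pr x w * q) = c i} : ℝ) =
        (#{z : (Fin (M * r) → Option L) × (Fin M → Option L) |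
          ∀ i < r + 1, F i (pr x z.1 * pr x z.2 * q) = c i} : ℝ) := by
      norm_cast
      rw [card_filter, card_filter]
      have e := (Fin.appendEquiv (α := Option L) (M * r) M).sum_comp
        (fun w : Fin (M * r + M) → Option L => if ∀ i < r + 1, F i (pr x w * q) = c i then 1 else 0)
      refine Eq.trans e.symm ?_
      refine sum_congr rfl fun z _ => ?_
      have e2 : Fin.appendEquiv (M * r) M z = Fin.append z.1 z.2 := rfl
      rw [e2, pr_append]
    rw [h8]
    refine le_trans (le_of_eq ?_) (hcnt.trans ?_)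
    · congr
    · rw [prod_range_succ]
      have h9 : (B : ℝ) ≤ _ := Nat.floor_le hBnn
      have e3 : (Fintype.card (Option L) : ℝ) ^ (M * (r + 1)) =
          (Fintype.card (Option L) : ℝ) ^ (M * r) * (Fintype.card (Option L) : ℝ) ^ M := by
        rw [← pow_add]; rfl
      rw [e3]
      push_cast
      have h10 : 0 ≤ (Fintype.card (Option L) : ℝ) ^ M * st (Fintype.card (Option L)) (n r) M :=
        mul_nonneg (by positivity) (st_nonneg _ _ _)
      calc (B : ℝ) * 1 * ((Fintype.card (Option L) : ℝ) ^ M * st (Fintype.card (Option L)) (n r) M)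
          = (B : ℝ) * ((Fintype.card (Option L) : ℝ) ^ M *
            st (Fintype.card (Option L)) (n r) M) := by ring
        _ ≤ _ := mul_le_mul_of_nonneg_right h9 h10
        _ = _ := by ring

open Classical in
/-- **Several degrees at once**: the exponent grows with their number. -/
theorem jumps_top {x : Option L → K} (hx : x none = 1)
    (hg : Subgroup.closure (Set.range x) = ⊤) (F : ℕ → K → ℚ) (n : ℕ → ℕ) (c : ℕ → ℚ)
    {r : ℕ} (hF : ∀ i < r, Pol (n i + 1) (F i)) (hn : ∀ i j, i < j → j < r → n i < n j)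
    (h0 : ∀ i < r, 0 < n i)
    (hj : ∀ i < r, ¬ (⊤ : Subgroup K).lowerCentralSeries (n i - 1) ≤ Ker (F i)) {d : ℕ}
    (hd : ∀ i < r, n i ≤ d) (N : ℕ) :
    (#{w : Fin N → Option L | ∀ i < r, F i (pr x w) = c i} : ℝ) ≤
      Real.sqrt (r * 2 ^ d * (Fintype.card (Option L) : ℝ) ^ 2 ^ d / (N + 1)) ^ r *
        (Fintype.card (Option L) : ℝ) ^ N := by
  have hX1 : (0 : ℝ) ≤ Fintype.card (Option L) := Nat.cast_nonneg _
  rcases Nat.eq_zero_or_pos r with rfl | hr
  · rw [pow_zero, one_mul]
    refine le_trans (Nat.cast_le.2 (card_le_univ _)) ?_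
    rw [Fintype.card_fun, Fintype.card_fin]
    push_cast
    exact le_rfl
  have hcard : (2 : ℝ) ≤ Fintype.card (Option L) := by
    obtain ⟨u, u', hl, h1⟩ : ∃ u u', Lev L (n 0 - 1) u u' ∧ quo x u u' ∉ Ker (F 0) := by
      by_contra hcon
      push Not at hcon
      exact hj 0 hr (lcs_le hx hg _ _ hcon)
    obtain ⟨U, U', hU, _⟩ := hl.fn (not_mem_ker_ne h1)
    obtain ⟨i, hi⟩ := Function.ne_iff.1 hU
    have := card_le_univ ({U i, U' i} : Finset (Option L))
    rw [card_pair hi] at this
    exact_mod_cast this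
  set M := N / r with hM
  set N₀ := N % r with hN₀
  have hN : M * r + N₀ = N := by rw [mul_comm]; exact Nat.div_add_mod N r
  have h1 : (#{w : Fin N → Option L | ∀ i < r, F i (pr x w) = c i} : ℝ) ≤
      (∏ i ∈ range r, st (Fintype.card (Option L)) (n i) M) *
        (Fintype.card (Option L) : ℝ) ^ N := by
    rw [← hN]
    have h8 : (#{w : Fin (M * r + N₀) → Option L | ∀ i < r, F i (pr x w) = c i} : ℝ) =
        ∑ z : Fin N₀ → Option L, (#{w : Fin (M * r) → Option L |
          ∀ i < r, F i (pr x w * pr x z) = c i} : ℝ) := by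
      norm_cast
      rw [card_filter]
      have e := (Fin.appendEquiv (α := Option L) (M * r) N₀).sum_comp
        (fun w : Fin (M * r + N₀) → Option L => if ∀ i < r, F i (pr x w) = c i then 1 else 0)
      refine Eq.trans e.symm ?_
      rw [Fintype.sum_prod_type, sum_comm]
      refine sum_congr rfl fun z _ => ?_
      rw [card_filter]
      refine sum_congr rfl fun w _ => ?_
      have e2 : Fin.appendEquiv (M * r) N₀ (w, z) = Fin.append w z := rfl
      rw [e2, pr_append]
    rw [h8]
    refine (sum_le_sum fun z _ => jumps_aux hx hg F n c M r hF hn h0 hj (pr x z)).trans ?_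
    rw [sum_const, card_univ, Fintype.card_fun, Fintype.card_fin, nsmul_eq_mul]
    push_cast
    rw [pow_add]
    exact le_of_eq (by ring)
  refine h1.trans (mul_le_mul_of_nonneg_right ?_ (by positivity))
  have h2 : ∀ i ∈ range r, st (Fintype.card (Option L)) (n i) M ≤
      Real.sqrt (r * 2 ^ d * (Fintype.card (Option L) : ℝ) ^ 2 ^ d / (N + 1)) := by
    intro i hi
    refine ((st_mono hcard (hd i (mem_range.1 hi)) M).trans (st_le hcard d M)).trans ?_
    refine (half_le_self (Real.sqrt_nonneg _)).trans (Real.sqrt_le_sqrt ?_)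
    rw [div_le_div_iff₀ (by positivity) (by positivity)]
    have h3 : (N : ℝ) + 1 ≤ r * (M + 1) := by
      have h4 : N + 1 ≤ r * (M + 1) := by
        have := Nat.mod_lt N hr
        rw [mul_add, mul_one, mul_comm r M]
        omega
      exact_mod_cast h4
    have h5 : 0 ≤ (2 : ℝ) ^ d * (Fintype.card (Option L) : ℝ) ^ 2 ^ d := by positivity
    calc (2 : ℝ) ^ d * (Fintype.card (Option L) : ℝ) ^ 2 ^ d * (N + 1)
        ≤ (2 : ℝ) ^ d * (Fintype.card (Option L) : ℝ) ^ 2 ^ d * (r * (M + 1)) :=
          mul_le_mul_of_nonneg_left h3 h5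
      _ = _ := by ring
  have h3 := prod_le_prod (fun i _ => st_nonneg (Fintype.card (Option L)) (n i) M) h2
  refine h3.trans (le_of_eq ?_)
  rw [prod_const, card_range]

open Classical in
theorem jumps_gen {x : Option L → K} (hx : x none = 1) (F : ℕ → K → ℚ) (n : ℕ → ℕ)
    (c : ℕ → ℚ) {r : ℕ} (hF : ∀ i < r, Pol (n i + 1) (F i))
    (hn : ∀ i j, i < j → j < r → n i < n j) (h0 : ∀ i < r, 0 < n i)
    (hj : ∀ i < r, ∃ a ∈ Subgroup.closure (Set.range x),
      ∃ h ∈ (Subgroup.closure (Set.range x)).lowerCentralSeries (n i - 1), F i (a * h) ≠ F i a)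
    {d : ℕ} (hd : ∀ i < r, n i ≤ d) (N : ℕ) :
    (#{w : Fin N → Option L | ∀ i < r, F i (pr x w) = c i} : ℝ) ≤
      Real.sqrt (r * 2 ^ d * (Fintype.card (Option L) : ℝ) ^ 2 ^ d / (N + 1)) ^ r *
        (Fintype.card (Option L) : ℝ) ^ N := by
  have h := jumps_top (res_none hx) (res_top x)
    (fun i (y : Subgroup.closure (Set.range x)) => F i y) n c (r := r)
    (fun i hi => (hF i hi).hom (Subgroup.closure (Set.range x)).subtype) hn h0
    (fun i hi hle => by
      obtain ⟨a, ha, h, hh, hne⟩ := hj i hi
      rw [← Subgroup.top_subtype_lowerCentralSeries] at hh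
      obtain ⟨h', hh', rfl⟩ := hh
      apply hne
      have h1 := hle hh' ⟨a, ha⟩ 1
      simpa using h1) hd N
  simp only [pr_res] at h
  exact h

end

end Pool.Agent.Helper69.LW
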