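import Pool.Agent.Helper69.LW.Anti
import Pool.Graph.R_pool_sql_team_seeded_1acbe0a2.Y466.LM.WMain

/-!
# Finite type invariants on random products of Torelli elements
-/

set_option autoImplicit false

namespace Pool.Agent.Helper69.LW

open Finset Pool.Agent.Y466.FT Pool.Agent.Y466.RW Pool.Agent.Y466.LM

section
variable {G A : Type} [Group G] [AddCommGroup A] {k : ℕ}

/-- The products of the words at the places. -/
def cl (p : Fin k → FreeMonoid G) : Fin k → G := fun i => (p i).toList.prod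

theorem cl_mul (a b : Fin k → FreeMonoid G) : cl (a * b) = cl a * cl b := by
  funext i
  show (a i * b i).toList.prod = (a i).toList.prod * (b i).toList.prod
  rw [FreeMonoid.toList_mul, List.prod_append]

theorem cl_of (y : Fin k → G) : cl (fun i => FreeMonoid.of (y i)) = y := by
  funext i
  show (FreeMonoid.of (y i)).toList.prod = y i
  rw [FreeMonoid.toList_of, List.prod_singleton]

theorem pol_of_dg {n : ℕ} {F : (Fin k → G) → A} (h : Dg (EG G k) n (fun p => F (cl p))) :
    Pol n F := by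
  induction n generalizing F with
  | zero =>
    intro y
    have : F (cl fun i => FreeMonoid.of (y i)) = 0 := h (fun i => FreeMonoid.of (y i))
    rwa [cl_of] at this
  | succ n ih =>
    intro g
    have hpu : Pu ∅ (EG G k) (fun i => FreeMonoid.of (g i)) :=
      pu_all _ fun j => fun c _ hE => hE _ ⟨j, g j, rfl⟩
    have h1 := h.tr (R := ∅) (by intro r hr; exact absurd hr (Set.notMem_empty _)) hpu
    refine ih (h1.congr fun p => ?_)
    show F (cl (_ * p)) - F (cl p) = F (g * cl p) - F (cl p)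
    rw [cl_mul, cl_of]

/-- The product with the words at the places. -/
def ins (u₀ : G) (u : Fin k → G) (y : Fin k → G) : G := u₀ * (List.ofFn fun i => y i * u i).prod

theorem gw_prod (u₀ : G) (u : Fin k → G) (p : Fin k → FreeMonoid G) :
    (gw u₀ u p).prod = ins u₀ u (cl p) := by
  unfold gw ins plug
  rw [List.prod_append, List.prod_singleton, List.prod_flatten, List.map_ofFn]
  congr 3
  funext i
  show (List.map id (p i).toList ++ [u i]).prod = _
  rw [List.prod_append, List.prod_singleton, List.map_id]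
  rfl

theorem pol_ins {n : ℕ} {f : G → A} (h : AltZ n f) (u₀ : G) (u : Fin k → G) :
    Pol n (fun y => f (ins u₀ u y)) := by
  refine pol_of_dg ((dg_fw u₀ u h).congr fun p => ?_)
  show f (gw u₀ u p).prod = _
  rw [gw_prod]

/-- The letters. -/
def letr {L : Type} (x : L → Fin k → G) (o : Option L) : Fin k → G := o.elim 1 x

theorem pr_apply {L : Type} (x : L → Fin k → G) {N : ℕ} (w : Fin N → Option L) (i : Fin k) :
    pr (letr x) w i = (List.ofFn fun j => (w j).elim 1 fun s => x s i).prod := by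
  unfold pr
  refine (map_list_prod (Pi.evalMonoidHom (fun _ : Fin k => G) i) _).trans ?_
  rw [List.map_ofFn]
  congr 2
  funext j
  show letr x (w j) i = _
  cases w j <;> rfl

theorem walk_ins {L : Type} (u₀ : G) (u : Fin k → G) (x : L → Fin k → G) {N : ℕ}
    (w : Fin N → Option L) : walk u₀ u x w = ins u₀ u (pr (letr x) w) := by
  unfold walk ins
  congr 3
  funext i
  rw [pr_apply]

theorem closure_letr {L : Type} (x : L → Fin k → G) :
    Subgroup.closure (Set.range (letr x)) = Subgroup.closure (Set.range x) := by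
  apply le_antisymm
  · rw [Subgroup.closure_le]
    rintro _ ⟨o, rfl⟩
    cases o with
    | none => exact Subgroup.one_mem _
    | some s => exact Subgroup.subset_closure ⟨s, rfl⟩
  · rw [Subgroup.closure_le]
    rintro _ ⟨s, rfl⟩
    exact Subgroup.subset_closure ⟨some s, rfl⟩

end

section
variable {L L' : Type} [Fintype L] [Fintype L'] {g g' : ℕ} (W : Walk L g) (W' : Walk L' g')

/-- The function of the elements at the places. -/
def vf {A : Type} (v : ∀ g : ℕ, MulAut (Fg g) → A) (y : Fin W.k → Tor g) : A :=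
  v g (ins W.u₀ W.u y : Tor g)

omit [Fintype L] in
theorem at_ins {N : ℕ} (w : Fin N → Option L) :
    W.at w = (ins W.u₀ W.u (pr (letr W.x) w) : Tor g) := by
  unfold Walk.at
  rw [walk_ins]

omit [Fintype L] in
theorem vf_at {A : Type} (v : ∀ g : ℕ, MulAut (Fg g) → A) {N : ℕ} (w : Fin N → Option L) :
    v g (W.at w) = vf W v (pr (letr W.x) w) := by
  rw [at_ins]
  rfl

omit [Fintype L] in
theorem pol_vf {A : Type} [AddCommGroup A] {n : ℕ} {v : ∀ g : ℕ, MulAut (Fg g) → A}
    (h : DegreeLE n v) : Pol (n + 1) (vf W v) := pol_ins (altZ_of h g) W.u₀ W.u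

/-- The bound for the probability. -/
noncomputable def rate₂ (L : Type) [Fintype L] (n N : ℕ) : ℝ :=
  n * Real.sqrt (2 ^ n * (Fintype.card L + 1) ^ 2 ^ n / (N + 1))

theorem rate₂_nonneg (n N : ℕ) : 0 ≤ rate₂ L n N := by
  unfold rate₂
  positivity

theorem rate₂_eq (n N : ℕ) : rate₂ L n N = rt (Fintype.card (Option L)) n N := by
  unfold rate₂ rt
  rw [Fintype.card_option]
  push_cast
  rfl

theorem anti₂ {A : Type} [AddCommGroup A]
    (htf : ∀ (n : ℕ) (a : A), n ≠ 0 → n • a = 0 → a = 0) {n : ℕ}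
    {v : ∀ g : ℕ, MulAut (Fg g) → A} (hn : DegreeLE n v) {N₀ N₁ : ℕ} {w₀ : Fin N₀ → Option L}
    {w₁ : Fin N₁ → Option L} (hne : v g (W.at w₀) ≠ v g (W.at w₁)) (N : ℕ) (c : A) :
    Prob (fun w : Fin N → Option L => v g (W.at w) = c) ≤ rate₂ L n N := by
  classical
  rw [rate₂_eq]
  refine Prob_le ?_
  simp only [vf_at] at hne ⊢
  have := anti_gen htf (x := letr W.x) rfl (pol_vf W hn) hne N c
  convert this

theorem Prob_mono {α : Type} [Fintype α] {p q : α → Prop} (h : ∀ a, p a → q a) :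
    Prob p ≤ Prob q := by
  classical
  unfold Prob
  refine div_le_div_of_nonneg_right ?_ (Nat.cast_nonneg _)
  have : (univ.filter p).card ≤ (univ.filter q).card :=
    card_le_card fun a ha => by
      rw [mem_filter] at ha ⊢
      exact ⟨ha.1, h a ha.2⟩
  exact_mod_cast this

theorem Prob_nonneg {α : Type} [Fintype α] (p : α → Prop) : 0 ≤ Prob p := by
  unfold Prob
  positivity

theorem Prob_fst {α β : Type} [Fintype α] [Fintype β] {p : α × β → Prop} {e : ℝ} (he : 0 ≤ e)
    (h : ∀ b, Prob (fun a => p (a, b)) ≤ e) : Prob p ≤ e := by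
  classical
  unfold Prob at h ⊢
  rcases isEmpty_or_nonempty α with hα | hα
  · simp [he]
  rcases isEmpty_or_nonempty β with hβ | hβ
  · simp [he]
  have hA : (0 : ℝ) < Fintype.card α := by exact_mod_cast Fintype.card_pos
  have hB : (0 : ℝ) < Fintype.card β := by exact_mod_cast Fintype.card_pos
  rw [div_le_iff₀ (by rw [Fintype.card_prod]; push_cast; positivity)]
  have e1 : ((univ.filter p).card : ℝ) = ∑ b : β, ((univ.filter fun a => p (a, b)).card : ℝ) := by
    have : (univ.filter p).card = ∑ b : β, (univ.filter fun a => p (a, b)).card := by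
      rw [card_filter, Fintype.sum_prod_type, sum_comm]
      refine sum_congr rfl fun b _ => ?_
      rw [card_filter]
    rw [this]
    push_cast
    rfl
  have e2 : ((univ.filter p).card : ℝ) ≤ ∑ _b : β, e * (Fintype.card α : ℝ) := by
    rw [e1]
    refine sum_le_sum fun b _ => ?_
    have := h b
    rw [div_le_iff₀ hA] at this
    convert this
  refine le_trans ?_ (e2.trans (le_of_eq ?_))
  · refine le_of_eq ?_
    congr
  · rw [sum_const, card_univ, nsmul_eq_mul, Fintype.card_prod]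
    push_cast
    ring

theorem Prob_snd {α β : Type} [Fintype α] [Fintype β] {p : α × β → Prop} {e : ℝ} (he : 0 ≤ e)
    (h : ∀ a, Prob (fun b => p (a, b)) ≤ e) : Prob p ≤ e := by
  have h1 : Prob (fun z : β × α => p (z.2, z.1)) ≤ e := Prob_fst he h
  refine le_trans (le_of_eq ?_) h1
  classical
  unfold Prob
  congr 1
  · norm_cast
    refine card_bij (fun z _ => (z.2, z.1)) (fun z hz => ?_) (fun z _ z' _ h => ?_)
      (fun z hz => ⟨(z.2, z.1), ?_, rfl⟩)
    · rw [mem_filter] at hz ⊢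
      exact ⟨mem_univ _, hz.2⟩
    · rw [Prod.mk.injEq] at h
      exact Prod.ext h.2 h.1
    · rw [mem_filter] at hz ⊢
      exact ⟨mem_univ _, hz.2⟩
  · rw [Fintype.card_prod, Fintype.card_prod, mul_comm]

theorem Prob_zero {α : Type} [Fintype α] {p : α → Prop} (h : ∀ a, ¬ p a) : Prob p = 0 := by
  classical
  unfold Prob
  rw [filter_eq_empty_iff.2 fun a _ => h a, card_empty, Nat.cast_zero, zero_div]

/-- The zero-one law. -/
theorem zo₂ {n N₀ N₀' : ℕ} {w₀ : Fin N₀ → Option L} {w₀' : Fin N₀' → Option L'}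
    (hs : Separated n (W.at w₀) (W'.at w₀')) (N N' : ℕ) :
    Prob (fun z : (Fin N → Option L) × (Fin N' → Option L') =>
      ¬ Separated n (W.at z.1) (W'.at z.2)) ≤ max (rate₂ L n N) (rate₂ L' n N') := by
  obtain ⟨v, hv, hn, hne⟩ := hs
  have h0 := Prob_mono (p := fun z : (Fin N → Option L) × (Fin N' → Option L') =>
      ¬ Separated n (W.at z.1) (W'.at z.2)) (q := fun z => v g (W.at z.1) = v g' (W'.at z.2))
      (fun z hz => by
        by_contra hcon
        exact hz ⟨v, hv, hn, hcon⟩)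
  refine h0.trans ?_
  by_cases hc : ∃ (N₁ : ℕ) (w₁ : Fin N₁ → Option L), v g (W.at w₁) ≠ v g (W.at w₀)
  · obtain ⟨N₁, w₁, hw₁⟩ := hc
    refine le_trans ?_ (le_max_left _ _)
    exact Prob_fst (rate₂_nonneg _ _) fun z' =>
      anti₂ W tf_rat hn hw₁ N (v g' (W'.at z'))
  · by_cases hc' : ∃ (N₁ : ℕ) (w₁ : Fin N₁ → Option L'), v g' (W'.at w₁) ≠ v g' (W'.at w₀')
    · obtain ⟨N₁, w₁, hw₁⟩ := hc'
      refine le_trans ?_ (le_max_right _ _)
      refine Prob_snd (rate₂_nonneg _ _) fun z => ?_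
      exact (Prob_mono fun z' hz' => Eq.symm hz').trans
        (anti₂ W' tf_rat hn hw₁ N' (v g (W.at z)))
    · push Not at hc hc'
      refine le_trans (le_of_eq ?_) (le_trans (rate₂_nonneg (L := L) n N) (le_max_left _ _))
      refine Prob_zero fun z hz => ?_
      rw [hc, hc'] at hz
      exact hne hz

theorem one₂ {n N₀ : ℕ} (ψ : Tor g') {w₀ : Fin N₀ → Option L} (hs : Separated n (W.at w₀) ψ.1)
    (N : ℕ) : Prob (fun w : Fin N → Option L => ¬ Separated n (W.at w) ψ.1) ≤ rate₂ L n N := by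
  obtain ⟨v, hv, hn, hne⟩ := hs
  have h0 := Prob_mono (p := fun w : Fin N → Option L => ¬ Separated n (W.at w) ψ.1)
    (q := fun w => v g (W.at w) = v g' ψ.1) (fun z hz => by
      by_contra hcon
      exact hz ⟨v, hv, hn, hcon⟩)
  refine h0.trans ?_
  by_cases hc : ∃ (N₁ : ℕ) (w₁ : Fin N₁ → Option L), v g (W.at w₁) ≠ v g (W.at w₀)
  · obtain ⟨N₁, w₁, hw₁⟩ := hc
    exact anti₂ W tf_rat hn hw₁ N (v g' ψ.1)
  · push Not at hc
    refine le_trans (le_of_eq ?_) (rate₂_nonneg _ _)
    refine Prob_zero fun z hz => ?_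
    rw [hc] at hz
    exact hne hz

theorem rigid₂ (ψ : Tor g') (h : ∀ C : ℝ, ∃ N : ℕ, C / Real.sqrt (N + 1) <
      Prob (fun w : Fin N → Option L => ∀ n, ¬ Separated n (W.at w) ψ.1))
    {N : ℕ} (w : Fin N → Option L) (n : ℕ) : ¬ Separated n (W.at w) ψ.1 := by
  intro hs
  obtain ⟨M, hM⟩ := h (n * Real.sqrt (2 ^ n * (Fintype.card L + 1) ^ 2 ^ n))
  have h1 := one₂ W ψ hs M
  have h2 := Prob_mono (p := fun w : Fin M → Option L => ∀ n, ¬ Separated n (W.at w) ψ.1)
    (q := fun w => ¬ Separated n (W.at w) ψ.1) (fun w hw => hw n)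
  have h3 : rate₂ L n M = n * Real.sqrt (2 ^ n * (Fintype.card L + 1) ^ 2 ^ n) /
      Real.sqrt (M + 1) := by
    unfold rate₂
    rw [Real.sqrt_div (by positivity), mul_div_assoc]
  rw [← h3] at hM
  linarith

/-- The words see degree `n`. -/
def Sees {L : Type} {g : ℕ} (W : Walk L g) (n : ℕ) : Prop :=
  ∃ v : ∀ g : ℕ, MulAut (Fg g) → ℚ, IsInvariant v ∧ DegreeLE n v ∧
    ∃ a ∈ Subgroup.closure (Set.range W.x),
      ∃ h ∈ (Subgroup.closure (Set.range W.x)).lowerCentralSeries (n - 1),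
        vf W v (a * h) ≠ vf W v a

theorem jumps₂ (ψ : Tor g') {n : ℕ → ℕ} {r : ℕ} (hn : ∀ i j, i < j → j < r → n i < n j)
    (h0 : ∀ i < r, 0 < n i) (hj : ∀ i < r, Sees W (n i)) {d : ℕ} (hd : ∀ i < r, n i ≤ d)
    (N : ℕ) :
    Prob (fun w : Fin N → Option L => ¬ Separated d (W.at w) ψ.1) ≤
      Real.sqrt (r * 2 ^ d * ((Fintype.card L : ℝ) + 1) ^ 2 ^ d / (N + 1)) ^ r := by
  classical
  have hv : ∀ i : ℕ, ∃ v : ∀ g : ℕ, MulAut (Fg g) → ℚ, i < r → IsInvariant v ∧ DegreeLE (n i) v ∧
      ∃ a ∈ Subgroup.closure (Set.range W.x),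
      ∃ h ∈ (Subgroup.closure (Set.range W.x)).lowerCentralSeries (n i - 1),
        vf W v (a * h) ≠ vf W v a := by
    intro i
    by_cases hi : i < r
    · obtain ⟨v, hv⟩ := hj i hi
      exact ⟨v, fun _ => hv⟩
    · exact ⟨fun _ _ => 0, fun h => absurd h hi⟩
  choose v hv using hv
  have h1 := jumps_gen (x := letr W.x) rfl (fun i => vf W (v i)) n (fun i => v i g' ψ.1) (r := r)
    (fun i hi => pol_vf W (hv i hi).2.1) hn h0 (fun i hi => by
      rw [closure_letr]
      exact (hv i hi).2.2) hd N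
  have e : ((Fintype.card (Option L) : ℕ) : ℝ) = (Fintype.card L : ℝ) + 1 := by
    rw [Fintype.card_option]; push_cast; rfl
  have h2 : Prob (fun w : Fin N → Option L => ∀ i < r, v i g (W.at w) = v i g' ψ.1) ≤
      Real.sqrt (r * 2 ^ d * ((Fintype.card L : ℝ) + 1) ^ 2 ^ d / (N + 1)) ^ r := by
    refine Prob_le ?_
    simp only [vf_at]
    rw [← e]
    convert h1
  refine (Prob_mono fun w hw => ?_).trans h2
  intro i hi
  by_contra hcon
  exact hw ⟨v i, (hv i hi).1, (hv i hi).2.1.mono (hd i hi), hcon⟩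

end

end Pool.Agent.Helper69.LW
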