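import Pool.Agent.Helper69.LW.Lev
import Pool.Graph.R_seed8.Y466.RW.Bin

/-!
# Counting words
-/

set_option autoImplicit false

namespace Pool.Agent.Helper69.LW

open Finset Pool.Agent.Y466.RW

section
variable {X : Type*} {K : Type*} [Group K]

/-- The product of a sequence of letters. -/
def pr (x : X → K) {N : ℕ} (w : Fin N → X) : K := (List.ofFn fun j => x (w j)).prod

theorem pr_append (x : X → K) {m n : ℕ} (y : Fin m → X) (z : Fin n → X) :
    pr x (Fin.append y z) = pr x y * pr x z := by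
  have h : ∀ {N : ℕ} (w : Fin N → X), pr x w = ((List.ofFn w).map x).prod := by
    intro N w
    unfold pr
    rw [List.map_ofFn]
    rfl
  rw [h, h, h, List.ofFn_fin_append, List.map_append, List.prod_append]

variable [Fintype X] {ι : Type*} [Fintype ι]

open Classical in
/-- The number of the words, together with `t` coins with the value `γ`, which satisfy `E`. -/
noncomputable def TT (x : X → K) (α : ι → K) (γ : K) (E : K → Prop) (P : K) (N t : ℕ) : ℕ :=
  ∑ i : ι, ∑ w : Fin N → X, ∑ k ∈ range (t + 1),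
    t.choose k * (if E (α i * γ ^ k * P * pr x w) then 1 else 0)

theorem TT_split (x : X → K) (α : ι → K) (γ : K) (E : K → Prop) (P : K) (m N t : ℕ) :
    TT x α γ E P (m + N) t = ∑ y : Fin m → X, TT x α γ E (P * pr x y) N t := by
  classical
  unfold TT
  refine Eq.trans (sum_congr rfl fun i _ => ?_) sum_comm
  rw [← (Fin.appendEquiv m N).sum_comp, Fintype.sum_prod_type]
  refine sum_congr rfl fun y _ => sum_congr rfl fun w _ => sum_congr rfl fun k _ => ?_
  have e : Fin.appendEquiv m N (y, w) = Fin.append y w := rfl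
  rw [e, pr_append, ← mul_assoc (α i * γ ^ k * P), ← mul_assoc (α i * γ ^ k) P]

theorem TT_block (x : X → K) (α : ι → K) {γ : K} {E : K → Prop}
    (hc : ∀ a g b, E (a * γ * g * b) ↔ E (a * g * γ * b)) {m : ℕ} {U U' : Fin m → X}
    (hU : U ≠ U') (hUU : pr x U' = γ * pr x U) [DecidableEq (Fin m → X)] (P : K) (N t : ℕ) :
    TT x α γ E P (m + N) t = TT x α γ E (P * pr x U) N (t + 1) +
      ∑ y ∈ (univ.erase U).erase U', TT x α γ E (P * pr x y) N t := by
  classical
  rw [TT_split, ← sum_erase_add _ _ (mem_univ U), ← sum_erase_add _ _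
    (mem_erase.2 ⟨hU.symm, mem_univ U'⟩), add_assoc, add_comm]
  congr 1
  unfold TT
  rw [← sum_add_distrib]
  refine sum_congr rfl fun i _ => ?_
  rw [← sum_add_distrib]
  refine sum_congr rfl fun w _ => ?_
  set f : ℕ → ℕ := fun k => if E (α i * γ ^ k * (P * pr x U) * pr x w) then 1 else 0 with hf
  have e1 : ∀ k, (if E (α i * γ ^ k * (P * pr x U') * pr x w) then 1 else 0) = f (k + 1) := by
    intro k
    rw [hf]
    have : E (α i * γ ^ k * (P * pr x U') * pr x w) ↔
        E (α i * γ ^ (k + 1) * (P * pr x U) * pr x w) := by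
      have h1 := hc (α i * γ ^ k) P (pr x U * pr x w)
      have e2 : α i * γ ^ k * (P * pr x U') * pr x w =
          α i * γ ^ k * P * γ * (pr x U * pr x w) := by
        rw [hUU]; simp only [mul_assoc]
      have e3 : α i * γ ^ (k + 1) * (P * pr x U) * pr x w =
          α i * γ ^ k * γ * P * (pr x U * pr x w) := by
        rw [pow_succ]; simp only [mul_assoc]
      rw [e2, e3]
      exact h1.symm
    simp only [this]
  simp only [e1]
  show ∑ k ∈ range (t + 1), t.choose k * f (k + 1) + ∑ k ∈ range (t + 1), t.choose k * f k =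
    ∑ k ∈ range (t + 1 + 1), (t + 1).choose k * f k
  rw [sum_range_succ' (fun k => (t + 1).choose k * f k)]
  simp only [Nat.choose_succ_succ, add_mul, sum_add_distrib]
  rw [add_assoc]
  congr 1
  rw [sum_range_succ (fun k => t.choose (k + 1) * f (k + 1)), Nat.choose_succ_self, zero_mul,
    add_zero, sum_range_succ' (fun k => t.choose k * f k)]
  simp

open Classical in
theorem TT_base (x : X → K) (α : ι → K) {γ : K} {E Q : K → Prop} {n B : ℕ}
    (hn : ∀ (p q : K) (s : Finset ℕ), (∀ k ∈ s, E (p * γ ^ k * q)) → s.card ≤ n)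
    (hEQ : ∀ p, E p → Q p) (hQ : ∀ a b, Q (a * γ * b) ↔ Q (a * b))
    (hB : ∀ q, #{i | Q (α i * q)} ≤ B) (P : K) (N t : ℕ) :
    TT x α γ E P N t ≤ Fintype.card X ^ N * (B * n * bm t) := by
  have hQk : ∀ (k : ℕ) (a b : K), Q (a * γ ^ k * b) ↔ Q (a * b) := by
    intro k
    induction k with
    | zero => intro a b; rw [pow_zero, mul_one]
    | succ k ih =>
      intro a b
      rw [pow_succ, ← mul_assoc, hQ, ih]
  unfold TT
  rw [sum_comm]
  have h1 : ∀ w : Fin N → X, ∑ i : ι, ∑ k ∈ range (t + 1),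
      t.choose k * (if E (α i * γ ^ k * P * pr x w) then 1 else 0) ≤ B * n * bm t := by
    intro w
    have h2 : ∀ i : ι, ∑ k ∈ range (t + 1),
        t.choose k * (if E (α i * γ ^ k * P * pr x w) then 1 else 0) ≤
        (if Q (α i * (P * pr x w)) then 1 else 0) * (n * bm t) := by
      intro i
      by_cases hq : Q (α i * (P * pr x w))
      · rw [if_pos hq, one_mul]
        have h3 : ∑ k ∈ range (t + 1),
            t.choose k * (if E (α i * γ ^ k * P * pr x w) then 1 else 0) =
            ∑ k ∈ (range (t + 1)).filter (fun k => E (α i * γ ^ k * P * pr x w)),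
              t.choose k := by
          rw [sum_filter]
          refine sum_congr rfl fun k _ => ?_
          split_ifs <;> simp
        rw [h3]
        refine (sum_le_card_nsmul _ _ (bm t) fun k _ => choose_le_bm t k).trans ?_
        rw [smul_eq_mul]
        refine Nat.mul_le_mul_right _ (hn (α i) (P * pr x w) _ fun k hk => ?_)
        have := (mem_filter.1 hk).2
        rwa [mul_assoc (α i * γ ^ k)] at this
      · rw [if_neg hq, zero_mul, Nat.le_zero]
        refine sum_eq_zero fun k _ => ?_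
        rw [if_neg, mul_zero]
        intro he
        apply hq
        have h4 := hEQ _ he
        rw [mul_assoc (α i * γ ^ k)] at h4
        exact (hQk k _ _).1 h4
    refine (sum_le_sum fun i _ => h2 i).trans ?_
    rw [← sum_mul, ← card_filter, mul_assoc]
    exact Nat.mul_le_mul_right _ (hB _)
  refine (sum_le_card_nsmul _ _ _ fun w _ => h1 w).trans ?_
  rw [card_univ, Fintype.card_fun, Fintype.card_fin, smul_eq_mul]

theorem bd_mono_step (c : ℕ) : ∀ j t, bd c (j + 1) t = bd c j (t + 1) + c * bd c j t := fun j t =>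
  bd_succ c j t

open Classical in
theorem TT_iter (x : X → K) (α : ι → K) {γ : K} {E Q : K → Prop} {n B : ℕ}
    (hc : ∀ a g b, E (a * γ * g * b) ↔ E (a * g * γ * b))
    (hn : ∀ (p q : K) (s : Finset ℕ), (∀ k ∈ s, E (p * γ ^ k * q)) → s.card ≤ n)
    (hEQ : ∀ p, E p → Q p) (hQ : ∀ a b, Q (a * γ * b) ↔ Q (a * b))
    (hB : ∀ q, #{i | Q (α i * q)} ≤ B) {m : ℕ} {U U' : Fin m → X}
    (hU : U ≠ U') (hUU : pr x U' = γ * pr x U) (N j : ℕ) (P : K) (t : ℕ) :
    TT x α γ E P (m * j + N) t ≤
      Fintype.card X ^ N * (B * n * bd (Fintype.card X ^ m - 2) j t) := by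
  induction j generalizing P t with
  | zero =>
    rw [bd_zero, mul_zero, zero_add]
    exact TT_base x α hn hEQ hQ hB P N t
  | succ j ih =>
    have e : m * (j + 1) + N = m + (m * j + N) := by ring
    rw [e, TT_block x α hc hU hUU, bd_succ]
    refine (add_le_add (ih _ _) (sum_le_card_nsmul _ _ _ fun y _ => ih (P * pr x y) t)).trans ?_
    rw [card_erase_of_mem (mem_erase.2 ⟨hU.symm, mem_univ U'⟩), card_erase_of_mem (mem_univ U),
      card_univ, Fintype.card_fun, Fintype.card_fin, smul_eq_mul, Nat.sub_sub]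
    refine le_of_eq ?_
    ring

open Classical in
/-- **The counting lemma.** -/
theorem count_words (x : X → K) (α : ι → K) {γ : K} {E Q : K → Prop} {n B : ℕ}
    (hc : ∀ a g b, E (a * γ * g * b) ↔ E (a * g * γ * b))
    (hn : ∀ (p q : K) (s : Finset ℕ), (∀ k ∈ s, E (p * γ ^ k * q)) → s.card ≤ n)
    (hEQ : ∀ p, E p → Q p) (hQ : ∀ a b, Q (a * γ * b) ↔ Q (a * b))
    (hB : ∀ q, #{i | Q (α i * q)} ≤ B) {m : ℕ} {U U' : Fin m → X}
    (hU : U ≠ U') (hUU : pr x U' = γ * pr x U) (N : ℕ) :
    (#{z : ι × (Fin N → X) | E (α z.1 * pr x z.2)} : ℝ) ≤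
      B * n * ((Fintype.card X : ℝ) ^ N *
        Real.sqrt (m * (Fintype.card X : ℝ) ^ m / (2 * (N + 1)))) := by
  have hm : 0 < m := by
    rcases Nat.eq_zero_or_pos m with rfl | h
    · exact absurd (Subsingleton.elim _ _) hU
    · exact h
  have hX : (0 : ℝ) ≤ Fintype.card X := Nat.cast_nonneg _
  have h2 : 2 ≤ Fintype.card X ^ m := by
    have := card_le_univ ({U, U'} : Finset (Fin m → X))
    rwa [card_pair hU, Fintype.card_fun, Fintype.card_fin] at this
  -- the number of blocks
  set j := N / m with hj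
  set N₀ := N % m with hN₀
  have hN : m * j + N₀ = N := Nat.div_add_mod N m
  have e1 : #{z : ι × (Fin N → X) | E (α z.1 * pr x z.2)} = TT x α γ E 1 N 0 := by
    unfold TT
    rw [card_filter, Fintype.sum_prod_type]
    refine sum_congr rfl fun i _ => sum_congr rfl fun w _ => ?_
    simp
  have h3 := TT_iter x α hc hn hEQ hQ hB hU hUU N₀ j 1 0
  rw [hN, ← e1] at h3
  have h4 := bd_le (Fintype.card X ^ m - 2) j
  have e2 : ((Fintype.card X ^ m - 2 : ℕ) : ℝ) + 2 = (Fintype.card X : ℝ) ^ m := by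
    rw [Nat.cast_sub h2]; push_cast; ring
  rw [e2] at h4
  have h5 : (bd (Fintype.card X ^ m - 2) j 0 : ℝ) ≤ (Fintype.card X : ℝ) ^ (m * j) *
      Real.sqrt (m * (Fintype.card X : ℝ) ^ m / (2 * (N + 1))) := by
    have h6 : (bd (Fintype.card X ^ m - 2) j 0 : ℝ) ^ 2 ≤ ((Fintype.card X : ℝ) ^ (m * j) *
        Real.sqrt (m * (Fintype.card X : ℝ) ^ m / (2 * (N + 1)))) ^ 2 := by
      rw [mul_pow, Real.sq_sqrt (by positivity)]
      refine h4.trans ?_
      rw [← pow_mul, ← pow_mul, show m * (2 * j) = m * j * 2 by ring]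
      refine mul_le_mul_of_nonneg_left ?_ (by positivity)
      have h7 : (N : ℝ) + 1 ≤ m * (j + 1) := by
        have h8 : N + 1 ≤ m * (j + 1) := by
          have := Nat.mod_lt N hm
          rw [mul_add, mul_one]
          omega
        exact_mod_cast h8
      rw [div_le_div_iff₀ (by positivity) (by positivity)]
      have h9 : 0 ≤ (Fintype.card X : ℝ) ^ m := by positivity
      nlinarith [mul_le_mul_of_nonneg_left h7 h9]
    exact le_of_sq_le_sq h6 (by positivity)
  have h10 : (#{z : ι × (Fin N → X) | E (α z.1 * pr x z.2)} : ℝ) ≤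
      (Fintype.card X : ℝ) ^ N₀ * (B * n * bd (Fintype.card X ^ m - 2) j 0) := by
    exact_mod_cast h3
  refine h10.trans ?_
  have e3 : (Fintype.card X : ℝ) ^ N = (Fintype.card X : ℝ) ^ N₀ * (Fintype.card X : ℝ) ^ (m * j) := by
    rw [← pow_add, add_comm, hN]
  rw [e3]
  calc (Fintype.card X : ℝ) ^ N₀ * (B * n * bd (Fintype.card X ^ m - 2) j 0)
      ≤ (Fintype.card X : ℝ) ^ N₀ * (B * n * ((Fintype.card X : ℝ) ^ (m * j) *
        Real.sqrt (m * (Fintype.card X : ℝ) ^ m / (2 * (N + 1))))) := by gcongr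
    _ = _ := by ring

end

end Pool.Agent.Helper69.LW
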