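import Pool.Graph.R_pool_sql_team_seeded_1acbe0a2.Y466.LM.WDefs

/-!
# The values of the LMO invariant on random products of Torelli elements: definitions
-/

set_option autoImplicit false

namespace Pool.Agent.Helper69.LW

open Pool.Agent.Y466.LM

/-- The homology spheres `M_φ` and `M_ψ` are not separated by rational finite type invariants, i.e.
they have the same LMO invariant (theorem of Le). -/
def Same {g g' : ℕ} (φ : MulAut (Fg g)) (ψ : MulAut (Fg g')) : Prop := ∀ n, ¬ Separated n φ ψ

variable {L : Type} {g : ℕ}

/-- The subgroup of `Tor g ^ k` generated by the letters. -/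
def grp (W : Walk L g) : Subgroup (Fin W.k → Tor g) := Subgroup.closure (Set.range W.x)

/-- The element `u₀ a_0 u_0 ⋯ a_{k-1} u_{k-1}` of the Torelli group. -/
def put (W : Walk L g) (a : Fin W.k → Tor g) : MulAut (Fg g) :=
  (W.u₀ * (List.ofFn fun i => a i * W.u i).prod : Tor g)

/-- The number of different values of the LMO invariant on the homology spheres `M(w)`, `w` a word of
length `N`. -/
noncomputable def num (W : Walk L g) (N : ℕ) : ℕ :=
  Nat.card (Quot fun w w' : Fin N → Option L => Same (W.at w) (W.at w'))

/-- The probability that the random `M(w')`, `w'` of length `N`, has the same LMO invariant as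
`M(w)`. -/
noncomputable def cp [Fintype L] (W : Walk L g) {N : ℕ} (w : Fin N → Option L) : ℝ :=
  Prob fun w' : Fin N → Option L => Same (W.at w) (W.at w')

/-- The LMO invariant of `M_{u₀ a_0 u_0 ⋯ a_{k-1} u_{k-1}}`, `a` in the group `H` generated by the
letters, depends only on the class of `a` modulo the term `γ_{c+1}(H)` of the lower central series
(`γ_1(H) = H`). -/
def Nilp (W : Walk L g) (c : ℕ) : Prop :=
  ∀ a ∈ grp W, ∀ h ∈ (grp W).lowerCentralSeries c, Same (put W (a * h)) (put W a)

end Pool.Agent.Helper69.LW
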