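import Pool.Agent.Helper69.LW.Jump

/-!
# Nilpotent groups are products of powers of finitely many elements
-/

set_option autoImplicit false

namespace Pool.Agent.Helper69.LW

open Finset IsMulCommutative

section
variable {K : Type*} [Group K]

/-- The product of powers. -/
def pw {m : ℕ} (t : Fin m → K) (q : Fin m → ℤ) : K := (List.ofFn fun i => t i ^ q i).prod

theorem pw_append {m l : ℕ} (t : Fin m → K) (s : Fin l → K) (q : Fin m → ℤ) (e : Fin l → ℤ) :
    pw (Fin.append t s) (Fin.append q e) = pw t q * pw s e := by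
  unfold pw
  rw [← List.prod_append, ← List.ofFn_fin_append]
  congr 2
  funext i
  refine Fin.addCases (fun i => ?_) (fun i => ?_) i
  · simp only [Fin.append_left]
  · simp only [Fin.append_right]

theorem map_pw {G : Type*} [Group G] (f : K →* G) {m : ℕ} (t : Fin m → K) (q : Fin m → ℤ) :
    f (pw t q) = pw (fun i => f (t i)) q := by
  unfold pw
  rw [map_list_prod, List.map_ofFn]
  congr 2
  funext i
  simp

/-- The subgroup generated by central elements. -/
theorem closure_central {l : ℕ} {a : Fin l → K} (ha : ∀ j, a j ∈ Subgroup.center K) {y : K}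
    (hy : y ∈ Subgroup.closure (Set.range a)) : ∃ e : Fin l → ℤ, y = pw a e := by
  -- the elements of the center
  set b : Fin l → Subgroup.center K := fun j => ⟨a j, ha j⟩ with hb
  have key : ∀ e : Fin l → ℤ, ((∏ j, b j ^ e j : Subgroup.center K) : K) = pw a e := by
    intro e
    rw [← List.prod_ofFn, Subgroup.val_list_prod, List.map_ofFn]
    rfl
  have h1 : ∃ e : Fin l → ℤ, y = ((∏ j, b j ^ e j : Subgroup.center K) : K) := by
    induction hy using Subgroup.closure_induction with
    | mem y hy =>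
      obtain ⟨j, rfl⟩ := hy
      refine ⟨Pi.single j 1, ?_⟩
      rw [Finset.prod_eq_single j]
      · rw [Pi.single_eq_same, zpow_one]
      · intro i _ hij
        rw [Pi.single_eq_of_ne hij, zpow_zero]
      · intro h
        exact absurd (mem_univ j) h
    | one => exact ⟨0, by simp⟩
    | mul y z _ _ ihy ihz =>
      obtain ⟨e, rfl⟩ := ihy
      obtain ⟨e', rfl⟩ := ihz
      refine ⟨e + e', ?_⟩
      rw [← Subgroup.coe_mul, ← prod_mul_distrib]
      congr 2
      funext j
      rw [Pi.add_apply, zpow_add]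
    | inv y _ ihy =>
      obtain ⟨e, rfl⟩ := ihy
      refine ⟨-e, ?_⟩
      rw [← Subgroup.coe_inv, ← prod_inv_distrib]
      congr 2
      funext j
      rw [Pi.neg_apply, zpow_neg]
  obtain ⟨e, he⟩ := h1
  exact ⟨e, he.trans (key e)⟩

variable {L : Type*} [Finite L]

variable (K) in
theorem lev_fin (x : Option L → K) (k : ℕ) :
    {γ : K | ∃ u u', Lev L k u u' ∧ γ = quo x u u'}.Finite := by
  have h1 : ({l : List (Option L) | l.length = 2 ^ (k + 1) - 1} ×ˢ
      {l : List (Option L) | l.length = 2 ^ (k + 1) - 1}).Finite :=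
    (List.finite_length_eq _ _).prod (List.finite_length_eq _ _)
  refine (h1.image fun p => quo x p.1 p.2).subset ?_
  rintro γ ⟨u, u', h, rfl⟩
  obtain ⟨h2, h3⟩ := h.length
  refine ⟨(u, u'), ⟨?_, ?_⟩, rfl⟩
  · show u.length = _
    omega
  · show u'.length = _
    omega

/-- Elements of the lower central terms modulo the next one. -/
theorem lcs_pw {x : Option L → K} (hx : x none = 1) (hg : Subgroup.closure (Set.range x) = ⊤)
    (k : ℕ) : ∃ (l : ℕ) (s : Fin l → K), ∀ z ∈ (⊤ : Subgroup K).lowerCentralSeries k,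
      ∃ (e : Fin l → ℤ), ∃ z' ∈ (⊤ : Subgroup K).lowerCentralSeries (k + 1), z = pw s e * z' := by
  have := (lev_fin K x k).to_subtype
  obtain ⟨l, ⟨φ⟩⟩ := Finite.exists_equiv_fin {γ : K | ∃ u u', Lev L k u u' ∧ γ = quo x u u'}
  set s : Fin l → K := fun i => (φ.symm i).1 with hs
  refine ⟨l, s, fun z hz => ?_⟩
  set M := (⊤ : Subgroup K).lowerCentralSeries (k + 1) with hM
  set π := QuotientGroup.mk' M with hπ
  have hsc : ∀ j, π (s j) ∈ Subgroup.center (K ⧸ M) := by
    intro j
    rw [Subgroup.mem_center_iff]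
    intro q
    obtain ⟨g, rfl⟩ := QuotientGroup.mk'_surjective M q
    obtain ⟨u, u', hl, he⟩ := (φ.symm j).2
    have h1 : s j ∈ (⊤ : Subgroup K).lowerCentralSeries k := by
      have := hl.mem_lcs (x := x)
      rw [← he] at this
      exact this
    have h2 : s j * g * (s j)⁻¹ * g⁻¹ ∈ M := by
      rw [hM, Subgroup.lowerCentralSeries_succ]
      exact Subgroup.commutator_mem_commutator h1 (Subgroup.mem_top g)
    rw [← map_mul, ← map_mul, hπ, QuotientGroup.mk'_apply, QuotientGroup.mk'_apply, QuotientGroup.eq]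
    have e1 : (g * s j)⁻¹ * (s j * g) =
        (g * s j)⁻¹ * (s j * g * (s j)⁻¹ * g⁻¹) * (g * s j) := by group
    rw [e1]
    have h3 := (inferInstance : M.Normal).conj_mem _ h2 (g * s j)⁻¹
    rwa [inv_inv] at h3
  set P : Subgroup K := (Subgroup.closure (Set.range fun j => π (s j))).comap π with hP
  have : (Subgroup.closure (Set.range fun j => π (s j))).Normal := by
    have hle : Subgroup.closure (Set.range fun j => π (s j)) ≤ Subgroup.center (K ⧸ M) := by
      rw [Subgroup.closure_le]
      rintro _ ⟨j, rfl⟩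
      exact hsc j
    refine ⟨fun y hy g => ?_⟩
    have := Subgroup.mem_center_iff.1 (hle hy) g
    rw [this, mul_inv_cancel_right]
    exact hy
  have h1 : (⊤ : Subgroup K).lowerCentralSeries k ≤ P := by
    refine lcs_le hx hg k P fun u u' hl => ?_
    rw [hP, Subgroup.mem_comap]
    refine Subgroup.subset_closure ⟨φ ⟨quo x u u', u, u', hl, rfl⟩, ?_⟩
    show π (φ.symm (φ _)).1 = _
    rw [Equiv.symm_apply_apply]
  obtain ⟨e, he⟩ := closure_central hsc (h1 hz)
  rw [← map_pw] at he
  refine ⟨e, (pw s e)⁻¹ * z, ?_, by rw [mul_inv_cancel_left]⟩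
  rw [hπ, QuotientGroup.mk'_apply, QuotientGroup.mk'_apply] at he
  exact QuotientGroup.eq.1 he.symm

/-- The elements of the group modulo a lower central term. -/
theorem bg {x : Option L → K} (hx : x none = 1) (hg : Subgroup.closure (Set.range x) = ⊤)
    (c : ℕ) : ∃ (m : ℕ) (t : Fin m → K), ∀ h : K, ∃ (q : Fin m → ℤ),
      ∃ z ∈ (⊤ : Subgroup K).lowerCentralSeries c, h = pw t q * z := by
  induction c with
  | zero =>
    refine ⟨0, Fin.elim0, fun h => ⟨Fin.elim0, h, Subgroup.mem_top h, ?_⟩⟩
    simp [pw]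
  | succ c ih =>
    obtain ⟨m, t, ht⟩ := ih
    obtain ⟨l, s, hs⟩ := lcs_pw hx hg c
    refine ⟨m + l, Fin.append t s, fun h => ?_⟩
    obtain ⟨q, z, hz, rfl⟩ := ht h
    obtain ⟨e, z', hz', rfl⟩ := hs z hz
    exact ⟨Fin.append q e, z', hz', by rw [pw_append, mul_assoc]⟩

end

end Pool.Agent.Helper69.LW
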