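import Mathlib

/-!
# Large classes of an equivalence relation
-/

set_option autoImplicit false

namespace Pool.Agent.Helper69.LW

open Finset

section
variable {α : Type*} [Fintype α] {R : α → α → Prop}

open Classical in
/-- If the classes are small outside a small set, then the union of the large classes is small. -/
theorem heavy_le (hR : Equivalence R) (B : α → Prop) {ε δ : ℝ} (hδ : 0 < δ)
    (hε : ∀ w, (#{w' | R w w' ∧ ¬ B w'} : ℝ) ≤ ε) :
    (#{w | δ ≤ (#{w' | R w w'} : ℝ)} : ℝ) ≤ #{w | B w} + ε / δ * Fintype.card α := by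
  set A : Finset α := univ.filter B with hA
  have hAm : ∀ w, w ∈ A ↔ B w := fun w => by rw [hA, mem_filter]; simp
  set H : Finset α := univ.filter fun w => δ ≤ (#{w' | R w w'} : ℝ) with hH
  have hcl : ∀ w w', R w w' → #{z | R w z} = #{z | R w' z} := by
    intro w w' h
    congr 1
    ext z
    simp only [mem_filter, mem_univ, true_and]
    exact ⟨fun h1 => hR.trans (hR.symm h) h1, fun h1 => hR.trans h h1⟩
  have hpos : ∀ w, (0 : ℝ) < (#{w' | R w w'} : ℝ) := by
    intro w
    have : 0 < #{w' | R w w'} := card_pos.2 ⟨w, mem_filter.2 ⟨mem_univ _, hR.refl w⟩⟩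
    exact_mod_cast this
  have h1 : (#H : ℝ) ≤ #A + #(H \ A) := by
    have : #H ≤ #A + #(H \ A) := by
      have h2 := card_le_card (show H ⊆ A ∪ (H \ A) from fun w hw => by
        rw [mem_union, mem_sdiff]
        by_cases h : w ∈ A
        · exact Or.inl h
        · exact Or.inr ⟨hw, h⟩)
      exact h2.trans (card_union_le _ _)
    exact_mod_cast this
  have h2 : (#(H \ A) : ℝ) = ∑ w' ∈ H, ∑ w ∈ (H \ A).filter (fun w => R w w'),
      1 / (#{z | R w' z} : ℝ) := by
    have e1 : (#(H \ A) : ℝ) = ∑ w ∈ H \ A, ∑ w' ∈ H.filter (fun w' => R w w'),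
        1 / (#{z | R w' z} : ℝ) := by
      rw [card_eq_sum_ones, Nat.cast_sum]
      refine sum_congr rfl fun w hw => ?_
      have hwH : w ∈ H := (mem_sdiff.1 hw).1
      have e2 : H.filter (fun w' => R w w') = univ.filter fun w' => R w w' := by
        ext w'
        simp only [mem_filter, mem_univ, true_and]
        refine ⟨fun h => h.2, fun h => ⟨?_, h⟩⟩
        rw [hH, mem_filter] at hwH ⊢
        refine ⟨mem_univ _, ?_⟩
        rw [← hcl w w' h]
        exact hwH.2
      rw [e2]
      have e3 : ∀ w' ∈ univ.filter (fun w' => R w w'), 1 / (#{z | R w' z} : ℝ) =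
          1 / (#{z | R w z} : ℝ) := by
        intro w' hw'
        rw [hcl w w' (mem_filter.1 hw').2]
      rw [sum_congr rfl e3, sum_const, nsmul_eq_mul, mul_one_div_cancel (hpos w).ne']
      simp
    rw [e1]
    simp only [sum_filter]
    rw [sum_comm]
  have h3 : ∀ w' ∈ H, ∑ w ∈ (H \ A).filter (fun w => R w w'), 1 / (#{z | R w' z} : ℝ) ≤ ε / δ := by
    intro w' hw'
    rw [sum_const, nsmul_eq_mul, mul_one_div]
    have h4 : (#((H \ A).filter fun w => R w w') : ℝ) ≤ ε := by
      refine le_trans ?_ (hε w')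
      have : #((H \ A).filter fun w => R w w') ≤ #{z | R w' z ∧ ¬ B z} := by
        refine card_le_card fun w hw => ?_
        rw [mem_filter, mem_sdiff, hAm] at hw
        exact mem_filter.2 ⟨mem_univ _, hR.symm hw.2, hw.1.2⟩
      exact_mod_cast this
    have h5 : δ ≤ (#{z | R w' z} : ℝ) := (mem_filter.1 hw').2
    have h6 : (0 : ℝ) ≤ #((H \ A).filter fun w => R w w') := Nat.cast_nonneg _
    calc (#((H \ A).filter fun w => R w w') : ℝ) / (#{z | R w' z} : ℝ)
        ≤ (#((H \ A).filter fun w => R w w') : ℝ) / δ := div_le_div_of_nonneg_left h6 hδ h5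
      _ ≤ ε / δ := div_le_div_of_nonneg_right h4 hδ.le
  have h7 : (#(H \ A) : ℝ) ≤ ε / δ * Fintype.card α := by
    rw [h2]
    refine (sum_le_card_nsmul _ _ _ h3).trans ?_
    rw [nsmul_eq_mul, mul_comm]
    rcases H.eq_empty_or_nonempty with he | ⟨w, hw⟩
    · rw [he]
      simp only [card_empty, Nat.cast_zero, mul_zero]
      rcases isEmpty_or_nonempty α with hα | ⟨⟨a⟩⟩
      · simp
      · have hε0 : 0 ≤ ε := (Nat.cast_nonneg _).trans (hε a)
        positivity
    · have hε0 : 0 ≤ ε := (Nat.cast_nonneg _).trans (hε w)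
      refine mul_le_mul_of_nonneg_left ?_ (by positivity)
      exact_mod_cast card_le_univ H
  linarith

open Classical in
/-- Small classes are many. -/
theorem classes_ge (hR : Equivalence R) (δ : ℝ) (hδ : 0 ≤ δ) :
    (#{w | (#{w' | R w w'} : ℝ) < δ} : ℝ) ≤ Nat.card (Quot R) * δ := by
  have : Fintype (Quot R) := Fintype.ofFinite _
  rw [Nat.card_eq_fintype_card]
  set T : Finset α := univ.filter fun w => (#{w' | R w w'} : ℝ) < δ with hT
  have h1 : #T = ∑ q : Quot R, #(T.filter fun w => Quot.mk R w = q) :=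
    card_eq_sum_card_fiberwise (fun w _ => mem_univ _)
  have h2 : ∀ q : Quot R, (#(T.filter fun w => Quot.mk R w = q) : ℝ) ≤ δ := by
    intro q
    rcases (T.filter fun w => Quot.mk R w = q).eq_empty_or_nonempty with he | ⟨w₀, hw₀⟩
    · rw [he, card_empty]
      simpa using hδ
    · obtain ⟨h3, h4⟩ := mem_filter.1 hw₀
      refine le_trans ?_ (mem_filter.1 h3).2.le
      have : #(T.filter fun w => Quot.mk R w = q) ≤ #{w' | R w₀ w'} := by
        refine card_le_card fun w hw => ?_
        obtain ⟨_, h6⟩ := mem_filter.1 hw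
        refine mem_filter.2 ⟨mem_univ _, ?_⟩
        rw [← h6] at h4
        have h7 := Quot.eqvGen_exact h4
        exact (hR.eqvGen_iff).1 h7
      exact_mod_cast this
  rw [h1]
  push_cast
  refine (sum_le_card_nsmul _ _ _ fun q _ => h2 q).trans ?_
  rw [card_univ, nsmul_eq_mul]

end

end Pool.Agent.Helper69.LW
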