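import Pool.Agent.Helper69.LW.Lev

/-!
# Functions of finite degree count subwords
-/

set_option autoImplicit false

namespace Pool.Agent.Helper69.LW

open Finset

section
variable {X : Type*} {K : Type*} [Group K] {A : Type*} [AddCommGroup A]

/-- The coefficient of a subword. -/
def cf (x : X → K) : (K → A) → List X → A
  | F, [] => F 1
  | F, z :: u => cf x (D (x z) F) u

theorem cf_zero (x : X → K) {n : ℕ} {F : K → A} (hF : Pol n F) (u : List X) (h : n ≤ u.length) :
    cf x F u = 0 := by
  induction u generalizing n F with
  | nil =>
    have : n = 0 := by simpa using h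
    subst this
    exact hF 1
  | cons z u ih =>
    show cf x (D (x z) F) u = 0
    cases n with
    | zero =>
      refine ih (n := 0) (fun p => ?_) (Nat.zero_le _)
      show F _ - F _ = 0
      rw [hF, hF, sub_zero]
    | succ n => exact ih (hF _) (by simpa using h)

theorem cf_sum (x : X → K) (F : K → A) (w : List X) :
    F ((w.map x).prod) = (w.sublists'.map (cf x F)).sum := by
  induction w generalizing F with
  | nil => simp [cf]
  | cons a l ih =>
    rw [List.sublists'_cons, List.map_append, List.sum_append, List.map_map, ← ih]
    have e : (cf x F ∘ List.cons a) = cf x (D (x a) F) := by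
      funext u
      rfl
    rw [e, ← ih, List.map_cons, List.prod_cons]
    show _ = F _ + (F _ - F _)
    abel

variable [DecidableEq X]

theorem count_sublists_le (w u : List X) : w.sublists'.count u ≤ (w.length + 1) ^ u.length := by
  induction w generalizing u with
  | nil =>
    rw [List.sublists'_nil]
    refine (List.count_le_length).trans ?_
    exact Nat.one_le_pow _ _ (by simp)
  | cons a l ih =>
    rw [List.sublists'_cons, List.count_append]
    cases u with
    | nil =>
      have h1 : (List.map (List.cons a) l.sublists').count [] = 0 := by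
        rw [List.count_eq_zero]
        intro h
        obtain ⟨v, _, hv⟩ := List.mem_map.1 h
        cases hv
      rw [h1]
      simpa using ih []
    | cons b u =>
      have h1 : (List.map (List.cons a) l.sublists').count (b :: u) ≤ l.sublists'.count u := by
        by_cases hab : a = b
        · subst hab
          rw [List.count_map_of_injective _ _ List.cons_injective]
        · have : (List.map (List.cons a) l.sublists').count (b :: u) = 0 := by
            rw [List.count_eq_zero]
            intro h
            obtain ⟨v, _, hv⟩ := List.mem_map.1 h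
            exact hab (List.cons.inj hv).1
          rw [this]
          exact Nat.zero_le _
      refine (Nat.add_le_add (ih _) (h1.trans (ih u))).trans ?_
      simp only [List.length_cons]
      rw [pow_succ, pow_succ]
      have h2 : (l.length + 1) ^ u.length ≤ (l.length + 1 + 1) ^ u.length :=
        Nat.pow_le_pow_left (Nat.le_succ _) _
      calc (l.length + 1) ^ u.length * (l.length + 1) + (l.length + 1) ^ u.length
          = (l.length + 1) ^ u.length * (l.length + 1 + 1) := by ring
        _ ≤ _ := Nat.mul_le_mul_right _ h2

variable [Finite X]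

variable (X) in
/-- The words of length at most `d`. -/
noncomputable def sw (d : ℕ) : Finset (List X) := (List.finite_length_le X d).toFinset

omit [DecidableEq X] in
theorem mem_sw {d : ℕ} {u : List X} : u ∈ sw X d ↔ u.length ≤ d := by
  unfold sw
  rw [Set.Finite.mem_toFinset]
  rfl

theorem val_stat (x : X → K) {d : ℕ} {F : K → A} (hF : Pol (d + 1) F) (w : List X) :
    F ((w.map x).prod) = ∑ u ∈ sw X d, w.sublists'.count u • cf x F u := by
  classical
  rw [cf_sum x F w, Finset.sum_list_map_count]
  have h1 : ∑ u ∈ sw X d, w.sublists'.count u • cf x F u =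
      ∑ u ∈ sw X d ∪ w.sublists'.toFinset, w.sublists'.count u • cf x F u := by
    refine sum_subset subset_union_left fun u _ hu => ?_
    rw [mem_sw, not_le] at hu
    rw [cf_zero x hF u hu, smul_zero]
  have h2 : ∑ u ∈ w.sublists'.toFinset, w.sublists'.count u • cf x F u =
      ∑ u ∈ sw X d ∪ w.sublists'.toFinset, w.sublists'.count u • cf x F u := by
    refine sum_subset subset_union_right fun u _ hu => ?_
    rw [List.mem_toFinset] at hu
    rw [List.count_eq_zero_of_not_mem hu, zero_smul]
  rw [h1]
  convert h2

theorem stt_lt (d N : ℕ) (w : Fin N → X) (u : sw X d) :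
    (List.ofFn w).sublists'.count u.1 < (N + 1) ^ d + 1 := by
  refine Nat.lt_succ_of_le ((count_sublists_le (List.ofFn w) u.1).trans ?_)
  rw [List.length_ofFn]
  exact Nat.pow_le_pow_right (Nat.succ_pos _) (mem_sw.1 u.2)

/-- The numbers of subwords. -/
noncomputable def stt (d N : ℕ) (w : Fin N → X) (u : sw X d) : Fin ((N + 1) ^ d + 1) :=
  ⟨(List.ofFn w).sublists'.count u.1, stt_lt d N w u⟩

theorem stt_eq (x : X → K) {d N : ℕ} {w w' : Fin N → X} (h : stt d N w = stt d N w') {F : K → A}
    (hF : Pol (d + 1) F) :
    F (((List.ofFn w).map x).prod) = F (((List.ofFn w').map x).prod) := by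
  rw [val_stat x hF, val_stat x hF]
  refine sum_congr rfl fun u hu => ?_
  have h1 := congrArg Fin.val (congrFun h ⟨u, hu⟩)
  have h2 : (List.ofFn w).sublists'.count u = (List.ofFn w').sublists'.count u := h1
  rw [h2]

/-- The number of classes of words is bounded by a polynomial. -/
theorem classes_le (d : ℕ) : ∃ C D : ℕ, ∀ (N : ℕ) (R : (Fin N → X) → (Fin N → X) → Prop),
    (∀ w w', stt d N w = stt d N w' → R w w') → Nat.card (Quot R) ≤ C * (N + 1) ^ D := by
  classical
  refine ⟨2 ^ (sw X d).card, d * (sw X d).card, fun N R h => ?_⟩
  have h1 : Nat.card (Quot R) ≤ Nat.card (sw X d → Fin ((N + 1) ^ d + 1)) := by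
    refine Nat.card_le_card_of_injective (fun q => stt d N q.out) fun q q' hq => ?_
    have h2 := Quot.sound (h _ _ hq)
    rwa [Quot.out_eq, Quot.out_eq] at h2
  rw [Nat.card_eq_fintype_card (α := sw X d → Fin ((N + 1) ^ d + 1)), Fintype.card_fun,
    Fintype.card_fin, Fintype.card_coe] at h1
  refine h1.trans ?_
  rw [pow_mul, ← mul_pow]
  refine Nat.pow_le_pow_left ?_ _
  have : 1 ≤ (N + 1) ^ d := Nat.one_le_pow _ _ (Nat.succ_pos _)
  omega

end

end Pool.Agent.Helper69.LW
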