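import Pool.Agent.Helper69.LW.Bridge
import Pool.Agent.Helper69.LW.GDefs
import Pool.Agent.Helper69.LW.Heavy
import Pool.Agent.Helper69.LW.Stat
import Pool.Agent.Helper69.LW.Gen

/-!
# The dichotomy
-/

set_option autoImplicit false

namespace Pool.Agent.Helper69.LW

open Finset Pool.Agent.Y466.FT Pool.Agent.Y466.RW Pool.Agent.Y466.LM

section
variable {G A : Type} [Group G] [AddCommGroup A]

/-- Functions of finite degree have vanishing alternating sums. -/
theorem Pol.altZ {n : ℕ} {f : G → A} (h : Pol n f) : AltZ n f := by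
  induction n generalizing f with
  | zero =>
    intro l φ hl
    have : l = [] := by simpa using hl
    subst this
    exact h φ
  | succ n ih =>
    intro l φ hl
    cases l with
    | nil => simp at hl
    | cons t l =>
      show alt f l φ - alt f l (φ * t) = 0
      have e : φ * t = (φ * t * φ⁻¹) * φ := by group
      have h1 : alt f l (φ * t) = alt (fun u => f ((φ * t * φ⁻¹) * u)) l φ := by
        rw [alt_left, ← e]
      rw [h1, ← neg_sub, ← alt_sub]
      have h2 := ih (h (φ * t * φ⁻¹)) l φ (by simpa using hl)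
      unfold D at h2
      rw [h2, neg_zero]

end

section
variable {L : Type} {g : ℕ} (W : Walk L g)

theorem same_refl {g : ℕ} (φ : MulAut (Fg g)) : Same φ φ := fun _ ⟨_, _, _, h⟩ => h rfl

theorem same_symm {g g' : ℕ} {φ : MulAut (Fg g)} {ψ : MulAut (Fg g')} (h : Same φ ψ) :
    Same ψ φ := fun n ⟨v, h1, h2, h3⟩ => h n ⟨v, h1, h2, h3.symm⟩

theorem same_iff {g g' : ℕ} {φ : MulAut (Fg g)} {ψ : MulAut (Fg g')} :
    Same φ ψ ↔ ∀ (v : ∀ g : ℕ, MulAut (Fg g) → ℚ) (n : ℕ), IsInvariant v → DegreeLE n v →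
      v g φ = v g' ψ := by
  constructor
  · intro h v n hv hn
    by_contra hcon
    exact h n ⟨v, hv, hn, hcon⟩
  · rintro h n ⟨v, hv, hn, hne⟩
    exact hne (h v n hv hn)

theorem same_trans {g g' g'' : ℕ} {φ : MulAut (Fg g)} {ψ : MulAut (Fg g')} {χ : MulAut (Fg g'')}
    (h : Same φ ψ) (h' : Same ψ χ) : Same φ χ := by
  rw [same_iff] at *
  intro v n hv hn
  rw [h v n hv hn, h' v n hv hn]

theorem same_equiv (N : ℕ) :
    Equivalence (fun w w' : Fin N → Option L => Same (W.at w) (W.at w')) :=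
  ⟨fun _ => same_refl _, fun h => same_symm h, fun h h' => same_trans h h'⟩

/-- The group generated by the letters. -/
abbrev HH : Subgroup (Fin W.k → Tor g) := Subgroup.closure (Set.range (letr W.x))

theorem grp_eq : grp W = HH W := (closure_letr W.x).symm

/-- The functions on the group given by the invariants. -/
def VV : Set (HH W → ℚ) :=
  {F | ∃ (v : ∀ g : ℕ, MulAut (Fg g) → ℚ) (n : ℕ), IsInvariant v ∧ DegreeLE n v ∧
    F = fun y : HH W => vf W v y}

theorem vv_pol : ∀ F ∈ VV W, ∃ n, Pol (n + 1) F := by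
  rintro _ ⟨v, n, _, hn, rfl⟩
  exact ⟨n, (pol_vf W hn).hom (HH W).subtype⟩

theorem at_pr {N : ℕ} (w : Fin N → Option L) (v : ∀ g : ℕ, MulAut (Fg g) → ℚ) :
    v g (W.at w) = (fun y : HH W => vf W v y) (pr (res (letr W.x)) w) := by
  show _ = vf W v ((pr (res (letr W.x)) w : HH W) : Fin W.k → Tor g)
  rw [pr_res, vf_at W v w]

theorem same_at {N N' : ℕ} {w : Fin N → Option L} {w' : Fin N' → Option L} :
    Same (W.at w) (W.at w') ↔
      ∀ F ∈ VV W, F (pr (res (letr W.x)) w) = F (pr (res (letr W.x)) w') := by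
  rw [same_iff]
  constructor
  · rintro h _ ⟨v, n, hv, hn, rfl⟩
    rw [← at_pr W w v, ← at_pr W w' v]
    exact h v n hv hn
  · intro h v n hv hn
    rw [at_pr W w v, at_pr W w' v]
    exact h _ ⟨v, n, hv, hn, rfl⟩

theorem put_eq (v : ∀ g : ℕ, MulAut (Fg g) → ℚ) (a : Fin W.k → Tor g) :
    v g (put W a) = vf W v a := rfl

theorem nilp_ker {c : ℕ} (h : Nilp W c) :
    ∀ F ∈ VV W, (⊤ : Subgroup (HH W)).lowerCentralSeries c ≤ Ker F := by
  rintro _ ⟨v, n, hv, hn, rfl⟩ y hy a b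
  have h1 : b⁻¹ * y * b ∈ (⊤ : Subgroup (HH W)).lowerCentralSeries c := by
    have := (inferInstance : ((⊤ : Subgroup (HH W)).lowerCentralSeries c).Normal).conj_mem y hy b⁻¹
    rwa [inv_inv] at this
  have h2 : ((b⁻¹ * y * b : HH W) : Fin W.k → Tor g) ∈ (grp W).lowerCentralSeries c := by
    rw [grp_eq, ← Subgroup.top_subtype_lowerCentralSeries]
    exact ⟨_, h1, rfl⟩
  have h3 := h ((a * b : HH W) : Fin W.k → Tor g) (by rw [grp_eq]; exact (a * b).2) _ h2
  rw [same_iff] at h3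
  have h4 : vf W v _ = vf W v _ := h3 v n hv hn
  show vf W v ((a * y * b : HH W) : Fin W.k → Tor g) = vf W v ((a * b : HH W) : Fin W.k → Tor g)
  rw [← h4, ← Subgroup.coe_mul]
  congr 2
  group

theorem ker_nilp {c : ℕ}
    (h : ∀ F ∈ VV W, (⊤ : Subgroup (HH W)).lowerCentralSeries c ≤ Ker F) : Nilp W c := by
  intro a ha y hy
  rw [grp_eq] at ha hy
  rw [← Subgroup.top_subtype_lowerCentralSeries] at hy
  obtain ⟨y', hy', rfl⟩ := hy
  rw [same_iff]
  intro v n hv hn
  have h1 := h _ ⟨v, n, hv, hn, rfl⟩ hy' ⟨a, ha⟩ 1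
  rw [mul_one, mul_one] at h1
  exact h1

end

section
variable {L : Type} [Fintype L] {g : ℕ} (W : Walk L g)

open Classical in
/-- **Most classes are small** if the group does not act through a nilpotent quotient. -/
theorem heavy (h : ∀ c, ¬ Nilp W c) (K : ℕ) : ∃ C : ℝ, ∀ N : ℕ,
    (#{w : Fin N → Option L | (Fintype.card (Option L) : ℝ) ^ N / (N + 1) ^ K ≤
      (#{w' : Fin N → Option L | Same (W.at w) (W.at w')} : ℝ)} : ℝ) ≤
      C / Real.sqrt (N + 1) * (Fintype.card (Option L) : ℝ) ^ N := by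
  set x := res (letr W.x) with hx
  have hx0 : x none = 1 := res_none rfl
  have hxg : Subgroup.closure (Set.range x) = ⊤ := res_top _
  have h1 : ∀ m, ∃ k > m, ∃ F ∈ VV W, ∃ n γ, Jmp x F n k γ :=
    exists_jmp hx0 hxg (vv_pol W) fun c => by
      by_contra hcon
      push Not at hcon
      exact h c (ker_nilp W hcon)
  obtain ⟨k, hk, hP⟩ := Nat.exists_strictMono_subsequence h1
  choose F hF n γ hJ using hP
  set r := 2 * K + 1 with hr
  obtain ⟨C₁, hC₁, hC₁'⟩ := gjumps F n k γ (r := r) (fun i _ => hJ i)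
    (fun i j hij _ => hk hij)
  set C₂ : ℝ := ∑ i ∈ range r, (n i : ℝ) *
    Real.sqrt (2 ^ n i * (Fintype.card (Option L) : ℝ) ^ 2 ^ n i) with hC₂
  have hX : (0 : ℝ) < Fintype.card (Option L) := by exact_mod_cast Fintype.card_pos
  refine ⟨C₂ + C₁, fun N => ?_⟩
  have hs : 0 < Real.sqrt ((N : ℝ) + 1) := Real.sqrt_pos.2 (by positivity)
  have hs2 : Real.sqrt ((N : ℝ) + 1) ^ 2 = N + 1 := Real.sq_sqrt (by positivity)
  have hXN : (0 : ℝ) < (Fintype.card (Option L) : ℝ) ^ N := pow_pos hX N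
  obtain ⟨B, hB⟩ : ∃ B : (Fin N → Option L) → Prop, ∀ w, B w ↔
      ∃ i < r, D (γ i) (F i) (pr x w) = 0 := ⟨_, fun _ => Iff.rfl⟩
  have hAc : (#{w | B w} : ℝ) ≤ C₂ / Real.sqrt (N + 1) * (Fintype.card (Option L) : ℝ) ^ N := by
    have h2 : (#{w | B w} : ℝ) ≤ ∑ i ∈ range r,
        (#{w : Fin N → Option L | D (γ i) (F i) (pr x w) = 0} : ℝ) := by
      have h3 : #{w | B w} ≤
          ∑ i ∈ range r, #{w : Fin N → Option L | D (γ i) (F i) (pr x w) = 0} := by
        refine (card_le_card fun w hw => ?_).trans card_biUnion_le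
        obtain ⟨i, hi, hw⟩ := (hB w).1 (mem_filter.1 hw).2
        exact mem_biUnion.2 ⟨i, mem_range.2 hi, mem_filter.2 ⟨mem_univ _, hw⟩⟩
      exact_mod_cast h3
    refine h2.trans ?_
    rw [hC₂, sum_div, sum_mul]
    refine sum_le_sum fun i _ => ?_
    refine ((hJ i).anti hx0 hxg N).trans (le_of_eq ?_)
    unfold rt
    rw [Real.sqrt_div (by positivity), mul_div_assoc]
  have hR := same_equiv W N
  have hε : ∀ w : Fin N → Option L, (#{w' : Fin N → Option L | Same (W.at w) (W.at w') ∧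
      ¬ B w'} : ℝ) ≤ C₁ / Real.sqrt (N + 1) ^ r * (Fintype.card (Option L) : ℝ) ^ N := by
    intro w
    refine le_trans ?_ (hC₁' (fun i => F i (pr x w)) N)
    have h2 : #{w' : Fin N → Option L | Same (W.at w) (W.at w') ∧ ¬ B w'} ≤
        #{w' : Fin N → Option L | ∀ i < r, gd (F i) (γ i) (F i (pr x w)) (pr x w')} := by
      refine card_le_card fun w' hw' => ?_
      obtain ⟨h3, h4⟩ := (mem_filter.1 hw').2
      refine mem_filter.2 ⟨mem_univ _, fun i hi => ⟨?_, fun h5 => ?_⟩⟩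
      · exact ((same_at W).1 h3 (F i) (hF i)).symm
      · exact h4 ((hB w').2 ⟨i, hi, h5⟩)
    exact_mod_cast h2
  have h5 := heavy_le hR B (δ := (Fintype.card (Option L) : ℝ) ^ N / (N + 1) ^ K)
    (by positivity) hε
  refine le_trans (Nat.cast_le.2 (card_le_card fun w hw => ?_)) (h5.trans ?_)
  · rw [mem_filter] at hw ⊢
    exact hw
  have hc : (Fintype.card (Fin N → Option L) : ℝ) = (Fintype.card (Option L) : ℝ) ^ N := by
    rw [Fintype.card_fun, Fintype.card_fin]; push_cast; rfl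
  rw [hc, add_div, add_mul]
  refine add_le_add hAc (le_of_eq ?_)
  congr 1
  rw [hr, pow_succ, pow_mul, hs2]
  field_simp

/-- The number of values of the LMO invariant grows faster than every polynomial. -/
theorem growth (h : ∀ c, ¬ Nilp W c) (K : ℕ) : ∃ N₀ : ℕ, ∀ N ≥ N₀, (N + 1) ^ K ≤ num W N := by
  classical
  obtain ⟨C, hC⟩ := heavy W h (K + 1)
  obtain ⟨N₀, hN₀⟩ := exists_nat_ge (4 * C ^ 2)
  refine ⟨N₀ + 1, fun N hN => ?_⟩
  have hX : (0 : ℝ) < Fintype.card (Option L) := by exact_mod_cast Fintype.card_pos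
  have hXN : (0 : ℝ) < (Fintype.card (Option L) : ℝ) ^ N := pow_pos hX N
  have hs : 0 < Real.sqrt ((N : ℝ) + 1) := Real.sqrt_pos.2 (by positivity)
  have hN' : (N₀ : ℝ) + 1 ≤ N := by exact_mod_cast hN
  have hC2 : C / Real.sqrt (N + 1) ≤ 1 / 2 := by
    rw [div_le_iff₀ hs]
    have h1 : |2 * C| ≤ Real.sqrt (N + 1) := by
      rw [← Real.sqrt_sq_eq_abs]
      exact Real.sqrt_le_sqrt (by nlinarith)
    have := le_abs_self (2 * C)
    linarith
  have hR := same_equiv W N
  have hδ : (0 : ℝ) < (Fintype.card (Option L) : ℝ) ^ N / (N + 1) ^ (K + 1) := by positivity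
  have h2 := classes_ge hR _ hδ.le
  have h3 : ((#{w : Fin N → Option L | (#{w' : Fin N → Option L | Same (W.at w) (W.at w')} : ℝ) <
      (Fintype.card (Option L) : ℝ) ^ N / (N + 1) ^ (K + 1)} : ℕ) : ℝ) +
      ((#{w : Fin N → Option L | (Fintype.card (Option L) : ℝ) ^ N / (N + 1) ^ (K + 1) ≤
        (#{w' : Fin N → Option L | Same (W.at w) (W.at w')} : ℝ)} : ℕ) : ℝ) =
      (Fintype.card (Option L) : ℝ) ^ N := by
    have h4 := card_filter_add_card_filter_not (s := (univ : Finset (Fin N → Option L)))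
      (fun w => (#{w' : Fin N → Option L | Same (W.at w) (W.at w')} : ℝ) <
        (Fintype.card (Option L) : ℝ) ^ N / (N + 1) ^ (K + 1))
    rw [card_univ, Fintype.card_fun, Fintype.card_fin] at h4
    simp only [not_lt] at h4
    exact_mod_cast h4
  have h5 := hC N
  have h6 : (Fintype.card (Option L) : ℝ) ^ N / 2 ≤
      Nat.card (Quot fun w w' : Fin N → Option L => Same (W.at w) (W.at w')) *
        ((Fintype.card (Option L) : ℝ) ^ N / (N + 1) ^ (K + 1)) := by
    have h7 := mul_le_mul_of_nonneg_right hC2 hXN.le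
    linarith
  have h8 : ((N : ℝ) + 1) ^ (K + 1) / 2 ≤ num W N := by
    have h9 : (0 : ℝ) < ((N : ℝ) + 1) ^ (K + 1) := by positivity
    unfold num
    rw [div_le_iff₀ (by norm_num)] at h6 ⊢
    rw [mul_assoc, div_mul_eq_mul_div, mul_div_assoc', le_div_iff₀ h9] at h6
    have h10 : (Fintype.card (Option L) : ℝ) ^ N * ((N : ℝ) + 1) ^ (K + 1) ≤
        (Fintype.card (Option L) : ℝ) ^ N * (Nat.card (Quot fun w w' : Fin N → Option L =>
          Same (W.at w) (W.at w')) * 2) := by linarith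
    exact le_of_mul_le_mul_left h10 hXN
  have h11 : ((N : ℝ) + 1) ^ K ≤ ((N : ℝ) + 1) ^ (K + 1) / 2 := by
    rw [pow_succ, le_div_iff₀ (by norm_num)]
    refine mul_le_mul_of_nonneg_left ?_ (by positivity)
    have : (0 : ℝ) ≤ N₀ := Nat.cast_nonneg _
    linarith
  exact_mod_cast h11.trans h8

/-- Polynomial growth if the invariants of bounded degree suffice. -/
theorem poly_growth {d : ℕ} (h : ∀ (N : ℕ) (w w' : Fin N → Option L),
    ¬ Separated d (W.at w) (W.at w') → Same (W.at w) (W.at w')) :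
    ∃ C D : ℕ, ∀ N, num W N ≤ C * (N + 1) ^ D := by
  classical
  obtain ⟨C, D, hCD⟩ := classes_le (X := Option L) d
  refine ⟨C, D, fun N => hCD N _ fun w w' hw => h N w w' ?_⟩
  rintro ⟨v, hv, hn, hne⟩
  apply hne
  rw [vf_at W v w, vf_at W v w']
  have h1 := stt_eq (letr W.x) hw (pol_vf W hn)
  have e : ∀ w : Fin N → Option L, pr (letr W.x) w = ((List.ofFn w).map (letr W.x)).prod := by
    intro w
    unfold pr
    rw [List.map_ofFn]
    rfl
  rw [e, e]
  exact h1

/-- If the group acts through a nilpotent quotient, then the invariants of bounded degree suffice. -/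
theorem nilp_degree {c : ℕ} (h : Nilp W c) : ∃ d, ∀ a ∈ grp W, ∀ b ∈ grp W, ∀ n,
    Separated n (put W a) (put W b) → Separated d (put W a) (put W b) := by
  classical
  set x := res (letr W.x) with hx
  have hx0 : x none = 1 := res_none rfl
  have hxg : Subgroup.closure (Set.range x) = ⊤ := res_top _
  obtain ⟨m, t, ht⟩ := bg hx0 hxg c
  have hker := nilp_ker W h
  -- the pairs of functions
  set V : ℕ → Set ((HH W → ℚ) × (HH W → ℚ)) := fun n => {p | ∃ v : ∀ g : ℕ, MulAut (Fg g) → ℚ,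
    IsInvariant v ∧ DegreeLE n v ∧ p = ((fun y : HH W => vf W v y), (fun y : HH W => vf W v y))}
    with hV
  have hmono : ∀ m n, m ≤ n → V m ⊆ V n := by
    rintro m n hmn p ⟨v, h1, h2, h3⟩
    exact ⟨v, h1, h2.mono hmn, h3⟩
  have hpd : ∀ n, ∀ p ∈ V n, PD (n + 1) (fun q => p.1 (fam 1 t 1 q)) := by
    rintro n _ ⟨v, _, hn, rfl⟩
    exact pd_fam ((pol_vf W hn).hom (HH W).subtype).altZ 1 t 1
  have hpd' : ∀ n, ∀ p ∈ V n, PD (n + 1) (fun q => p.2 (fam 1 t 1 q)) := by
    rintro n _ ⟨v, _, hn, rfl⟩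
    exact pd_fam ((pol_vf W hn).hom (HH W).subtype).altZ 1 t 1
  obtain ⟨d, _, hd⟩ := locus hmono hpd hpd'
  have hfam : ∀ q, fam 1 t 1 q = pw t q := by
    intro q
    unfold fam pw
    rw [one_mul]
    simp only [Pi.one_apply, mul_one]
  have hsp : ∀ (n : ℕ) (a b : HH W), Sp V n a b ↔ Separated n (put W a) (put W b) := by
    intro n a b
    constructor
    · rintro ⟨_, ⟨v, h1, h2, rfl⟩, h3⟩
      exact ⟨v, h1, h2, h3⟩
    · rintro ⟨v, h1, h2, h3⟩
      exact ⟨_, ⟨v, h1, h2, rfl⟩, h3⟩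
  refine ⟨d, fun a ha b hb n hs => ?_⟩
  rw [grp_eq] at ha hb
  obtain ⟨q, z, hz, hq⟩ := ht ⟨a, ha⟩
  obtain ⟨q', z', hz', hq'⟩ := ht ⟨b, hb⟩
  have hval : ∀ (v : ∀ g : ℕ, MulAut (Fg g) → ℚ) (n : ℕ), IsInvariant v → DegreeLE n v →
      vf W v a = vf W v (pw t q : HH W) ∧ vf W v b = vf W v (pw t q' : HH W) := by
    intro v n hv hn
    have h1 := hker _ ⟨v, n, hv, hn, rfl⟩ hz (pw t q) 1
    have h2 := hker _ ⟨v, n, hv, hn, rfl⟩ hz' (pw t q') 1
    rw [mul_one, mul_one] at h1 h2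
    rw [← hq] at h1
    rw [← hq'] at h2
    exact ⟨h1, h2⟩
  have hiff : ∀ n, Separated n (put W a) (put W b) ↔
      Separated n (put W (pw t q : HH W)) (put W (pw t q' : HH W)) := by
    intro n
    constructor
    · rintro ⟨v, h1, h2, h3⟩
      refine ⟨v, h1, h2, ?_⟩
      show vf W v _ ≠ vf W v _
      rw [← (hval v n h1 h2).1, ← (hval v n h1 h2).2]
      exact h3
    · rintro ⟨v, h1, h2, h3⟩
      refine ⟨v, h1, h2, ?_⟩
      show vf W v a ≠ vf W v b
      rw [(hval v n h1 h2).1, (hval v n h1 h2).2]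
      exact h3
  rw [hiff] at hs ⊢
  have h1 := (hd q q').2
  rw [hfam, hfam] at h1
  rw [← hsp] at hs ⊢
  exact h1.2 ⟨n, hs⟩

end

end Pool.Agent.Helper69.LW
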