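import Pool.Agent.Helper69.LW.Mom

/-!
# The top degree part of a function on random products
-/

set_option autoImplicit false

namespace Pool.Agent.Helper69.LW

open Finset

section
variable {α K : Type*} [Fintype α] [Group K]

/-- The sum of the kernel over the subwords of length `n`. -/
def J : ℕ → (List α → ℚ) → List α → ℚ
  | 0, h, _ => h []
  | _ + 1, _, [] => 0
  | n + 1, h, a :: l => J (n + 1) h l + J n (fun l' => h (a :: l')) l

omit [Fintype α] in
theorem J_zero (h : List α → ℚ) (l : List α) : J 0 h l = h [] := by
  cases l <;> rfl

omit [Fintype α] in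
theorem J_nil (n : ℕ) (h : List α → ℚ) : J (n + 1) h [] = 0 := rfl

omit [Fintype α] in
theorem J_cons (n : ℕ) (h : List α → ℚ) (a : α) (l : List α) :
    J (n + 1) h (a :: l) = J (n + 1) h l + J n (fun l' => h (a :: l')) l := rfl

theorem J_mean (n : ℕ) (h : α → List α → ℚ) (l : List α) :
    (Mean fun a => J n (h a) l) = J n (fun l' => Mean fun a => h a l') l := by
  induction l generalizing n h with
  | nil =>
    cases n with
    | zero => rfl
    | succ n =>
      simp only [J_nil]
      exact mean_zero
  | cons b l ih =>
    cases n with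
    | zero => simp only [J_zero]
    | succ n =>
      simp only [J_cons]
      rw [mean_add, ih, ih]

omit [Fintype α] in
theorem J_null (n : ℕ) (l : List α) : J n (fun _ => (0 : ℚ)) l = 0 := by
  induction l generalizing n with
  | nil => cases n <;> rfl
  | cons b l ih =>
    cases n with
    | zero => rfl
    | succ n =>
      rw [J_cons, ih, ih, add_zero]

/-- Centred kernels. -/
def Cen (h : List α → ℚ) : Prop := ∀ l l' : List α, (Mean fun a => h (l ++ a :: l')) = 0

theorem Cen.tail {h : List α → ℚ} (hh : Cen h) (a : α) : Cen fun l => h (a :: l) :=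
  fun l l' => hh (a :: l) l'

theorem Cen.mean_J {h : List α → ℚ} (hh : Cen h) (n : ℕ) (l : List α) :
    (Mean fun a => J n (fun l' => h (a :: l')) l) = 0 := by
  rw [J_mean]
  have : (fun l' => Mean fun a => h (a :: l')) = fun _ => 0 := by
    funext l'
    exact hh [] l'
  rw [this, J_null]

/-- The scalar product of kernels. -/
def ip (n : ℕ) (h h' : List α → ℚ) : ℚ := EL n fun l => h l * h' l

theorem ip_succ (n : ℕ) (h h' : List α → ℚ) :
    ip (n + 1) h h' = Mean fun a => ip n (fun l => h (a :: l)) (fun l => h' (a :: l)) := rfl

theorem D_add (g : K) (F : K → ℚ) (p : K) : F (g * p) = F p + D g F p := by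
  unfold D
  ring

/-- Functions of lower degree are orthogonal to the sums of centred kernels. -/
theorem orth [Nonempty α] (x : α → K) (N : ℕ) : ∀ {n : ℕ} {F : K → ℚ} {h : List α → ℚ}, Cen h →
    Pol n F → EL N (fun l => F (vl x l) * J n h l) = 0 := by
  induction N with
  | zero =>
    intro n F h hh hF
    show F _ * J n h [] = 0
    cases n with
    | zero => rw [hF, zero_mul]
    | succ n => rw [J_nil, mul_zero]
  | succ N ih =>
    intro n F h hh hF
    cases n with
    | zero =>
      have : (fun l => F (vl x l) * J 0 h l) = fun _ => 0 := by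
        funext l
        rw [hF, zero_mul]
      rw [this]
      exact EL_zero _
    | succ n =>
      show (Mean fun a => EL N fun l => F (vl x (a :: l)) * J (n + 1) h (a :: l)) = 0
      have e : ∀ a, (EL N fun l => F (vl x (a :: l)) * J (n + 1) h (a :: l)) =
          EL N (fun l => F (vl x l) * J n (fun l' => h (a :: l')) l) := by
        intro a
        have e1 : (fun l => F (vl x (a :: l)) * J (n + 1) h (a :: l)) = fun l =>
            (F (vl x l) * J (n + 1) h l + D (x a) F (vl x l) * J (n + 1) h l) +
            (F (vl x l) * J n (fun l' => h (a :: l')) l +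
              D (x a) F (vl x l) * J n (fun l' => h (a :: l')) l) := by
          funext l
          rw [vl_cons, J_cons, D_add (x a) F (vl x l)]
          ring
        rw [e1, EL_add, EL_add, EL_add, ih hh hF, ih hh (hF (x a)).succ,
          ih (hh.tail a) (hF (x a))]
        ring
      rw [show (Mean fun a => EL N fun l => F (vl x (a :: l)) * J (n + 1) h (a :: l)) =
        Mean fun a => EL N (fun l => F (vl x l) * J n (fun l' => h (a :: l')) l) from by
          congr 1; funext a; exact e a]
      rw [← EL_mean]
      simp only [mean_mul_left, hh.mean_J, mul_zero]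
      exact EL_zero N

/-- The differences by the letters. -/
def sg (x : α → K) : (K → ℚ) → List α → ℚ
  | F, [] => F 1
  | F, a :: l => sg x (D (x a) F) l

/-- The scalar product with the sum of a centred kernel. -/
theorem proj [Nonempty α] (x : α → K) (N : ℕ) : ∀ {n : ℕ} {F : K → ℚ} {h : List α → ℚ}, Cen h →
    Pol (n + 1) F → EL N (fun l => F (vl x l) * J n h l) = N.choose n * ip n (sg x F) h := by
  induction N with
  | zero =>
    intro n F h hh hF
    show F _ * J n h [] = _
    cases n with
    | zero =>
      rw [Nat.choose_zero_right, Nat.cast_one, one_mul]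
      show F _ * h [] = F 1 * h []
      rw [hF.const (vl x []) 1]
    | succ n => rw [J_nil, mul_zero, Nat.choose_zero_succ, Nat.cast_zero, zero_mul]
  | succ N ih =>
    intro n F h hh hF
    cases n with
    | zero =>
      rw [Nat.choose_zero_right, Nat.cast_one, one_mul]
      have : (fun l => F (vl x l) * J 0 h l) = fun _ => F 1 * h [] := by
        funext l
        rw [hF.const (vl x l) 1, J_zero]
      rw [this, EL_const]
      rfl
    | succ n =>
      show (Mean fun a => EL N fun l => F (vl x (a :: l)) * J (n + 1) h (a :: l)) = _
      have e : ∀ a, (EL N fun l => F (vl x (a :: l)) * J (n + 1) h (a :: l)) =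
          (N.choose (n + 1) * ip (n + 1) (sg x F) h +
          N.choose n * ip n (sg x (D (x a) F)) (fun l' => h (a :: l'))) +
          EL N (fun l => F (vl x l) * J n (fun l' => h (a :: l')) l) := by
        intro a
        have e1 : (fun l => F (vl x (a :: l)) * J (n + 1) h (a :: l)) = fun l =>
            (F (vl x l) * J (n + 1) h l + D (x a) F (vl x l) * J (n + 1) h l) +
            (F (vl x l) * J n (fun l' => h (a :: l')) l +
              D (x a) F (vl x l) * J n (fun l' => h (a :: l')) l) := by
          funext l
          rw [vl_cons, J_cons, D_add (x a) F (vl x l)]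
          ring
        rw [e1, EL_add, EL_add, EL_add, ih hh hF, orth x N hh (hF (x a)),
          ih (hh.tail a) (hF (x a))]
        ring
      rw [show (Mean fun a => EL N fun l => F (vl x (a :: l)) * J (n + 1) h (a :: l)) =
        Mean fun a => (N.choose (n + 1) * ip (n + 1) (sg x F) h +
          N.choose n * ip n (sg x (D (x a) F)) (fun l' => h (a :: l'))) +
          EL N (fun l => F (vl x l) * J n (fun l' => h (a :: l')) l) from by
          congr 1; funext a; exact e a]
      rw [mean_add, ← EL_mean]
      simp only [mean_mul_left, hh.mean_J, mul_zero]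
      rw [EL_zero, add_zero, mean_add, mean_const, mean_mul_left, Nat.choose_succ_succ]
      have e2 : (Mean fun a => ip n (sg x (D (x a) F)) fun l' => h (a :: l')) =
          ip (n + 1) (sg x F) h := rfl
      rw [e2]
      push_cast
      ring

/-- The second moment of the sum of a centred kernel. -/
theorem J_sq [Nonempty α] (N : ℕ) : ∀ {n : ℕ} {h : List α → ℚ}, Cen h →
    EL N (fun l => J n h l ^ 2) = N.choose n * ip n h h := by
  induction N with
  | zero =>
    intro n h hh
    show J n h [] ^ 2 = _
    cases n with
    | zero =>
      rw [Nat.choose_zero_right, Nat.cast_one, one_mul]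
      show h [] ^ 2 = h [] * h []
      ring
    | succ n => rw [J_nil, Nat.choose_zero_succ, Nat.cast_zero, zero_mul]; ring
  | succ N ih =>
    intro n h hh
    cases n with
    | zero =>
      rw [Nat.choose_zero_right, Nat.cast_one, one_mul]
      have : (fun l => J 0 h l ^ 2) = fun _ => h [] ^ 2 := by
        funext l
        rw [J_zero]
      rw [this, EL_const]
      show h [] ^ 2 = h [] * h []
      ring
    | succ n =>
      show (Mean fun a => EL N fun l => J (n + 1) h (a :: l) ^ 2) = _
      have e : ∀ a, (EL N fun l => J (n + 1) h (a :: l) ^ 2) =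
          (N.choose (n + 1) * ip (n + 1) h h +
          N.choose n * ip n (fun l' => h (a :: l')) (fun l' => h (a :: l'))) +
          2 * EL N (fun l => J (n + 1) h l * J n (fun l' => h (a :: l')) l) := by
        intro a
        have e1 : (fun l => J (n + 1) h (a :: l) ^ 2) = fun l =>
            (J (n + 1) h l ^ 2 + J n (fun l' => h (a :: l')) l ^ 2) +
            2 * (J (n + 1) h l * J n (fun l' => h (a :: l')) l) := by
          funext l
          rw [J_cons]
          ring
        rw [e1, EL_add, EL_add, EL_mul_left, ih hh, ih (hh.tail a)]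
      rw [show (Mean fun a => EL N fun l => J (n + 1) h (a :: l) ^ 2) =
        Mean fun a => (N.choose (n + 1) * ip (n + 1) h h +
          N.choose n * ip n (fun l' => h (a :: l')) (fun l' => h (a :: l'))) +
          2 * EL N (fun l => J (n + 1) h l * J n (fun l' => h (a :: l')) l) from by
          congr 1; funext a; exact e a]
      rw [mean_add, mean_mul_left, ← EL_mean]
      simp only [mean_mul_left, hh.mean_J, mul_zero]
      rw [EL_zero, mul_zero, add_zero, mean_add, mean_const, mean_mul_left, Nat.choose_succ_succ,
        ← ip_succ]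
      push_cast
      ring

/-- The centred kernel. -/
def ce : List α → (List α → ℚ) → ℚ
  | [], k => k []
  | a :: l, k => ce l (fun l' => k (a :: l')) - Mean fun b => ce l (fun l' => k (b :: l'))

theorem ce_cons (a : α) (l : List α) (k : List α → ℚ) :
    ce (a :: l) k = ce l (fun l' => k (a :: l')) - Mean fun b => ce l (fun l' => k (b :: l')) := rfl

theorem cen_ce [Nonempty α] (k : List α → ℚ) : Cen fun l => ce l k := by
  intro l
  induction l generalizing k with
  | nil =>
    intro l'
    show (Mean fun a => ce (a :: l') k) = 0
    simp only [ce_cons]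
    rw [mean_sub, mean_const, sub_self]
  | cons c l ih =>
    intro l'
    show (Mean fun a => ce (c :: (l ++ a :: l')) k) = 0
    simp only [ce_cons]
    rw [mean_sub, ih, mean_comm]
    simp only [ih]
    rw [mean_zero, sub_zero]

theorem ip_ce [Nonempty α] (n : ℕ) : ∀ {k h : List α → ℚ}, Cen h →
    ip n (fun l => ce l k) h = ip n k h := by
  induction n with
  | zero => intro k h _; rfl
  | succ n ih =>
    intro k h hh
    rw [ip_succ, ip_succ]
    have e : ∀ a, ip n (fun l => ce (a :: l) k) (fun l => h (a :: l)) =
        ip n (fun l => k (a :: l)) (fun l => h (a :: l)) -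
        EL n (fun l => (Mean fun b => ce l (fun l' => k (b :: l'))) * h (a :: l)) := by
      intro a
      rw [← ih (k := fun l => k (a :: l)) (hh.tail a)]
      unfold ip
      rw [← EL_sub]
      congr 1
      funext l
      show ce (a :: l) k * h (a :: l) = ce l (fun l => k (a :: l)) * h (a :: l) - _
      rw [ce_cons]
      ring
    rw [show (Mean fun a => ip n (fun l => ce (a :: l) k) (fun l => h (a :: l))) = Mean fun a =>
        ip n (fun l => k (a :: l)) (fun l => h (a :: l)) -
        EL n (fun l => (Mean fun b => ce l (fun l' => k (b :: l'))) * h (a :: l)) from by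
          congr 1; funext a; exact e a]
    rw [mean_sub, ← EL_mean]
    simp only [mean_mul_left]
    have : ∀ l, (Mean fun a => h (a :: l)) = 0 := fun l => hh [] l
    simp only [this, mul_zero]
    rw [EL_zero, sub_zero]

theorem ip_nonneg (n : ℕ) (h : List α → ℚ) : 0 ≤ ip n h h :=
  EL_nonneg fun _ => mul_self_nonneg _

theorem ip_eq_zero (n : ℕ) : ∀ {h : List α → ℚ}, ip n h h = 0 → ∀ l : List α, l.length = n →
    h l = 0 := by
  induction n with
  | zero =>
    intro h h0 l hl
    rw [List.length_eq_zero_iff] at hl
    subst hl
    exact mul_self_eq_zero.1 h0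
  | succ n ih =>
    intro h h0 l hl
    rcases l with _ | ⟨a, l⟩
    · simp at hl
    · rw [ip_succ] at h0
      have h1 := mean_eq_zero (fun a => ip_nonneg n fun l => h (a :: l)) h0 a
      exact ih h1 l (by simpa using hl)

theorem ce_null (l : List α) : ce l (fun _ => (0 : ℚ)) = 0 := by
  induction l with
  | nil => rfl
  | cons a l ih =>
    rw [ce_cons, ih, mean_zero, sub_zero]

/-- A kernel which vanishes on the words with the letter `o` is determined by the centred
kernel. -/
theorem ce_eq_zero {o : α} (n : ℕ) : ∀ {k : List α → ℚ}, (∀ l, o ∈ l → k l = 0) →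
    (∀ l : List α, l.length = n → ce l k = 0) → ∀ l : List α, l.length = n → k l = 0 := by
  induction n with
  | zero =>
    intro k _ h l hl
    have := h l hl
    rw [List.length_eq_zero_iff] at hl
    subst hl
    exact this
  | succ n ih =>
    intro k ho h l hl
    rcases l with _ | ⟨a, l⟩
    · simp at hl
    · have h1 : ∀ l : List α, l.length = n → (Mean fun b => ce l (fun l' => k (b :: l'))) = 0 := by
        intro l hl
        have h2 := h (o :: l) (by simp [hl])
        rw [ce_cons] at h2
        have h3 : (fun l' => k (o :: l')) = fun _ => 0 := by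
          funext l'
          exact ho _ List.mem_cons_self
        rw [h3, ce_null, zero_sub, neg_eq_zero] at h2
        exact h2
      refine ih (k := fun l' => k (a :: l')) (fun l' hl' => ho _ (List.mem_cons_of_mem _ hl'))
        (fun l' hl' => ?_) l (by simpa using hl)
      have h2 := h (a :: l') (by simp [hl'])
      rw [ce_cons, h1 l' hl', sub_zero] at h2
      exact h2

omit [Fintype α] in
theorem sg_null (x : α → K) (l : List α) : sg x (fun _ => (0 : ℚ)) l = 0 := by
  induction l with
  | nil => rfl
  | cons a l ih =>
    show sg x (D (x a) fun _ => (0 : ℚ)) l = 0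
    have : D (x a) (fun _ => (0 : ℚ)) = fun _ => 0 := by
      funext p
      simp [D]
    rw [this, ih]

omit [Fintype α] in
theorem sg_mem {x : α → K} {o : α} (ho : x o = 1) (l : List α) : ∀ (F : K → ℚ), o ∈ l →
    sg x F l = 0 := by
  induction l with
  | nil => intro F h; simp at h
  | cons a l ih =>
    intro F h
    show sg x (D (x a) F) l = 0
    rcases List.mem_cons.1 h with rfl | h
    · have : D (x o) F = fun _ => 0 := by
        funext p
        simp [D, ho]
      rw [this, sg_null]
    · exact ih _ h

/-- **The top degree part.** -/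
theorem top_bound {x : α → K} {o : α} (ho : x o = 1) {n : ℕ} {F : K → ℚ} (hF : Pol (n + 1) F)
    {l : List α} (hl : l.length = n) (h0 : sg x F l ≠ 0) :
    ∃ κ : ℚ, 0 < κ ∧ ∀ (G : K → ℚ), Pol n G → ∀ N : ℕ,
      κ * N.choose n ≤ EP x N fun p => (F p - G p) ^ 2 := by
  have : Nonempty α := ⟨o⟩
  set h : List α → ℚ := fun l => ce l (sg x F) with hh
  have hc : Cen h := cen_ce _
  set κ := ip n h h with hκ
  have hκ0 : 0 < κ := by
    refine lt_of_le_of_ne (ip_nonneg n h) fun h1 => h0 ?_
    exact ce_eq_zero n (fun l hl => sg_mem ho l F hl) (fun l hl => ip_eq_zero n h1.symm l hl) l hl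
  refine ⟨κ, hκ0, fun G hG N => ?_⟩
  have h1 : EL N (fun l => (F (vl x l) - G (vl x l)) * J n h l) = N.choose n * κ := by
    have e : (fun l => (F (vl x l) - G (vl x l)) * J n h l) = fun l =>
        F (vl x l) * J n h l - G (vl x l) * J n h l := by
      funext l
      ring
    rw [e, EL_sub, proj x N hc hF, orth x N hc hG, sub_zero, ← ip_ce n hc]
  have h2 := EL_cs N (fun l => F (vl x l) - G (vl x l)) (J n h)
  rw [h1, J_sq N hc] at h2
  rcases eq_or_ne (N.choose n) 0 with h3 | h3
  · rw [h3]
    simp only [Nat.cast_zero, mul_zero]
    exact EL_nonneg fun l => by positivity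
  · have h4 : (0 : ℚ) < N.choose n * κ := mul_pos (by exact_mod_cast Nat.pos_of_ne_zero h3) hκ0
    show κ * N.choose n ≤ EL N fun l => (F (vl x l) - G (vl x l)) ^ 2
    rw [sq] at h2
    have := le_of_mul_le_mul_right h2 h4
    linarith

end

end Pool.Agent.Helper69.LW
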