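import Pool.Agent.Helper69.LW.Hyp
import Pool.Agent.Helper69.LW.Top

/-!
# Functions of exact degree on random products
-/

set_option autoImplicit false

namespace Pool.Agent.Helper69.LW

open Finset Polynomial

section
variable {α K : Type*} [Group K]

/-- The elements whose differences have degree less than `m`. -/
def stepS (m : ℕ) (F : K → ℚ) : Subgroup K where
  carrier := {c | Pol m (D c F)}
  mul_mem' := by
    intro c d hc hd
    have e : D (c * d) F = fun p => D c F (d * p) + D d F p := by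
      funext p
      simp [D, mul_assoc]
    show Pol m (D (c * d) F)
    rw [e]
    exact (Pol.left hc d).add hd
  one_mem' := by
    have e : D (1 : K) F = fun _ => 0 := by
      funext p
      simp [D]
    show Pol m (D 1 F)
    rw [e]
    exact Pol.zero m
  inv_mem' := by
    intro c hc
    have e : D c⁻¹ F = fun p => - D c F (c⁻¹ * p) := by
      funext p
      simp [D]
    show Pol m (D c⁻¹ F)
    rw [e]
    exact (Pol.left hc _).neg

/-- A function with vanishing top differences by the letters has smaller degree. -/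
theorem Pol.of_sg {x : α → K} (hx : Subgroup.closure (Set.range x) = ⊤) (m : ℕ) :
    ∀ {F : K → ℚ}, Pol (m + 1) F → (∀ l : List α, l.length = m → sg x F l = 0) → Pol m F := by
  induction m with
  | zero =>
    intro F hF h p
    have h1 := h [] rfl
    rw [hF.const p 1]
    exact h1
  | succ m ih =>
    intro F hF h g
    have h1 : Set.range x ⊆ stepS m F := by
      rintro _ ⟨a, rfl⟩
      exact ih (hF (x a)) fun l hl => h (a :: l) (by simp [hl])
    have h2 : (⊤ : Subgroup K) ≤ stepS m F := by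
      rw [← hx, Subgroup.closure_le]
      exact h1
    exact h2 (Subgroup.mem_top g)

variable [Fintype α]

theorem EL_congr {N : ℕ} {f g : List α → ℚ} (h : ∀ l : List α, l.length = N → f l = g l) :
    EL N f = EL N g := by
  rw [EL_eq, EL_eq]
  congr 1
  funext w
  exact h _ (List.length_ofFn)

open Classical in
/-- Functions of degree at most `n` which do not vanish on the words of length `N` do not vanish on
many of them. -/
theorem nonvanish [Nonempty α] (x : α → K) (N : ℕ) : ∀ {n : ℕ} {F : K → ℚ}, Pol (n + 1) F →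
    ∀ {l₀ : List α}, l₀.length = N → F (vl x l₀) ≠ 0 →
    1 / (Fintype.card α : ℚ) ^ n ≤ EL N fun l => if F (vl x l) ≠ 0 then (1 : ℚ) else 0 := by
  have hr : (1 : ℚ) ≤ Fintype.card α := by exact_mod_cast Fintype.card_pos
  have hr0 : (0 : ℚ) < Fintype.card α := by linarith
  have hle : ∀ n : ℕ, 1 / (Fintype.card α : ℚ) ^ n ≤ 1 := fun n => by
    rw [div_le_one (by positivity)]
    exact one_le_pow₀ hr
  induction N with
  | zero =>
    intro n F _ l₀ hl₀ h0
    rw [List.length_eq_zero_iff] at hl₀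
    subst hl₀
    show _ ≤ if F (vl x []) ≠ 0 then (1 : ℚ) else 0
    rw [if_pos h0]
    exact hle n
  | succ N ih =>
    intro n F hF l₀ hl₀ h0
    rcases n with _ | n
    · have h1 : (fun l => if F (vl x l) ≠ 0 then (1 : ℚ) else 0) = fun _ => 1 := by
        funext l
        rw [if_pos]
        rw [hF.const (vl x l) (vl x l₀)]
        exact h0
      rw [h1, EL_const]
      exact hle 0
    rcases l₀ with _ | ⟨b, l₀⟩
    · simp at hl₀
    have hl₀' : l₀.length = N := by simpa using hl₀
    show _ ≤ Mean fun a => EL N fun l => if F (vl x (a :: l)) ≠ 0 then (1 : ℚ) else 0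
    simp only [vl_cons]
    by_cases hc : ∀ a, ∃ l : List α, l.length = N ∧ F (x a * vl x l) ≠ 0
    · have h1 : ∀ a, 1 / (Fintype.card α : ℚ) ^ (n + 1) ≤
          EL N fun l => if F (x a * vl x l) ≠ 0 then (1 : ℚ) else 0 := by
        intro a
        obtain ⟨l, hl, hne⟩ := hc a
        exact ih (F := fun p => F (x a * p)) (hF.left (x a)) hl hne
      have h2 := mean_mono h1
      rwa [mean_const] at h2
    · push Not at hc
      obtain ⟨a₀, ha₀⟩ := hc
      set G : K → ℚ := fun p => F (x b * p) - F (x a₀ * p) with hG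
      have hGp : Pol (n + 1) G := by
        have h1 := (hF (x b)).sub (hF (x a₀))
        have e : G = fun p => D (x b) F p - D (x a₀) F p := by
          funext p
          simp only [hG, D]
          ring
        rw [e]
        exact h1
      have hGe : ∀ l : List α, l.length = N → G (vl x l) = F (x b * vl x l) := by
        intro l hl
        simp only [hG]
        rw [ha₀ l hl, sub_zero]
      have h2 := ih hGp hl₀' (by
        rw [hGe l₀ hl₀', ← vl_cons]
        exact h0)
      have h3 : (EL N fun l => if G (vl x l) ≠ 0 then (1 : ℚ) else 0) =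
          EL N fun l => if F (x b * vl x l) ≠ 0 then (1 : ℚ) else 0 :=
        EL_congr fun l hl => by rw [hGe l hl]
      rw [h3] at h2
      unfold Mean
      rw [pow_succ, ← div_div]
      refine div_le_div_of_nonneg_right (h2.trans ?_) hr0.le
      exact single_le_sum (f := fun a => EL N fun l => if F (x a * vl x l) ≠ 0 then (1 : ℚ) else 0)
        (fun a _ => EL_nonneg fun l => by split_ifs <;> norm_num) (mem_univ b)

/-- Binomial coefficients. -/
theorem choose_ge {m N : ℕ} (hm : 0 < m) (h : m ≤ N) :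
    (N : ℚ) ^ m / ((m : ℚ) ^ m * m.factorial) ≤ N.choose m := by
  have h1 : ((N + 1 - m) ^ m : ℕ) ≤ N.descFactorial m := Nat.pow_sub_le_descFactorial N m
  have h2 : (N : ℚ) ≤ m * ((N + 1 - m : ℕ) : ℚ) := by
    have : N ≤ m * (N + 1 - m) := by
      obtain ⟨d, rfl⟩ := Nat.exists_eq_add_of_le h
      rw [show m + d + 1 - m = d + 1 by omega]
      nlinarith
    exact_mod_cast this
  have h3 : (N : ℚ) ^ m ≤ (m : ℚ) ^ m * N.descFactorial m := by
    calc (N : ℚ) ^ m ≤ (m * ((N + 1 - m : ℕ) : ℚ)) ^ m := pow_le_pow_left₀ (by positivity) h2 m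
      _ = (m : ℚ) ^ m * (((N + 1 - m) ^ m : ℕ) : ℚ) := by rw [mul_pow]; push_cast; ring
      _ ≤ _ := mul_le_mul_of_nonneg_left (by exact_mod_cast h1) (by positivity)
  have h4 : (0 : ℚ) < m := by exact_mod_cast hm
  rw [div_le_iff₀ (by positivity)]
  refine h3.trans (le_of_eq ?_)
  rw [Nat.descFactorial_eq_factorial_mul_choose]
  push_cast
  ring

open Classical in
/-- **Fluctuations.** -/
theorem fluct {x : α → K} (hx : Subgroup.closure (Set.range x) = ⊤) {o : α} (ho : x o = 1)
    {m : ℕ} {F : K → ℚ} (hF : Pol (m + 2) F) (hF' : ¬ Pol (m + 1) F) :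
    ∃ δ : ℚ, 0 < δ ∧ ∀ G : K → ℚ, Pol (m + 1) G → ∀ N : ℕ, m + 1 ≤ N →
      δ ≤ EP x N fun p => if δ * (N : ℚ) ^ (m + 1) ≤ (F p - G p) ^ 2 then (1 : ℚ) else 0 := by
  have : Nonempty α := ⟨o⟩
  obtain ⟨l, hl, hne⟩ : ∃ l : List α, l.length = m + 1 ∧ sg x F l ≠ 0 := by
    by_contra hcon
    push Not at hcon
    exact hF' (hF.of_sg hx (m + 1) hcon)
  obtain ⟨κ, hκ, hb⟩ := top_bound ho hF hl hne
  set B : ℚ := ((m + 1 : ℕ) : ℚ) ^ (m + 1) * (m + 1).factorial with hB
  have hB0 : 0 < B := by positivity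
  have hk := kc_pos (α := α)
  refine ⟨min (κ / (2 * B)) (1 / (4 * kc α ^ (m + 1))), lt_min (by positivity) (by positivity),
    fun G hG N hN => ?_⟩
  set δ := min (κ / (2 * B)) (1 / (4 * kc α ^ (m + 1))) with hδ
  have h1 : κ * ((N : ℚ) ^ (m + 1) / B) ≤ EP x N fun p => (F p - G p) ^ 2 :=
    (mul_le_mul_of_nonneg_left (choose_ge (Nat.succ_pos m) hN) hκ.le).trans (hb G hG N)
  have hN0 : (0 : ℚ) < N := by exact_mod_cast (by omega : 0 < N)
  have h2 : 0 < EP x N fun p => (F p - G p) ^ 2 := lt_of_lt_of_le (by positivity) h1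
  have h4 := hyper x N (n := m + 1) (hF.sub hG.succ)
  unfold EP at h2 h4
  rw [EL_eq] at h2
  rw [EL_eq, EL_eq] at h4
  have h5 := paley (C := kc α ^ (m + 1)) (θ := 1 / 2) (by positivity) h4 h2 (by norm_num)
    (by norm_num)
  unfold EP at h1 ⊢
  rw [EL_eq] at h1 ⊢
  have h6 : δ ≤ (1 - 1 / 2) ^ 2 / kc α ^ (m + 1) := by
    refine (min_le_right _ _).trans (le_of_eq ?_)
    field_simp
    norm_num
  refine h6.trans (h5.trans (mean_mono fun w => ?_))
  beta_reduce
  split_ifs with h7 h8 h8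
  · exact le_rfl
  · exfalso
    apply h8
    have h9 : δ * (N : ℚ) ^ (m + 1) ≤ κ / (2 * B) * (N : ℚ) ^ (m + 1) :=
      mul_le_mul_of_nonneg_right (min_le_left _ _) (by positivity)
    have h10 : κ / (2 * B) * (N : ℚ) ^ (m + 1) = 1 / 2 * (κ * ((N : ℚ) ^ (m + 1) / B)) := by
      field_simp
    linarith
  · norm_num
  · exact le_rfl

/-- A polynomial is bounded by the power of its degree. -/
theorem poly_le {P : ℚ[X]} {d : ℕ} (h : P.natDegree ≤ d) :
    ∃ C : ℚ, 0 ≤ C ∧ ∀ N : ℕ, 0 < N → P.eval (N : ℚ) ≤ C * (N : ℚ) ^ d := by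
  refine ⟨∑ i ∈ range (d + 1), |P.coeff i|, sum_nonneg fun i _ => abs_nonneg _, fun N hN => ?_⟩
  rw [eval_eq_sum_range' (Nat.lt_succ_of_le h), sum_mul]
  refine sum_le_sum fun i hi => ?_
  have h1 : (1 : ℚ) ≤ N := by exact_mod_cast hN
  have h2 : (N : ℚ) ^ i ≤ (N : ℚ) ^ d := pow_le_pow_right₀ h1 (by rw [mem_range] at hi; omega)
  calc P.coeff i * (N : ℚ) ^ i ≤ |P.coeff i| * (N : ℚ) ^ i :=
        mul_le_mul_of_nonneg_right (le_abs_self _) (by positivity)
    _ ≤ _ := mul_le_mul_of_nonneg_left h2 (abs_nonneg _)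

open Classical in
/-- **Tails** for symmetric steps. -/
theorem tail_sym [Nonempty α] {x : α → K} {ι : α → α} (hι : Function.Involutive ι)
    (hx : ∀ a, x (ι a) = (x a)⁻¹) {m : ℕ} {F : K → ℚ} (hF : Pol (m + 1) F) (k : ℕ) :
    ∃ C : ℚ, 0 ≤ C ∧ ∀ N : ℕ, 0 < N → ∀ t : ℚ, 0 < t →
      (EP x N fun p => if t * (N : ℚ) ^ m ≤ F p ^ 2 then (1 : ℚ) else 0) ≤ C / t ^ k := by
  obtain ⟨P, hP, h1⟩ := EP_poly_sym hι hx (hF.pow (2 * k))
  obtain ⟨C, hC, h2⟩ := poly_le (d := k * m) (hP.trans (by
    rw [mul_assoc]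
    omega))
  refine ⟨C, hC, fun N hN t ht => ?_⟩
  have hN0 : (0 : ℚ) < N := by exact_mod_cast hN
  rw [le_div_iff₀ (by positivity)]
  have h3 : (EP x N fun p => if t * (N : ℚ) ^ m ≤ F p ^ 2 then (1 : ℚ) else 0) *
      (t * (N : ℚ) ^ m) ^ k ≤ EP x N fun p => F p ^ (2 * k) := by
    unfold EP
    rw [mul_comm, ← EL_mul_left]
    refine EL_mono fun l => ?_
    beta_reduce
    split_ifs with h
    · rw [mul_one, pow_mul]
      exact pow_le_pow_left₀ (by positivity) h k
    · rw [mul_zero, pow_mul]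
      positivity
  have h4 := h3.trans ((h1 N).le.trans (h2 N hN))
  rw [mul_pow, ← pow_mul, mul_comm m k, ← mul_assoc] at h4
  exact le_of_mul_le_mul_right h4 (by positivity)

end

end Pool.Agent.Helper69.LW
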