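import Pool.Agent.Helper69.LW.Dich

/-!
# The dichotomy: assembly
-/

set_option autoImplicit false

namespace Pool.Agent.Helper69.LW

open Finset Pool.Agent.Y466.FT Pool.Agent.Y466.RW Pool.Agent.Y466.LM

section
variable {L : Type} [Fintype L] {g : ℕ} (W : Walk L g)

omit [Fintype L] in
theorem at_mem {N : ℕ} (w : Fin N → Option L) : ∃ a ∈ grp W, W.at w = put W a := by
  refine ⟨pr (letr W.x) w, ?_, at_ins W w⟩
  rw [grp_eq, ← pr_res]
  exact (pr (res (letr W.x)) w).2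

theorem heavy_prob (h : ∀ c, ¬ Nilp W c) (K : ℕ) : ∃ C : ℝ, ∀ N : ℕ,
    Prob (fun w : Fin N → Option L => 1 / ((N : ℝ) + 1) ^ K ≤ cp W w) ≤ C / Real.sqrt (N + 1) := by
  classical
  obtain ⟨C, hC⟩ := heavy W h K
  refine ⟨C, fun N => Prob_le (le_trans (Nat.cast_le.2 (card_le_card fun w hw => ?_)) (hC N))⟩
  rw [mem_filter] at hw ⊢
  refine ⟨hw.1, ?_⟩
  have hXN : (0 : ℝ) < (Fintype.card (Option L) : ℝ) ^ N :=
    pow_pos (by exact_mod_cast Fintype.card_pos) N
  have hc : (Fintype.card (Fin N → Option L) : ℝ) = (Fintype.card (Option L) : ℝ) ^ N := by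
    rw [Fintype.card_fun, Fintype.card_fin]; push_cast; rfl
  have h1 := hw.2
  unfold cp Prob at h1
  rw [hc, div_le_div_iff₀ (by positivity) hXN, one_mul] at h1
  rw [div_le_iff₀ (by positivity)]
  convert h1

theorem big_class (N M : ℕ) (hM : 0 < M) (h : num W N ≤ M) :
    ∃ w : Fin N → Option L, 1 / (M : ℝ) ≤ cp W w := by
  classical
  set R := fun w w' : Fin N → Option L => Same (W.at w) (W.at w') with hR
  have hXN : (0 : ℝ) < (Fintype.card (Option L) : ℝ) ^ N :=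
    pow_pos (by exact_mod_cast Fintype.card_pos) N
  have hc : (Fintype.card (Fin N → Option L) : ℝ) = (Fintype.card (Option L) : ℝ) ^ N := by
    rw [Fintype.card_fun, Fintype.card_fin]; push_cast; rfl
  have hM' : (0 : ℝ) < M := by exact_mod_cast hM
  let _ : Fintype (Quot R) := Fintype.ofFinite _
  have hne : (univ : Finset (Quot R)).Nonempty := ⟨Quot.mk R fun _ => none, mem_univ _⟩
  have h1 : (univ : Finset (Quot R)).card • ((Fintype.card (Option L) : ℝ) ^ N / M) ≤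
      ((univ : Finset (Fin N → Option L)).card : ℝ) := by
    rw [card_univ, card_univ, hc, nsmul_eq_mul, mul_div_assoc', div_le_iff₀ hM', mul_comm]
    refine mul_le_mul_of_nonneg_left ?_ hXN.le
    unfold num at h
    rw [Nat.card_eq_fintype_card] at h
    exact_mod_cast h
  obtain ⟨q, _, hq⟩ := exists_le_card_fiber_of_nsmul_le_card_of_maps_to
    (f := fun w : Fin N → Option L => Quot.mk R w) (fun w _ => mem_univ _) hne h1
  refine ⟨q.out, ?_⟩
  unfold cp Prob
  rw [hc, div_le_div_iff₀ hM' hXN, one_mul]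
  rw [div_le_iff₀ hM'] at hq
  refine hq.trans (mul_le_mul_of_nonneg_right (Nat.cast_le.2 (card_le_card fun w hw => ?_)) hM'.le)
  rw [mem_filter] at hw ⊢
  refine ⟨mem_univ _, ?_⟩
  have h2 : Quot.mk R q.out = Quot.mk R w := by rw [Quot.out_eq, hw.2]
  exact ((same_equiv W N).eqvGen_iff).1 (Quot.eqvGen_exact h2)

theorem dichotomy :
    ((∃ c, Nilp W c) ∧
      (∃ d, ∀ a ∈ grp W, ∀ b ∈ grp W, ∀ n, Separated n (put W a) (put W b) →
        Separated d (put W a) (put W b)) ∧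
      (∃ C D : ℕ, ∀ N : ℕ, num W N ≤ C * (N + 1) ^ D ∧
        ∃ w : Fin N → Option L, 1 / ((C : ℝ) * (N + 1) ^ D) ≤ cp W w)) ∨
    ((∀ c, ¬ Nilp W c) ∧
      (∀ d, ∃ (N : ℕ) (w w' : Fin N → Option L) (n : ℕ), Separated n (W.at w) (W.at w') ∧
        ¬ Separated d (W.at w) (W.at w')) ∧
      (∀ K : ℕ, ∃ N₀ : ℕ, ∀ N ≥ N₀, (N + 1) ^ K ≤ num W N) ∧
      (∀ K : ℕ, ∃ C : ℝ, ∀ N : ℕ,
        Prob (fun w : Fin N → Option L => 1 / ((N : ℝ) + 1) ^ K ≤ cp W w) ≤
          C / Real.sqrt (N + 1))) := by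
  by_cases h : ∃ c, Nilp W c
  · left
    refine ⟨h, ?_⟩
    obtain ⟨c, hc⟩ := h
    obtain ⟨d, hd⟩ := nilp_degree W hc
    refine ⟨⟨d, hd⟩, ?_⟩
    obtain ⟨C, D, hCD⟩ := poly_growth W (d := d) (fun N w w' hw => by
      obtain ⟨a, ha, ha'⟩ := at_mem W w
      obtain ⟨b, hb, hb'⟩ := at_mem W w'
      rw [ha', hb'] at hw ⊢
      exact fun n hn => hw (hd a ha b hb n hn))
    refine ⟨C + 1, D, fun N => ?_⟩
    have h1 : num W N ≤ (C + 1) * (N + 1) ^ D :=
      (hCD N).trans (Nat.mul_le_mul_right _ (Nat.le_succ C))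
    refine ⟨h1, ?_⟩
    obtain ⟨w, hw⟩ := big_class W N _ (by positivity) h1
    refine ⟨w, le_trans (le_of_eq ?_) hw⟩
    push_cast
    rfl
  · right
    push Not at h
    refine ⟨h, ?_, growth W h, heavy_prob W h⟩
    intro d
    by_contra hcon
    push Not at hcon
    obtain ⟨C, D, hCD⟩ := poly_growth W (d := d) (fun N w w' hw n hn => hw (hcon N w w' n hn))
    obtain ⟨N₀, hN₀⟩ := growth W h (D + 1)
    have h1 := hN₀ (max N₀ C) (le_max_left _ _)
    have h2 := h1.trans (hCD (max N₀ C))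
    rw [pow_succ, mul_comm] at h2
    have h3 := Nat.le_of_mul_le_mul_right h2 (by positivity)
    have h4 := le_max_right N₀ C
    omega

end

end Pool.Agent.Helper69.LW
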