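import Pool.Agent.Helper69.LW.Mom

/-!
# Fourth moments of functions of finite degree on random products
-/

set_option autoImplicit false

namespace Pool.Agent.Helper69.LW

open Finset

section
variable {α K : Type*} [Fintype α] [Nonempty α] [Group K] (x : α → K)

/-- The mean after one step. -/
def Tm (F : K → ℚ) (p : K) : ℚ := Mean fun a => F (x a * p)

/-- The centred part. -/
def Hm (F : K → ℚ) (a : α) (p : K) : ℚ := F (x a * p) - Tm x F p

omit [Nonempty α] in
theorem pol_Tm {n : ℕ} {F : K → ℚ} (h : Pol n F) : Pol n (Tm x F) :=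
  Pol.mean fun a => h.left (x a)

theorem pol_Hm {n : ℕ} {F : K → ℚ} (h : Pol (n + 1) F) (a : α) : Pol n (Hm x F a) := by
  have h1 := (h (x a)).sub (Pol.mean fun b => h (x b))
  have e : Hm x F a = fun p => D (x a) F p - Mean fun b => D (x b) F p := by
    funext p
    unfold Hm Tm D
    rw [mean_sub, mean_const]
    ring
  rw [e]
  exact h1

theorem mean_Hm (F : K → ℚ) (p : K) : Mean (fun a => Hm x F a p) = 0 := by
  unfold Hm
  rw [mean_sub, mean_const, Tm, sub_self]

omit [Nonempty α] in
theorem EP_split (N : ℕ) (F : K → ℚ) (φ : ℚ → ℚ) :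
    EP x (N + 1) (fun p => φ (F p)) =
      Mean fun a => EP x N fun p => φ (Tm x F p + Hm x F a p) := by
  rw [EP_succ]
  unfold Hm
  simp only [add_sub_cancel]

/-- The mean of `G · H_a`. -/
theorem mean_EP_Hm (N : ℕ) (F G : K → ℚ) :
    Mean (fun a => EP x N fun p => G p * Hm x F a p) = 0 := by
  unfold EP
  rw [← EL_mean]
  simp only [mean_mul_left, mean_Hm, mul_zero]
  exact EL_zero N

/-- The constant. -/
def kc (α : Type*) [Fintype α] : ℚ := 3 * Fintype.card α + 13

omit [Nonempty α] in
theorem kc_pos : 0 < kc α := by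
  unfold kc
  positivity

theorem kc_ge : 16 ≤ kc α := by
  unfold kc
  have : (1 : ℚ) ≤ Fintype.card α := by exact_mod_cast Fintype.card_pos
  linarith

omit [Nonempty α] in
theorem kc_ge' : 3 * (Fintype.card α : ℚ) ≤ kc α := by
  unfold kc
  linarith

/-- **Fourth moments.** -/
theorem hyper (N : ℕ) : ∀ {n : ℕ} {F : K → ℚ}, Pol (n + 1) F →
    EP x N (fun p => F p ^ 4) ≤ kc α ^ n * EP x N (fun p => F p ^ 2) ^ 2 := by
  induction N with
  | zero =>
    intro n F hF
    show F (vl x []) ^ 4 ≤ kc α ^ n * (F (vl x []) ^ 2) ^ 2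
    have h1 : 1 ≤ kc α ^ n := one_le_pow₀ (by have := kc_ge (α := α); linarith)
    have h2 : 0 ≤ (F (vl x []) ^ 2) ^ 2 := by positivity
    nlinarith
  | succ N ih =>
    intro n F hF
    rcases n with _ | n
    · have h1 : ∀ p, F p = F 1 := fun p => hF.const p 1
      have h2 : (fun p => F p ^ 4) = fun _ => F 1 ^ 4 := by funext p; rw [h1]
      have h3 : (fun p => F p ^ 2) = fun _ => F 1 ^ 2 := by funext p; rw [h1]
      rw [h2, h3]
      unfold EP
      rw [EL_const, EL_const]
      apply le_of_eq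
      ring
    set G := Tm x F with hG
    set H := Hm x F with hH
    set A := EP x N (fun p => G p ^ 2) with hA
    set B : α → ℚ := fun a => EP x N (fun p => H a p ^ 2) with hB
    have hA0 : 0 ≤ A := EL_nonneg fun l => by positivity
    have hB0 : ∀ a, 0 ≤ B a := fun a => EL_nonneg fun l => by positivity
    have hM0 : 0 ≤ Mean B := mean_nonneg hB0
    have hk := kc_ge (α := α)
    have hk' := kc_ge' (α := α)
    have hkn : 0 < kc α ^ n := pow_pos kc_pos n
    -- second moments
    have e2 : EP x (N + 1) (fun p => F p ^ 2) = A + Mean B := by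
      have h0 := EP_split x N F (fun t => t ^ 2)
      rw [h0]
      have h1 : ∀ a, EP x N (fun p => (G p + H a p) ^ 2) =
          (A + B a) + 2 * EP x N fun p => G p * H a p := by
        intro a
        unfold A B EP
        rw [← EL_add, ← EL_mul_left, ← EL_add]
        congr 1
        funext l
        ring
      rw [show (Mean fun a => EP x N fun p => (G p + H a p) ^ 2) =
        Mean fun a => (A + B a) + 2 * EP x N fun p => G p * H a p from by
          congr 1; funext a; exact h1 a]
      rw [mean_add, mean_mul_left, mean_EP_Hm, mean_add, mean_const]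
      ring
    -- the fourth moments
    have hG4 : EP x N (fun p => G p ^ 4) ≤ kc α ^ (n + 1) * A ^ 2 := ih (pol_Tm x hF)
    have hH4 : ∀ a, EP x N (fun p => H a p ^ 4) ≤ kc α ^ n * B a ^ 2 := fun a =>
      ih (pol_Hm x hF a)
    have hGH : ∀ a, EP x N (fun p => G p ^ 2 * H a p ^ 2) ≤ kc α ^ n * (kc α / 4) * A * B a := by
      intro a
      have h1 : EP x N (fun p => G p ^ 2 * H a p ^ 2) ^ 2 ≤
          EP x N (fun p => G p ^ 4) * EP x N (fun p => H a p ^ 4) := by
        have := EL_cs N (fun l => G (vl x l) ^ 2) (fun l => H a (vl x l) ^ 2)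
        unfold EP
        refine this.trans (le_of_eq ?_)
        congr 2 <;> (funext l; ring)
      have h2 : EP x N (fun p => G p ^ 4) * EP x N (fun p => H a p ^ 4) ≤
          (kc α ^ (n + 1) * A ^ 2) * (kc α ^ n * B a ^ 2) :=
        mul_le_mul hG4 (hH4 a) (EL_nonneg fun l => by positivity) (by have := kc_pos (α := α); positivity)
      have h3 : (kc α ^ (n + 1) * A ^ 2) * (kc α ^ n * B a ^ 2) ≤
          (kc α ^ n * (kc α / 4) * A * B a) ^ 2 := by
        have h4 : kc α ≤ (kc α / 4) ^ 2 := by nlinarith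
        have h5 : (kc α ^ (n + 1) * A ^ 2) * (kc α ^ n * B a ^ 2) =
            kc α * ((kc α ^ n) ^ 2 * A ^ 2 * B a ^ 2) := by ring
        have h6 : (kc α ^ n * (kc α / 4) * A * B a) ^ 2 =
            (kc α / 4) ^ 2 * ((kc α ^ n) ^ 2 * A ^ 2 * B a ^ 2) := by ring
        rw [h5, h6]
        exact mul_le_mul_of_nonneg_right h4 (by positivity)
      refine le_of_sq_le_sq (h1.trans (h2.trans h3)) ?_
      have := hB0 a
      have := kc_pos (α := α)
      positivity
    have e4 : EP x (N + 1) (fun p => F p ^ 4) ≤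
        EP x N (fun p => G p ^ 4) + (8 * (kc α ^ n * (kc α / 4) * A * Mean B) +
          3 * (kc α ^ n * (Fintype.card α * Mean B ^ 2))) := by
      have h0 := EP_split x N F (fun t => t ^ 4)
      rw [h0]
      have h1 : ∀ a, EP x N (fun p => (G p + H a p) ^ 4) ≤
          (EP x N (fun p => G p ^ 4) + 4 * EP x N (fun p => G p ^ 3 * H a p)) +
          (8 * EP x N (fun p => G p ^ 2 * H a p ^ 2) + 3 * EP x N (fun p => H a p ^ 4)) := by
        intro a
        unfold EP
        rw [← EL_mul_left, ← EL_mul_left, ← EL_mul_left, ← EL_add, ← EL_add, ← EL_add]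
        refine EL_mono fun l => ?_
        nlinarith [mul_nonneg (sq_nonneg (H a (vl x l))) (sq_nonneg (G (vl x l) - H a (vl x l)))]
      have h2 : ∀ a, EP x N (fun p => (G p + H a p) ^ 4) ≤
          (EP x N (fun p => G p ^ 4) + 4 * EP x N (fun p => G p ^ 3 * H a p)) +
          (8 * (kc α ^ n * (kc α / 4) * A * B a) + 3 * (kc α ^ n * B a ^ 2)) := by
        intro a
        have := h1 a
        have := hGH a
        have := hH4 a
        linarith
      refine (mean_mono h2).trans ?_
      rw [mean_add, mean_add, mean_const, mean_mul_left, mean_EP_Hm, mean_add, mean_mul_left,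
        mean_mul_left, mean_mul_left, mean_mul_left]
      have h3 := mean_sq_le hB0
      have h4 := mul_le_mul_of_nonneg_left h3 hkn.le
      linarith
    rw [e2]
    refine e4.trans ?_
    have h5 : 3 * (kc α ^ n * (Fintype.card α * Mean B ^ 2)) ≤ kc α ^ n * (kc α * Mean B ^ 2) := by
      have : 3 * (Fintype.card α : ℚ) * Mean B ^ 2 ≤ kc α * Mean B ^ 2 :=
        mul_le_mul_of_nonneg_right hk' (by positivity)
      nlinarith [mul_le_mul_of_nonneg_left this hkn.le]
    have h6 : kc α ^ (n + 1) * (A + Mean B) ^ 2 = kc α ^ (n + 1) * A ^ 2 +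
        (8 * (kc α ^ n * (kc α / 4) * A * Mean B) + kc α ^ n * (kc α * Mean B ^ 2)) := by
      ring
    rw [h6]
    linarith

end

section
variable {β : Type*} [Fintype β] [Nonempty β]

open Classical in
/-- The inequality of Paley and Zygmund. -/
theorem paley {f : β → ℚ} {C θ : ℚ} (hC : 0 < C) (h4 : Mean (fun b => f b ^ 4) ≤ C *
    Mean (fun b => f b ^ 2) ^ 2) (h0 : 0 < Mean fun b => f b ^ 2) (hθ0 : 0 ≤ θ) (hθ : θ ≤ 1) :
    (1 - θ) ^ 2 / C ≤ Mean fun b => if θ * (Mean fun b => f b ^ 2) < f b ^ 2 then (1 : ℚ) else 0 := by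
  set m := Mean fun b => f b ^ 2 with hm
  set P := Mean fun b => if θ * m < f b ^ 2 then (1 : ℚ) else 0 with hP
  have h1 : m ≤ θ * m + Mean fun b => f b ^ 2 * if θ * m < f b ^ 2 then (1 : ℚ) else 0 := by
    have h2 : Mean (fun b => f b ^ 2) ≤ Mean fun b => θ * m + (f b ^ 2 *
        (if θ * m < f b ^ 2 then (1 : ℚ) else 0)) := by
      refine mean_mono fun b => ?_
      split_ifs with h
      · have : 0 ≤ θ * m := mul_nonneg hθ0 h0.le
        linarith
      · push Not at h
        linarith
    rw [mean_add, mean_const] at h2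
    exact h2
  set S := Mean fun b => f b ^ 2 * if θ * m < f b ^ 2 then (1 : ℚ) else 0 with hS
  have h2 : S ^ 2 ≤ Mean (fun b => f b ^ 4) * P := by
    refine (mean_cs _ _).trans (le_of_eq ?_)
    congr 1
    · congr 1
      funext b
      ring
    · congr 1
      funext b
      split_ifs <;> norm_num
  have hP0 : 0 ≤ P := mean_nonneg fun b => by split_ifs <;> norm_num
  have h3 : S ^ 2 ≤ C * m ^ 2 * P := h2.trans (mul_le_mul_of_nonneg_right h4 hP0)
  have h4' : ((1 - θ) * m) ^ 2 ≤ S ^ 2 := by
    refine pow_le_pow_left₀ (mul_nonneg (by linarith) h0.le) (by linarith) 2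
  rw [div_le_iff₀ hC]
  have h5 : (1 - θ) ^ 2 * m ^ 2 ≤ P * C * m ^ 2 := by nlinarith
  exact le_of_mul_le_mul_right h5 (by positivity)

end

end Pool.Agent.Helper69.LW
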