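import Pool.Agent.Helper69.LW.Anti

/-!
# Functions which jump at different terms of the lower central series
-/

set_option autoImplicit false

namespace Pool.Agent.Helper69.LW

open Finset Pool.Agent.Y466.RW

section
variable {K : Type*} [Group K]

/-- The function has the value `c` and changes under the translation by `γ`. -/
def gd (F : K → ℚ) (γ : K) (c : ℚ) (p : K) : Prop := F p = c ∧ D γ F p ≠ 0

theorem gd_ker {F : K → ℚ} {γ δ : K} {c : ℚ} (h : δ ∈ Ker F) (a b : K) :
    gd F γ c (a * δ * b) ↔ gd F γ c (a * b) := by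
  unfold gd D
  have h1 := h a b
  have h2 := h (γ * a) b
  rw [mul_assoc γ a δ, mul_assoc γ (a * δ) b, mul_assoc γ a b] at h2
  rw [h1, h2]

theorem gd_com {F : K → ℚ} {γ : K} {c : ℚ} (h : ∀ g, γ * g * γ⁻¹ * g⁻¹ ∈ Ker F) (a g b : K) :
    gd F γ c (a * γ * g * b) ↔ gd F γ c (a * g * γ * b) := by
  have hcom := ker_comm h
  unfold gd D
  have h3 := hcom (γ * a) g b
  have e1 : γ * (a * γ * g * b) = γ * a * γ * g * b := by simp only [mul_assoc]
  have e2 : γ * (a * g * γ * b) = γ * a * g * γ * b := by simp only [mul_assoc]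
  rw [e1, e2, h3, hcom]

theorem gd_card {n : ℕ} {F : K → ℚ} (hF : Pol (n + 1) F) {γ : K} {c : ℚ}
    (h : ∀ g, γ * g * γ⁻¹ * g⁻¹ ∈ Ker F) (p q : K) (s : Finset ℕ)
    (hs : ∀ k ∈ s, gd F γ c (p * γ ^ k * q)) : s.card ≤ n := by
  have hcom := ker_comm h
  rcases s.eq_empty_or_nonempty with rfl | ⟨k₀, hk₀⟩
  · simp
  · have h6 := (hs k₀ hk₀).2
    have h7 : F (p * γ ^ (k₀ + 1) * q) ≠ c := by
      have h8 := (hs k₀ hk₀).1
      intro h9
      apply h6
      unfold D
      have h10 := hcom 1 (p * γ ^ k₀) q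
      have e1 : (1 : K) * γ * (p * γ ^ k₀) * q = γ * (p * γ ^ k₀ * q) := by
        simp only [mul_assoc, one_mul]
      have e2 : (1 : K) * (p * γ ^ k₀) * γ * q = p * γ ^ (k₀ + 1) * q := by
        rw [pow_succ]; simp only [mul_assoc, one_mul]
      rw [e1, e2, h9] at h10
      rw [h10, h8, sub_self]
    exact zeros_pow hF p γ q c h7 s fun k hk => (hs k hk).1

variable {L : Type*} [Fintype L]

/-- The data of a jump at the term `k` of the lower central series. -/
structure Jmp (x : Option L → K) (F : K → ℚ) (n k : ℕ) (γ : K) : Prop where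
  pol : Pol (n + 1) F
  inv : (⊤ : Subgroup K).lowerCentralSeries (k + 1) ≤ Ker F
  mem : γ ∈ (⊤ : Subgroup K).lowerCentralSeries k
  not : γ ∉ Ker F
  wrd : ∃ U U' : Fin (2 ^ (k + 1) - 1) → Option L, U ≠ U' ∧ pr x U' = γ * pr x U

omit [Fintype L] in
theorem Lev.mem_lcs {x : Option L → K} {k : ℕ} {u u' : List (Option L)} (h : Lev L k u u') :
    quo x u u' ∈ (⊤ : Subgroup K).lowerCentralSeries k := by
  induction h with
  | base s => exact Subgroup.mem_top _
  | step z h ih =>
    rw [quo_step, Subgroup.lowerCentralSeries_succ]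
    exact Subgroup.commutator_mem_commutator ih (Subgroup.mem_top _)

omit [Fintype L] in
theorem Jmp.com {x : Option L → K} {F : K → ℚ} {n k : ℕ} {γ : K} (h : Jmp x F n k γ) (g : K) :
    γ * g * γ⁻¹ * g⁻¹ ∈ Ker F := by
  apply h.inv
  rw [Subgroup.lowerCentralSeries_succ]
  exact Subgroup.commutator_mem_commutator h.mem (Subgroup.mem_top g)

omit [Fintype L] in
/-- Jumps exist. -/
theorem exists_jmp {x : Option L → K} (hx : x none = 1) (hg : Subgroup.closure (Set.range x) = ⊤)
    {V : Set (K → ℚ)} (hV : ∀ F ∈ V, ∃ n, Pol (n + 1) F)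
    (h : ∀ c, ∃ F ∈ V, ¬ (⊤ : Subgroup K).lowerCentralSeries c ≤ Ker F) (m : ℕ) :
    ∃ k > m, ∃ F ∈ V, ∃ n γ, Jmp x F n k γ := by
  classical
  obtain ⟨F, hF, hm⟩ := h (m + 1)
  obtain ⟨n, hn⟩ := hV F hF
  have hex : ∃ j, (⊤ : Subgroup K).lowerCentralSeries j ≤ Ker F :=
    ⟨n, (lcs_le_lowS (A := ℚ) n).trans fun c hc => (mem_lowS.1 hc).mem_Ker hn⟩
  have hs := Nat.find_spec hex
  have hmin := fun j => Nat.find_min hex (m := j)
  set j := Nat.find hex with hj
  have hjm : m + 1 < j := by
    by_contra hcon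
    exact hm (((⊤ : Subgroup K).lowerCentralSeries_antitone (not_lt.1 hcon)).trans hs)
  have h1 := hmin (j - 1) (by omega)
  obtain ⟨u, u', hl, hne⟩ : ∃ u u', Lev L (j - 1) u u' ∧ quo x u u' ∉ Ker F := by
    by_contra hcon
    push Not at hcon
    exact h1 (lcs_le hx hg _ _ hcon)
  refine ⟨j - 1, by omega, F, hF, n, quo x u u', hn, ?_, hl.mem_lcs, hne,
    hl.fn (not_mem_ker_ne hne)⟩
  rw [show j - 1 + 1 = j by omega]
  exact hs

/-- The difference of a jump is not often zero. -/
theorem Jmp.anti {x : Option L → K} (hx : x none = 1) (hg : Subgroup.closure (Set.range x) = ⊤)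
    {F : K → ℚ} {n k : ℕ} {γ : K} (h : Jmp x F n k γ) [DecidablePred fun p : K => D γ F p = 0]
    (N : ℕ) :
    (#{w : Fin N → Option L | D γ F (pr x w) = 0} : ℝ) ≤
      rt (Fintype.card (Option L)) n N * (Fintype.card (Option L) : ℝ) ^ N := by
  classical
  have hD : Pol (n + 1) (D γ F) := h.pol.diff γ
  have hcom := ker_comm h.com
  have hDne : ∃ a, D γ F a ≠ 0 := by
    by_contra hcon
    push Not at hcon
    apply h.not
    intro a b
    have h3 := hcom 1 a b
    rw [one_mul, one_mul] at h3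
    have h4 := hcon (a * b)
    unfold D at h4
    rw [← h3, mul_assoc, sub_eq_zero.1 h4]
  by_cases hcc : ∃ a b, D γ F a ≠ D γ F b
  · obtain ⟨a, b, hab⟩ := hcc
    have := anti_rat hx hg n hD hab N 0
    convert this
  · push Not at hcc
    obtain ⟨a, ha⟩ := hDne
    have : (univ.filter fun w : Fin N → Option L => D γ F (pr x w) = 0) = ∅ := by
      rw [filter_eq_empty_iff]
      intro w _ hw
      rw [hcc _ a] at hw
      exact ha hw
    rw [this, card_empty]
    push_cast
    exact mul_nonneg (rt_nonneg _ _ _) (by positivity)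

open Classical in
theorem gjumps_aux {x : Option L → K} (F : ℕ → K → ℚ) (n k : ℕ → ℕ) (γ : ℕ → K) (c : ℕ → ℚ)
    (M : ℕ) (r : ℕ) (hF : ∀ i < r, Jmp x (F i) (n i) (k i) (γ i))
    (hk : ∀ i j, i < j → j < r → k i < k j) (q : K) :
    (#{w : Fin (M * r) → Option L | ∀ i < r, gd (F i) (γ i) (c i) (pr x w * q)} : ℝ) ≤
      (∏ i ∈ range r, (n i : ℝ) * st (Fintype.card (Option L)) (k i + 1) M) *
        (Fintype.card (Option L) : ℝ) ^ (M * r) := by
  have hX1 : (0 : ℝ) ≤ Fintype.card (Option L) := Nat.cast_nonneg _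
  induction r generalizing q with
  | zero =>
    rw [range_zero, prod_empty, one_mul]
    refine le_trans (Nat.cast_le.2 (card_le_univ _)) ?_
    rw [Fintype.card_fun, Fintype.card_fin]
    push_cast
    exact le_rfl
  | succ r ih =>
    have ih' := fun q => ih (fun i hi => hF i (by omega)) (fun i j hij hj => hk i j hij (by omega)) q
    have hr := hF r (by omega)
    obtain ⟨U, U', hU, hUU⟩ := hr.wrd
    have hker : ∀ i < r, γ r ∈ Ker (F i) := fun i hi =>
      (hF i (by omega)).inv ((⊤ : Subgroup K).lowerCentralSeries_antitone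
        (Nat.succ_le_of_lt (hk i r hi (by omega))) hr.mem)
    set B : ℕ := ⌊(∏ i ∈ range r, (n i : ℝ) * st (Fintype.card (Option L)) (k i + 1) M) *
        (Fintype.card (Option L) : ℝ) ^ (M * r)⌋₊ with hBdef
    have hBnn : 0 ≤ (∏ i ∈ range r, (n i : ℝ) * st (Fintype.card (Option L)) (k i + 1) M) *
        (Fintype.card (Option L) : ℝ) ^ (M * r) :=
      mul_nonneg (prod_nonneg fun i _ => mul_nonneg (Nat.cast_nonneg _) (st_nonneg _ _ _))
        (by positivity)
    have hcnt := count_words (ι := Fin (M * r) → Option L) x (fun w => pr x w) (γ := γ r)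
      (E := fun p => ∀ i < r + 1, gd (F i) (γ i) (c i) (p * q))
      (Q := fun p => ∀ i < r, gd (F i) (γ i) (c i) (p * q)) (n := n r) (B := B)
      (fun a g b => by
        refine forall_congr' fun i => forall_congr' fun hi => ?_
        rcases Nat.lt_succ_iff_lt_or_eq.1 hi with h | h
        · have h3 := gd_ker (γ := γ i) (c := c i) (hker i h) a (g * (b * q))
          have h4 := gd_ker (γ := γ i) (c := c i) (hker i h) (a * g) (b * q)
          have e1 : a * γ r * g * b * q = a * γ r * (g * (b * q)) := by simp only [mul_assoc]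
          have e2 : a * g * γ r * b * q = a * g * γ r * (b * q) := by simp only [mul_assoc]
          rw [e1, e2, h3, h4, mul_assoc a]
        · subst h
          have h3 := gd_com (c := c i) hr.com a g (b * q)
          rw [← mul_assoc, ← mul_assoc] at h3
          exact h3)
      (fun p' q' s hs => gd_card (c := c r) hr.pol hr.com p' (q' * q) s fun k hk => by
        have := hs k hk r (by omega)
        rwa [mul_assoc (p' * γ r ^ k)] at this)
      (fun p' hp i hi => hp i (by omega))
      (fun a b => by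
        refine forall_congr' fun i => forall_congr' fun hi => ?_
        have h3 := gd_ker (γ := γ i) (c := c i) (hker i hi) a (b * q)
        rw [← mul_assoc, ← mul_assoc] at h3
        exact h3)
      (fun q' => by
        refine Nat.le_floor ?_
        have h3 := ih' (q' * q)
        simp only [mul_assoc] at h3 ⊢
        convert h3)
      hU hUU M
    have hm : ((2 ^ (k r + 1) - 1 : ℕ) : ℝ) = (2 : ℝ) ^ (k r + 1) - 1 := by
      rw [Nat.cast_sub Nat.one_le_two_pow]; push_cast; rfl
    have h7 : Real.sqrt (((2 ^ (k r + 1) - 1 : ℕ) : ℝ) *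
        (Fintype.card (Option L) : ℝ) ^ (2 ^ (k r + 1) - 1) / (2 * (M + 1))) =
        st (Fintype.card (Option L)) (k r + 1) M := by
      unfold st
      rw [hm]
    rw [h7] at hcnt
    have h8 : (#{w : Fin (M * (r + 1)) → Option L |
        ∀ i < r + 1, gd (F i) (γ i) (c i) (pr x w * q)} : ℝ) =
        (#{z : (Fin (M * r) → Option L) × (Fin M → Option L) |
          ∀ i < r + 1, gd (F i) (γ i) (c i) (pr x z.1 * pr x z.2 * q)} : ℝ) := by
      norm_cast
      rw [card_filter, card_filter]
      have e := (Fin.appendEquiv (α := Option L) (M * r) M).sum_comp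
        (fun w : Fin (M * r + M) → Option L =>
          if ∀ i < r + 1, gd (F i) (γ i) (c i) (pr x w * q) then 1 else 0)
      refine Eq.trans e.symm ?_
      refine sum_congr rfl fun z _ => ?_
      have e2 : Fin.appendEquiv (M * r) M z = Fin.append z.1 z.2 := rfl
      rw [e2, pr_append]
    rw [h8]
    refine le_trans (le_of_eq ?_) (hcnt.trans ?_)
    · congr
    · rw [prod_range_succ]
      have h9 : (B : ℝ) ≤ _ := Nat.floor_le hBnn
      have e3 : (Fintype.card (Option L) : ℝ) ^ (M * (r + 1)) =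
          (Fintype.card (Option L) : ℝ) ^ (M * r) * (Fintype.card (Option L) : ℝ) ^ M := by
        rw [← pow_add]; rfl
      rw [e3]
      have h10 : 0 ≤ (n r : ℝ) * ((Fintype.card (Option L) : ℝ) ^ M *
          st (Fintype.card (Option L)) (k r + 1) M) :=
        mul_nonneg (Nat.cast_nonneg _) (mul_nonneg (by positivity) (st_nonneg _ _ _))
      calc (B : ℝ) * (n r) * ((Fintype.card (Option L) : ℝ) ^ M *
            st (Fintype.card (Option L)) (k r + 1) M)
          = (B : ℝ) * ((n r : ℝ) * ((Fintype.card (Option L) : ℝ) ^ M *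
            st (Fintype.card (Option L)) (k r + 1) M)) := by ring
        _ ≤ _ := mul_le_mul_of_nonneg_right h9 h10
        _ = _ := by ring

open Classical in
/-- The general bound. -/
theorem gjumps {x : Option L → K} (F : ℕ → K → ℚ) (n k : ℕ → ℕ) (γ : ℕ → K) {r : ℕ}
    (hF : ∀ i < r, Jmp x (F i) (n i) (k i) (γ i)) (hk : ∀ i j, i < j → j < r → k i < k j) :
    ∃ C : ℝ, 0 ≤ C ∧ ∀ (c : ℕ → ℚ) (N : ℕ),
      (#{w : Fin N → Option L | ∀ i < r, gd (F i) (γ i) (c i) (pr x w)} : ℝ) ≤
        C / Real.sqrt (N + 1) ^ r * (Fintype.card (Option L) : ℝ) ^ N := by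
  have hX1 : (0 : ℝ) ≤ Fintype.card (Option L) := Nat.cast_nonneg _
  rcases Nat.eq_zero_or_pos r with rfl | hr
  · refine ⟨1, zero_le_one, fun c N => ?_⟩
    rw [pow_zero, div_one, one_mul]
    refine le_trans (Nat.cast_le.2 (card_le_univ _)) ?_
    rw [Fintype.card_fun, Fintype.card_fin]
    push_cast
    exact le_rfl
  have hcard : (2 : ℝ) ≤ Fintype.card (Option L) := by
    obtain ⟨U, U', hU, _⟩ := (hF 0 hr).wrd
    obtain ⟨i, hi⟩ := Function.ne_iff.1 hU
    have := card_le_univ ({U i, U' i} : Finset (Option L))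
    rw [card_pair hi] at this
    exact_mod_cast this
  -- the largest level
  obtain ⟨d, hd⟩ : ∃ d, ∀ i < r, k i + 1 ≤ d :=
    ⟨∑ i ∈ range r, (k i + 1), fun i hi =>
      single_le_sum (f := fun i => k i + 1) (fun _ _ => Nat.zero_le _) (mem_range.2 hi)⟩
  refine ⟨(∏ i ∈ range r, (n i : ℝ)) *
    Real.sqrt (r * 2 ^ d * (Fintype.card (Option L) : ℝ) ^ 2 ^ d) ^ r,
    mul_nonneg (prod_nonneg fun i _ => Nat.cast_nonneg _) (by positivity), fun c N => ?_⟩
  set M := N / r with hM
  set N₀ := N % r with hN₀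
  have hN : M * r + N₀ = N := by rw [mul_comm]; exact Nat.div_add_mod N r
  have h1 : (#{w : Fin N → Option L | ∀ i < r, gd (F i) (γ i) (c i) (pr x w)} : ℝ) ≤
      (∏ i ∈ range r, (n i : ℝ) * st (Fintype.card (Option L)) (k i + 1) M) *
        (Fintype.card (Option L) : ℝ) ^ N := by
    rw [← hN]
    have h8 : (#{w : Fin (M * r + N₀) → Option L |
        ∀ i < r, gd (F i) (γ i) (c i) (pr x w)} : ℝ) =
        ∑ z : Fin N₀ → Option L, (#{w : Fin (M * r) → Option L |
          ∀ i < r, gd (F i) (γ i) (c i) (pr x w * pr x z)} : ℝ) := by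
      norm_cast
      rw [card_filter]
      have e := (Fin.appendEquiv (α := Option L) (M * r) N₀).sum_comp
        (fun w : Fin (M * r + N₀) → Option L =>
          if ∀ i < r, gd (F i) (γ i) (c i) (pr x w) then 1 else 0)
      refine Eq.trans e.symm ?_
      rw [Fintype.sum_prod_type, sum_comm]
      refine sum_congr rfl fun z _ => ?_
      rw [card_filter]
      refine sum_congr rfl fun w _ => ?_
      have e2 : Fin.appendEquiv (M * r) N₀ (w, z) = Fin.append w z := rfl
      rw [e2, pr_append]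
    rw [h8]
    refine (sum_le_sum fun z _ => gjumps_aux F n k γ c M r hF hk (pr x z)).trans ?_
    rw [sum_const, card_univ, Fintype.card_fun, Fintype.card_fin, nsmul_eq_mul]
    push_cast
    rw [pow_add]
    exact le_of_eq (by ring)
  refine h1.trans (mul_le_mul_of_nonneg_right ?_ (by positivity))
  have hs : 0 < Real.sqrt ((N : ℝ) + 1) := Real.sqrt_pos.2 (by positivity)
  have h2 : ∀ i ∈ range r, st (Fintype.card (Option L)) (k i + 1) M ≤
      Real.sqrt (r * 2 ^ d * (Fintype.card (Option L) : ℝ) ^ 2 ^ d) / Real.sqrt (N + 1) := by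
    intro i hi
    rw [← Real.sqrt_div (by positivity)]
    refine ((st_mono hcard (hd i (mem_range.1 hi)) M).trans (st_le hcard d M)).trans ?_
    refine (half_le_self (Real.sqrt_nonneg _)).trans (Real.sqrt_le_sqrt ?_)
    rw [div_le_div_iff₀ (by positivity) (by positivity)]
    have h3 : (N : ℝ) + 1 ≤ r * (M + 1) := by
      have h4 : N + 1 ≤ r * (M + 1) := by
        have := Nat.mod_lt N hr
        rw [mul_add, mul_one, mul_comm r M]
        omega
      exact_mod_cast h4
    have h5 : 0 ≤ (2 : ℝ) ^ d * (Fintype.card (Option L) : ℝ) ^ 2 ^ d := by positivity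
    calc (2 : ℝ) ^ d * (Fintype.card (Option L) : ℝ) ^ 2 ^ d * (N + 1)
        ≤ (2 : ℝ) ^ d * (Fintype.card (Option L) : ℝ) ^ 2 ^ d * (r * (M + 1)) :=
          mul_le_mul_of_nonneg_left h3 h5
      _ = _ := by ring
  have h3 := prod_le_prod (s := range r) (fun i _ => mul_nonneg (Nat.cast_nonneg (n i))
    (st_nonneg (Fintype.card (Option L)) (k i + 1) M)) fun i hi =>
      mul_le_mul_of_nonneg_left (h2 i hi) (Nat.cast_nonneg (n i))
  refine h3.trans (le_of_eq ?_)
  rw [prod_mul_distrib, prod_const, card_range, div_pow, mul_div_assoc]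

end

end Pool.Agent.Helper69.LW
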