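import Pool.Agent.Helper69.LW.MomW

/-!
# The laws of the LMO invariant on random products of Torelli elements
-/

set_option autoImplicit false

namespace Pool.Agent.Helper69.LW

open Finset Polynomial Pool.Agent.Y466.LM

/-- The rational finite type invariants of homology spheres. -/
def Inv : Type :=
  {v : ∀ g : ℕ, MulAut (Fg g) → ℚ // IsInvariant v ∧ ∃ n, DegreeLE n v}

/-- The values of all finite type invariants. -/
def sig {g : ℕ} (φ : MulAut (Fg g)) : Inv → ℚ := fun v => v.1 g φ

theorem same_iff {g g' : ℕ} {φ : MulAut (Fg g)} {ψ : MulAut (Fg g')} :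
    Same φ ψ ↔ sig φ = sig ψ := by
  constructor
  · intro h
    funext v
    obtain ⟨v, hv, n, hn⟩ := v
    by_contra hne
    exact h n ⟨v, hv, hn, hne⟩
  · rintro h n ⟨v, hv, hn, hne⟩
    exact hne (congrFun h ⟨v, hv, n, hn⟩)

section
variable {α β Z : Type} [Fintype α] [Fintype β]

theorem mean_sum {ι : Type} (R : Finset ι) (f : ι → α → ℚ) :
    (Mean fun a => ∑ i ∈ R, f i a) = ∑ i ∈ R, Mean (f i) := by
  unfold Mean
  rw [sum_comm, sum_div]

open Classical in
/-- Equal laws give equal means. -/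
theorem mean_law {s : α → Z} {t : β → Z} (hs : ∀ a, Prob (fun a' => s a' = s a) =
    Prob fun b => t b = s a) (ht : ∀ b, Prob (fun a => s a = t b) = Prob fun b' => t b' = t b)
    (Φ : Z → ℚ) : (Mean fun a => Φ (s a)) = Mean fun b => Φ (t b) := by
  set R : Finset Z := univ.image s ∪ univ.image t with hR
  have h1 : (Mean fun a => Φ (s a)) =
      ∑ z ∈ R, Φ z * Mean fun a => if s a = z then (1 : ℚ) else 0 := by
    have e : (fun a => Φ (s a)) = fun a => ∑ z ∈ R, Φ z * if s a = z then (1 : ℚ) else 0 := by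
      funext a
      have hm : s a ∈ R := mem_union_left _ (mem_image_of_mem s (mem_univ a))
      simp only [mul_ite, mul_one, mul_zero]
      rw [sum_ite_eq R (s a) Φ, if_pos hm]
    rw [e, mean_sum]
    simp only [mean_mul_left]
  have h2 : (Mean fun b => Φ (t b)) =
      ∑ z ∈ R, Φ z * Mean fun b => if t b = z then (1 : ℚ) else 0 := by
    have e : (fun b => Φ (t b)) = fun b => ∑ z ∈ R, Φ z * if t b = z then (1 : ℚ) else 0 := by
      funext b
      have hm : t b ∈ R := mem_union_right _ (mem_image_of_mem t (mem_univ b))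
      simp only [mul_ite, mul_one, mul_zero]
      rw [sum_ite_eq R (t b) Φ, if_pos hm]
    rw [e, mean_sum]
    simp only [mean_mul_left]
  rw [h1, h2]
  refine sum_congr rfl fun z hz => ?_
  congr 1
  have h3 : Prob (fun a => s a = z) = Prob fun b => t b = z := by
    rcases mem_union.1 hz with hz | hz
    · obtain ⟨a, -, rfl⟩ := mem_image.1 hz
      exact hs a
    · obtain ⟨b, -, rfl⟩ := mem_image.1 hz
      exact ht b
  rw [Prob_mean, Prob_mean] at h3
  exact_mod_cast h3

end

section
variable {L L' : Type} [Fintype L] [Fintype L'] {g g' : ℕ} (W : Walk L g) (W' : Walk L' g')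

/-- The laws of the LMO invariant on the words of length `N` are equal. -/
def EqLaw (N : ℕ) : Prop := ∀ (g₁ : ℕ) (ψ : Tor g₁),
  Prob (fun w : Fin N → Option L => Same (W.at w) ψ.1) =
    Prob fun w : Fin N → Option L' => Same (W'.at w) ψ.1

theorem EqLaw.mean {N : ℕ} (h : EqLaw W W' N) (Φ : (Inv → ℚ) → ℚ) :
    (Mean fun w : Fin N → Option L => Φ (sig (W.at w))) =
      Mean fun w : Fin N → Option L' => Φ (sig (W'.at w)) := by
  refine mean_law (fun w => ?_) (fun w => ?_) Φ
  · have h1 := h g (walk W.u₀ W.u W.x w)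
    simp only [same_iff] at h1
    exact h1
  · have h1 := h g' (walk W'.u₀ W'.u W'.x w)
    simp only [same_iff] at h1
    exact h1

/-- The means of products of affine functions of the invariants are polynomials. -/
theorem poly_prod {ι : Type} (T : Finset ι) (v : ι → Inv) (c e : ι → ℚ) :
    ∃ P : ℚ[X], ∀ N : ℕ, (Mean fun w : Fin N → Option L =>
      ∏ i ∈ T, (sig (W.at w) (v i) - c i) * e i) = P.eval (N : ℚ) := by
  have hn : ∀ i, ∃ n, DegreeLE n (v i).1 := fun i => (v i).2.2
  choose n hn using hn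
  have h1 : Pol (∑ i ∈ T, n i + 1) fun a => ∏ i ∈ T, (fn W (v i).1 a - c i) * e i := by
    refine Pol.finprod fun i _ => ?_
    have h2 := ((along_of W (hn i)).sub ((pol_const (c i)).mono (Nat.le_add_left 1 (n i)))).smul
      (e i)
    have e1 : (fun a => (fn W (v i).1 a - c i) * e i) =
        fun a : grp W => e i * ((v i).1 g (put W a) - c i) := by
      funext a
      unfold fn
      ring
    rw [e1]
    exact h2
  obtain ⟨P, -, hP⟩ := EP_poly (lt W) h1
  refine ⟨P, fun N => ?_⟩
  rw [← hP, ← mean_at]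
  congr 1
  funext w
  refine prod_congr rfl fun i _ => ?_
  congr 2
  exact at_fn W (v i).1 w

/-- **Rigidity of the laws.** -/
theorem laws₂ (h : ∀ N₀ : ℕ, ∃ N ≥ N₀, EqLaw W W' N) (N : ℕ) : EqLaw W W' N := by
  classical
  intro g₁ ψ
  -- invariants which separate
  set Ω := (Fin N → Option L) ⊕ (Fin N → Option L') with hΩ
  set S : Ω → (Inv → ℚ) := Sum.elim (fun w => sig (W.at w)) (fun w => sig (W'.at w)) with hS
  set z₀ := sig ψ.1 with hz₀
  have v₀ : Inv := ⟨fun _ _ => 0, ⟨fun _ _ _ _ _ _ _ _ _ => rfl, fun _ _ _ _ _ _ => rfl,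
    fun _ _ _ _ _ _ => rfl⟩, 0, fun g φ hφ l hl hl' => by
      clear hl
      rcases l with _ | ⟨a, l⟩
      · simp at hl'
      · show alt (fun _ => (0 : ℚ)) l φ - alt (fun _ => (0 : ℚ)) l (φ * a) = 0
        have : ∀ (l : List (MulAut (Fg g))) (φ : MulAut (Fg g)),
            alt (fun _ => (0 : ℚ)) l φ = 0 := by
          intro l
          induction l with
          | nil => intro φ; rfl
          | cons b l ih =>
            intro φ
            show alt (fun _ => (0 : ℚ)) l φ - alt (fun _ => (0 : ℚ)) l (φ * b) = 0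
            rw [ih, ih, sub_zero]
        rw [this, this, sub_zero]⟩
  have hv : ∀ ω : Ω, ∃ v : Inv, S ω ≠ z₀ → S ω v ≠ z₀ v := by
    intro ω
    by_cases hω : S ω = z₀
    · exact ⟨v₀, fun h => absurd hω h⟩
    · obtain ⟨v, hv⟩ := Function.ne_iff.1 hω
      exact ⟨v, fun _ => hv⟩
  choose v hv using hv
  set T : Finset Ω := univ.filter fun ω => S ω ≠ z₀ with hT
  set Φ : (Inv → ℚ) → ℚ := fun z => ∏ ω ∈ T, (z (v ω) - S ω (v ω)) * (z₀ (v ω) - S ω (v ω))⁻¹
    with hΦ
  have h1 : ∀ ω, Φ (S ω) = if S ω = z₀ then (1 : ℚ) else 0 := by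
    intro ω
    simp only [hΦ]
    split_ifs with hω
    · rw [hω]
      refine prod_eq_one fun ω' hω' => ?_
      have h2 := hv ω' (mem_filter.1 hω').2
      exact mul_inv_cancel₀ (sub_ne_zero.2 fun h3 => h2 h3.symm)
    · refine prod_eq_zero (mem_filter.2 ⟨mem_univ ω, hω⟩) ?_
      rw [sub_self, zero_mul]
  obtain ⟨P, hP⟩ := poly_prod W T v (fun ω => S ω (v ω)) (fun ω => (z₀ (v ω) - S ω (v ω))⁻¹)
  obtain ⟨P', hP'⟩ := poly_prod W' T v (fun ω => S ω (v ω)) (fun ω => (z₀ (v ω) - S ω (v ω))⁻¹)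
  have hPP : P = P' := by
    apply Polynomial.eq_of_infinite_eval_eq
    have h2 : Set.Infinite {N : ℕ | P.eval (N : ℚ) = P'.eval (N : ℚ)} := by
      refine Set.infinite_of_not_bddAbove ?_
      rintro ⟨b, hb⟩
      obtain ⟨M, hM, he⟩ := h (b + 1)
      have h3 : P.eval (M : ℚ) = P'.eval (M : ℚ) := by
        rw [← hP, ← hP']
        exact he.mean W W' Φ
      have := hb h3
      omega
    refine (h2.image (Nat.cast_injective (R := ℚ)).injOn).mono ?_
    rintro _ ⟨M, hM, rfl⟩
    exact hM
  have h2 : (Mean fun w : Fin N → Option L => Φ (sig (W.at w))) =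
      Mean fun w : Fin N → Option L' => Φ (sig (W'.at w)) := by
    have h3 := hP N
    have h4 := hP' N
    rw [← hPP, ← h3] at h4
    exact h4.symm
  have h3 : (fun w : Fin N → Option L => Φ (sig (W.at w))) =
      fun w => if Same (W.at w) ψ.1 then (1 : ℚ) else 0 := by
    funext w
    have h4 := h1 (Sum.inl w)
    show Φ (S (Sum.inl w)) = _
    rw [h4]
    simp only [same_iff]
    rfl
  have h3' : (fun w : Fin N → Option L' => Φ (sig (W'.at w))) =
      fun w => if Same (W'.at w) ψ.1 then (1 : ℚ) else 0 := by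
    funext w
    have h4 := h1 (Sum.inr w)
    show Φ (S (Sum.inr w)) = _
    rw [h4]
    simp only [same_iff]
    rfl
  rw [h3, h3'] at h2
  rw [Prob_mean, Prob_mean, h2]

end

end Pool.Agent.Helper69.LW
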