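import Pool.Agent.Helper69.LW.Pol

/-!
# Iterated commutators as quotients of words of the same length
-/

set_option autoImplicit false

namespace Pool.Agent.Helper69.LW

section
variable {L : Type*} {K : Type*} [Group K]

/-- The value of a word. -/
def val (x : Option L → K) (w : List (Option L)) : K := (w.map x).prod

theorem val_append (x : Option L → K) (a b : List (Option L)) :
    val x (a ++ b) = val x a * val x b := by
  unfold val
  rw [List.map_append, List.prod_append]

theorem val_cons (x : Option L → K) (z : Option L) (b : List (Option L)) :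
    val x (z :: b) = x z * val x b := by
  unfold val
  rw [List.map_cons, List.prod_cons]

variable (L) in
/-- Pairs of words of the same length with an iterated commutator as the quotient. -/
inductive Lev : ℕ → List (Option L) → List (Option L) → Prop
  | base (s : L) : Lev 0 [none] [some s]
  | step {k : ℕ} {u u' : List (Option L)} (z : Option L) (h : Lev k u u') :
      Lev (k + 1) (u ++ z :: u') (u' ++ z :: u)

theorem Lev.length {k : ℕ} {u u' : List (Option L)} (h : Lev L k u u') :
    u.length + 1 = 2 ^ (k + 1) ∧ u'.length + 1 = 2 ^ (k + 1) := by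
  induction h with
  | base s => simp
  | step z h ih =>
    obtain ⟨h1, h2⟩ := ih
    rw [pow_succ]
    simp only [List.length_append, List.length_cons]
    omega

/-- The quotient. -/
def quo (x : Option L → K) (u u' : List (Option L)) : K := val x u' * (val x u)⁻¹

theorem val_quo (x : Option L → K) (u u' : List (Option L)) :
    val x u' = quo x u u' * val x u := by
  unfold quo
  group

theorem quo_step (x : Option L → K) (u u' : List (Option L)) (z : Option L) :
    quo x (u ++ z :: u') (u' ++ z :: u) =
      quo x u u' * (val x u * x z) * (quo x u u')⁻¹ * (val x u * x z)⁻¹ := by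
  unfold quo
  rw [val_append, val_append, val_cons, val_cons]
  group

theorem Lev.low {A : Type*} [AddCommGroup A] (x : Option L → K) {k : ℕ} {u u' : List (Option L)}
    (h : Lev L k u u') : Low A (k + 1) (quo x u u') := by
  induction h with
  | base s => exact low_one _
  | step z h ih =>
    rw [quo_step]
    exact low_comm ih _

/-- An element which commutes with the letters after a translation modulo a normal subgroup is
central modulo the subgroup. -/
theorem central_of {x : Option L → K} (hx : x none = 1) (hg : Subgroup.closure (Set.range x) = ⊤)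
    (M : Subgroup K) [M.Normal] (c v : K) (h : ∀ z, c * (v * x z) * c⁻¹ * (v * x z)⁻¹ ∈ M) (g : K) :
    c * g * c⁻¹ * g⁻¹ ∈ M := by
  -- the centralizer of `c` modulo `M`
  have key : ∀ g : K, c * g * c⁻¹ * g⁻¹ ∈ M ↔
      g ∈ (Subgroup.centralizer {(QuotientGroup.mk' M) c}).comap (QuotientGroup.mk' M) := by
    intro g
    rw [Subgroup.mem_comap, Subgroup.mem_centralizer_singleton_iff, ← map_mul, ← map_mul,
      QuotientGroup.mk'_apply, QuotientGroup.mk'_apply, eq_comm, QuotientGroup.eq]
    have e : (c * g)⁻¹ * (g * c) = (g * c)⁻¹ * (c * g * c⁻¹ * g⁻¹)⁻¹ * (g * c) := by group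
    rw [e]
    constructor
    · intro h1
      have h2 := (inferInstance : M.Normal).conj_mem _ (inv_mem h1) (g * c)⁻¹
      rwa [inv_inv] at h2
    · intro h1
      have h2 := (inferInstance : M.Normal).conj_mem _ h1 (g * c)
      have e2 : g * c * ((g * c)⁻¹ * (c * g * c⁻¹ * g⁻¹)⁻¹ * (g * c)) * (g * c)⁻¹ =
          (c * g * c⁻¹ * g⁻¹)⁻¹ := by group
      rw [e2] at h2
      exact (Subgroup.inv_mem_iff _).1 h2
  rw [key]
  simp only [key] at h
  set C := (Subgroup.centralizer {(QuotientGroup.mk' M) c}).comap (QuotientGroup.mk' M) with hC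
  have hv : v ∈ C := by
    have := h none
    rwa [hx, mul_one] at this
  have hz : ∀ z, x z ∈ C := fun z => by
    have := C.mul_mem (C.inv_mem hv) (h z)
    rwa [inv_mul_cancel_left] at this
  have h1 : (⊤ : Subgroup K) ≤ C := by
    rw [← hg, Subgroup.closure_le]
    rintro _ ⟨z, rfl⟩
    exact hz z
  exact h1 trivial

/-- The lower central term is contained in the normal closure of the quotients. -/
theorem lcs_le {x : Option L → K} (hx : x none = 1) (hg : Subgroup.closure (Set.range x) = ⊤)
    (k : ℕ) (M : Subgroup K) [M.Normal] (h : ∀ u u', Lev L k u u' → quo x u u' ∈ M) :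
    (⊤ : Subgroup K).lowerCentralSeries k ≤ M := by
  induction k generalizing M with
  | zero =>
    rw [Subgroup.lowerCentralSeries_zero, ← hg, Subgroup.closure_le]
    rintro _ ⟨z, rfl⟩
    cases z with
    | none => rw [hx]; exact M.one_mem
    | some s =>
      have := h _ _ (Lev.base s)
      unfold quo val at this
      simpa [hx] using this
  | succ k ih =>
    rw [Subgroup.lowerCentralSeries_succ, Subgroup.commutator_le]
    -- the elements which are central modulo `M`
    set Z : Subgroup K := (Subgroup.center (K ⧸ M)).comap (QuotientGroup.mk' M) with hZ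
    have key : ∀ c : K, (∀ g : K, c * g * c⁻¹ * g⁻¹ ∈ M) ↔ c ∈ Z := by
      intro c
      have e : ∀ g : K, c * g * c⁻¹ * g⁻¹ ∈ M ↔ (g : K ⧸ M) * (c : K ⧸ M) = c * g := by
        intro g
        rw [← QuotientGroup.mk_mul, ← QuotientGroup.mk_mul, eq_comm, QuotientGroup.eq]
        have e : (c * g)⁻¹ * (g * c) = (g * c)⁻¹ * (c * g * c⁻¹ * g⁻¹)⁻¹ * (g * c) := by group
        rw [e]
        constructor
        · intro h1
          have h2 := (inferInstance : M.Normal).conj_mem _ (inv_mem h1) (g * c)⁻¹
          rwa [inv_inv] at h2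
        · intro h1
          have h2 := (inferInstance : M.Normal).conj_mem _ h1 (g * c)
          have e2 : g * c * ((g * c)⁻¹ * (c * g * c⁻¹ * g⁻¹)⁻¹ * (g * c)) * (g * c)⁻¹ =
              (c * g * c⁻¹ * g⁻¹)⁻¹ := by group
          rw [e2] at h2
          exact (Subgroup.inv_mem_iff _).1 h2
      simp only [e]
      rw [hZ, Subgroup.mem_comap, Subgroup.mem_center_iff]
      constructor
      · intro h1 q
        obtain ⟨g, rfl⟩ := QuotientGroup.mk_surjective q
        exact h1 g
      · intro h1 g
        exact h1 g
    have h1 : (⊤ : Subgroup K).lowerCentralSeries k ≤ Z := by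
      refine ih Z fun u u' hu => ?_
      rw [← key]
      refine central_of hx hg M _ (val x u) fun z => ?_
      rw [← quo_step]
      exact h _ _ (Lev.step z hu)
    intro c hc g _
    exact (key c).2 (h1 hc) g

/-- A non-constant function of finite degree has a central pair. -/
theorem exists_pair {A : Type*} [AddCommGroup A] {x : Option L → K} (hx : x none = 1)
    (hg : Subgroup.closure (Set.range x) = ⊤) {n : ℕ} {F : K → A} (hF : Pol (n + 1) F) {p q : K}
    (hne : F p ≠ F q) : ∃ k < n, ∃ u u', Lev L k u u' ∧ quo x u u' ∉ Ker F ∧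
      ∀ g, quo x u u' * g * (quo x u u')⁻¹ * g⁻¹ ∈ Ker F := by
  classical
  -- levels which are not contained in the kernel
  have h0 : ∃ u u', Lev L 0 u u' ∧ quo x u u' ∉ Ker F := by
    by_contra hcon
    push Not at hcon
    have h1 := lcs_le hx hg 0 (Ker F) hcon
    rw [Subgroup.lowerCentralSeries_zero] at h1
    have h2 : F (1 * (p * q⁻¹) * q) = F (1 * q) := (h1 (Subgroup.mem_top (p * q⁻¹))) 1 q
    rw [one_mul, one_mul, inv_mul_cancel_right] at h2
    exact hne h2
  have hn : ∀ k, n ≤ k → ¬ ∃ u u', Lev L k u u' ∧ quo x u u' ∉ Ker F := by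
    rintro k hk ⟨u, u', h1, h2⟩
    exact h2 ((h1.low x).mem_Ker (hF.mono (by omega)))
  have hex : ∃ k, ¬ ∃ u u', Lev L k u u' ∧ quo x u u' ∉ Ker F := ⟨n, hn n le_rfl⟩
  have hs := Nat.find_spec hex
  have hm := fun m => Nat.find_min hex (m := m)
  have hle := Nat.find_min' hex (hn n le_rfl)
  set k := Nat.find hex with hk
  rcases Nat.eq_zero_or_pos k with h00 | h00
  · rw [h00] at hs
    exact absurd h0 hs
  · have h1 := hm (k - 1) (by omega)
    push Not at h1
    obtain ⟨u, u', h2, h3⟩ := h1
    refine ⟨k - 1, by omega, u, u', h2, h3, central_of hx hg _ _ (val x u) fun z => ?_⟩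
    rw [← quo_step]
    by_contra hcon
    refine hs ⟨_, _, ?_, hcon⟩
    have h4 := Lev.step z h2
    rwa [show k - 1 + 1 = k by omega] at h4

end

end Pool.Agent.Helper69.LW
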