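import Pool.Agent.Helper69.LW.Pol

/-!
# Functions of finite degree along powers
-/

set_option autoImplicit false

namespace Pool.Agent.Helper69.LW

open Finset Polynomial

/-- A function with vanishing iterated differences has few zeros. -/
theorem zeros_le {n : ℕ} {f : ℕ → ℚ} (hf : ∀ s, (fwdDiff 1)^[n + 1] f s = 0) {s₀ : ℕ}
    (hne : f s₀ ≠ 0) (S : Finset ℕ) (hS : ∀ s ∈ S, f s = 0) : S.card ≤ n := by
  have hk : ∀ k, n < k → (fwdDiff 1)^[k] f = fun _ => (0 : ℚ) := by
    intro k hk
    induction k with
    | zero => omega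
    | succ k ih =>
      rcases Nat.lt_succ_iff_lt_or_eq.1 hk with h | h
      · rw [Function.iterate_succ_apply', ih h]
        funext s
        simp [fwdDiff]
      · subst h
        funext s
        exact hf s
  set P : ℚ[X] := ∑ k ∈ range (n + 1),
    C ((fwdDiff 1)^[k] f 0 / (k.factorial : ℚ)) * descPochhammer ℚ k with hP
  have hev : ∀ s : ℕ, P.eval (s : ℚ) = f s := by
    intro s
    have h1 := shift_eq_sum_fwdDiff_iter 1 f s 0
    rw [zero_add, nsmul_eq_mul, mul_one, Nat.cast_id] at h1
    rw [h1, hP, eval_finsetSum]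
    have h2 : ∀ k, eval (s : ℚ) (C ((fwdDiff 1)^[k] f 0 / (k.factorial : ℚ)) *
        descPochhammer ℚ k) = s.choose k • (fwdDiff 1)^[k] f 0 := by
      intro k
      rw [eval_mul, eval_C, descPochhammer_eval_eq_descFactorial, Nat.descFactorial_eq_factorial_mul_choose,
        nsmul_eq_mul]
      have : (k.factorial : ℚ) ≠ 0 := by exact_mod_cast k.factorial_ne_zero
      push_cast
      field_simp
    rw [sum_congr rfl fun k _ => h2 k]
    rcases le_total n s with h | h
    · refine sum_subset (range_subset_range.2 (by omega)) fun k _ hk' => ?_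
      rw [mem_range] at hk'
      rw [congrFun (hk k (by omega)) 0, smul_zero]
    · refine (sum_subset (range_subset_range.2 (by omega)) fun k _ hk' => ?_).symm
      rw [mem_range] at hk'
      rw [Nat.choose_eq_zero_of_lt (by omega), zero_smul]
  have hP0 : P ≠ 0 := by
    intro h0
    have := hev s₀
    rw [h0, eval_zero] at this
    exact hne this.symm
  have hdeg : P.natDegree ≤ n := by
    rw [hP]
    refine natDegree_sum_le_of_forall_le _ _ fun k hk => ?_
    rw [mem_range] at hk
    refine (natDegree_C_mul_le _ _).trans ?_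
    rw [descPochhammer_natDegree]
    omega
  calc S.card = (S.map ⟨fun s : ℕ => (s : ℚ), Nat.cast_injective⟩).card := (card_map _).symm
    _ ≤ P.roots.toFinset.card := by
        refine card_le_card fun z hz => ?_
        obtain ⟨s, hs, rfl⟩ := mem_map.1 hz
        rw [Multiset.mem_toFinset, mem_roots hP0, IsRoot.def]
        show P.eval (s : ℚ) = 0
        rw [hev, hS s hs]
    _ ≤ Multiset.card P.roots := Multiset.toFinset_card_le _
    _ ≤ P.natDegree := card_roots' P
    _ ≤ n := hdeg

section
variable {K : Type*} [Group K]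

theorem pol_pow {n : ℕ} {F : K → ℚ} (hF : Pol n F) (p γ q : K) (s : ℕ) :
    (fwdDiff 1)^[n] (fun s : ℕ => F (p * γ ^ s * q)) s = 0 := by
  induction n generalizing F with
  | zero => exact hF _
  | succ n ih =>
    rw [Function.iterate_succ_apply]
    have e : fwdDiff 1 (fun s : ℕ => F (p * γ ^ s * q)) =
        fun s : ℕ => D (p * γ * p⁻¹) F (p * γ ^ s * q) := by
      funext s
      simp only [fwdDiff, D]
      congr 2
      rw [pow_succ']
      group
    rw [e]
    exact ih (hF _)

/-- Few values of a non-constant function of finite degree along powers are equal. -/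
theorem zeros_pow {n : ℕ} {F : K → ℚ} (hF : Pol (n + 1) F) (p γ q : K) (c : ℚ) {s₀ : ℕ}
    (hne : F (p * γ ^ s₀ * q) ≠ c) (S : Finset ℕ) (hS : ∀ s ∈ S, F (p * γ ^ s * q) = c) :
    S.card ≤ n := by
  have hc : Pol (n + 1) (fun _ : K => c) := by
    intro g
    have : D g (fun _ : K => c) = fun _ => 0 := by
      funext p; simp [D]
    rw [this]
    exact Pol.zero n
  have h1 : Pol (n + 1) (fun p => F p - c) := hF.sub hc
  exact zeros_le (f := fun s : ℕ => F (p * γ ^ s * q) - c) (fun s => pol_pow h1 p γ q s)
    (sub_ne_zero.2 hne) S fun s hs => sub_eq_zero.2 (hS s hs)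

end

/-- Elements of torsion-free groups are detected by rational characters. -/
theorem exists_char {A : Type*} [AddCommGroup A]
    (htf : ∀ (n : ℕ) (a : A), n ≠ 0 → n • a = 0 → a = 0) {a : A} (ha : a ≠ 0) :
    ∃ φ : A →+ ℚ, φ a ≠ 0 := by
  have hinj : Function.Injective ((zmultiplesHom A) a) := by
    rw [injective_iff_map_eq_zero]
    intro z hz
    rw [zmultiplesHom_apply] at hz
    by_contra hz0
    apply ha
    refine htf z.natAbs a (Int.natAbs_ne_zero.2 hz0) ?_
    rcases Int.natAbs_eq z with h | h
    · rw [h, natCast_zsmul] at hz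
      exact hz
    · rw [h, neg_zsmul, natCast_zsmul, neg_eq_zero] at hz
      exact hz
  obtain ⟨φ, hφ⟩ := (Module.Baer.of_divisible ℚ).extension_property_addMonoidHom _ hinj
    (Int.castAddHom ℚ)
  refine ⟨φ, ?_⟩
  have h1 := DFunLike.congr_fun hφ 1
  simp at h1
  rw [h1]
  exact one_ne_zero

end Pool.Agent.Helper69.LW
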