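import Pool.Agent.Helper69.LW.Count
import Pool.Agent.Helper69.LW.Zeros

/-!
# Anti-concentration of functions of finite degree on random products
-/

set_option autoImplicit false

namespace Pool.Agent.Helper69.LW

open Finset Pool.Agent.Y466.RW

/-- The bound. -/
noncomputable def rt (r : ℝ) (n N : ℕ) : ℝ := n * Real.sqrt (2 ^ n * r ^ 2 ^ n / (N + 1))

theorem rt_nonneg (r : ℝ) (n N : ℕ) : 0 ≤ rt r n N := by
  unfold rt
  positivity

/-- The bound of one step. -/
noncomputable def st (r : ℝ) (n N : ℕ) : ℝ :=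
  Real.sqrt (((2 : ℝ) ^ n - 1) * r ^ (2 ^ n - 1) / (2 * (N + 1)))

theorem st_nonneg (r : ℝ) (n N : ℕ) : 0 ≤ st r n N := Real.sqrt_nonneg _

theorem st_mono {r : ℝ} (hr : 2 ≤ r) {n m : ℕ} (h : n ≤ m) (N : ℕ) : st r n N ≤ st r m N := by
  unfold st
  refine Real.sqrt_le_sqrt (div_le_div_of_nonneg_right ?_ (by positivity))
  have h1 : (1 : ℝ) ≤ 2 ^ n := one_le_pow₀ (by norm_num)
  have h2 : (2 : ℝ) ^ n ≤ 2 ^ m := pow_le_pow_right₀ (by norm_num) h
  have h3 : r ^ (2 ^ n - 1) ≤ r ^ (2 ^ m - 1) :=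
    pow_le_pow_right₀ (by linarith) (Nat.sub_le_sub_right (Nat.pow_le_pow_right (by norm_num) h) 1)
  exact mul_le_mul (by linarith) h3 (by positivity) (by linarith)

theorem st_le {r : ℝ} (hr : 2 ≤ r) (n N : ℕ) :
    st r n N ≤ Real.sqrt (2 ^ n * r ^ 2 ^ n / (N + 1)) / 2 := by
  have h4 : Real.sqrt (2 ^ n * r ^ 2 ^ n / (N + 1)) / 2 =
      Real.sqrt (2 ^ n * r ^ 2 ^ n / (N + 1) / 4) := by
    rw [Real.sqrt_div' _ (by norm_num : (0 : ℝ) ≤ 4)]
    congr 1
    rw [show (4 : ℝ) = 2 ^ 2 by norm_num, Real.sqrt_sq (by norm_num)]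
  rw [h4]
  unfold st
  refine Real.sqrt_le_sqrt ?_
  have hp : 1 ≤ 2 ^ n := Nat.one_le_two_pow
  have e : r ^ 2 ^ n = r ^ (2 ^ n - 1) * r := by
    rw [← pow_succ]
    congr 1
    omega
  rw [div_div, div_le_div_iff₀ (by positivity) (by positivity), e]
  have h1 : (1 : ℝ) ≤ 2 ^ n := one_le_pow₀ (by norm_num)
  have h2 : (0 : ℝ) ≤ r ^ (2 ^ n - 1) := by positivity
  have h3 : (0 : ℝ) < (N : ℝ) + 1 := by positivity
  have h5 : ((2 : ℝ) ^ n - 1) * r ^ (2 ^ n - 1) * 2 ≤ 2 ^ n * (r ^ (2 ^ n - 1) * r) := by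
    have h6 : ((2 : ℝ) ^ n - 1) * r ^ (2 ^ n - 1) ≤ 2 ^ n * r ^ (2 ^ n - 1) :=
      mul_le_mul_of_nonneg_right (by linarith) h2
    have h7 : (2 : ℝ) ^ n * r ^ (2 ^ n - 1) * 2 ≤ 2 ^ n * r ^ (2 ^ n - 1) * r :=
      mul_le_mul_of_nonneg_left hr (by positivity)
    nlinarith
  nlinarith [mul_le_mul_of_nonneg_right h5 h3.le]

theorem rt_step {r : ℝ} (hr : 2 ≤ r) (n N : ℕ) :
    rt r n N + (n + 1) * st r (n + 1) N ≤ rt r (n + 1) N := by
  have h1 := st_le hr (n + 1) N
  have h0 : (0 : ℝ) ≤ Real.sqrt (2 ^ (n + 1) * r ^ 2 ^ (n + 1) / (N + 1)) := Real.sqrt_nonneg _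
  rcases Nat.eq_zero_or_pos n with rfl | hn
  · unfold rt
    push_cast
    have := st_nonneg r 1 N
    simp only [zero_add] at h1 h0 ⊢
    nlinarith
  · have h2 : Real.sqrt (2 ^ n * r ^ 2 ^ n / (N + 1)) ≤
        Real.sqrt (2 ^ (n + 1) * r ^ 2 ^ (n + 1) / (N + 1)) / 2 := by
      have h4 : Real.sqrt (2 ^ (n + 1) * r ^ 2 ^ (n + 1) / (N + 1)) / 2 =
          Real.sqrt (2 ^ (n + 1) * r ^ 2 ^ (n + 1) / (N + 1) / 4) := by
        rw [Real.sqrt_div' _ (by norm_num : (0 : ℝ) ≤ 4)]
        congr 1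
        rw [show (4 : ℝ) = 2 ^ 2 by norm_num, Real.sqrt_sq (by norm_num)]
      rw [h4]
      refine Real.sqrt_le_sqrt ?_
      rw [div_div, div_le_div_iff₀ (by positivity) (by positivity)]
      have e : r ^ 2 ^ (n + 1) = r ^ 2 ^ n * r ^ 2 ^ n := by rw [← pow_add]; congr 1; ring
      have h5 : (2 : ℝ) ≤ r ^ 2 ^ n := by
        calc (2 : ℝ) ≤ r := hr
          _ = r ^ 1 := (pow_one r).symm
          _ ≤ r ^ 2 ^ n := pow_le_pow_right₀ (by linarith) Nat.one_le_two_pow
      rw [e, pow_succ]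
      have h6 : (0 : ℝ) < (N : ℝ) + 1 := by positivity
      have h7 : (0 : ℝ) ≤ 2 ^ n * r ^ 2 ^ n := by positivity
      have h8 : 2 ^ n * r ^ 2 ^ n * 4 ≤ 2 ^ n * 2 * (r ^ 2 ^ n * r ^ 2 ^ n) := by nlinarith
      nlinarith [mul_le_mul_of_nonneg_right h8 h6.le]
    unfold rt
    push_cast
    have hn1 : (1 : ℝ) ≤ n := by exact_mod_cast hn
    have := st_nonneg r (n + 1) N
    nlinarith

section
variable {L : Type*} {K : Type*} [Group K]

theorem exists_fn {X : Type*} (u : List X) {m : ℕ} (h : u.length = m) :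
    ∃ U : Fin m → X, List.ofFn U = u := by
  subst h
  exact ⟨u.get, List.ofFn_get u⟩

theorem pr_ofFn (x : Option L → K) {m : ℕ} (U : Fin m → Option L) :
    pr x U = val x (List.ofFn U) := by
  unfold pr val
  rw [List.map_ofFn]
  rfl

/-- The words of a pair as sequences. -/
theorem Lev.fn {x : Option L → K} {k : ℕ} {u u' : List (Option L)} (h : Lev L k u u')
    (hne : quo x u u' ≠ 1) : ∃ U U' : Fin (2 ^ (k + 1) - 1) → Option L, U ≠ U' ∧
      pr x U' = quo x u u' * pr x U := by
  obtain ⟨h1, h2⟩ := h.length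
  obtain ⟨U, hU⟩ := exists_fn u (m := 2 ^ (k + 1) - 1) (by omega)
  obtain ⟨U', hU'⟩ := exists_fn u' (m := 2 ^ (k + 1) - 1) (by omega)
  refine ⟨U, U', ?_, ?_⟩
  · rintro rfl
    rw [hU] at hU'
    subst hU'
    apply hne
    unfold quo
    rw [mul_inv_cancel]
  · rw [pr_ofFn, pr_ofFn, hU, hU', ← val_quo]

theorem not_mem_ker_ne {A : Type*} {F : K → A} {c : K} (h : c ∉ Ker F) : c ≠ 1 := by
  rintro rfl
  exact h (Ker F).one_mem

/-- Central elements modulo the kernel. -/
theorem ker_comm {A : Type*} {F : K → A} {c : K} (h : ∀ g, c * g * c⁻¹ * g⁻¹ ∈ Ker F) (a g b : K) :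
    F (a * c * g * b) = F (a * g * c * b) := by
  have h1 := h g a (g * c * b)
  have e1 : a * (c * g * c⁻¹ * g⁻¹) * (g * c * b) = a * c * g * b := by group
  have e2 : a * (g * c * b) = a * g * c * b := by group
  rw [e1, e2] at h1
  exact h1

variable [Fintype L]

open Classical in
/-- **Anti-concentration** for rational functions. -/
theorem anti_rat {x : Option L → K} (hx : x none = 1)
    (hg : Subgroup.closure (Set.range x) = ⊤) (n : ℕ) : ∀ {F : K → ℚ}, Pol (n + 1) F →
      ∀ {p q : K}, F p ≠ F q → ∀ (N : ℕ) (c : ℚ),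
      (#{w : Fin N → Option L | F (pr x w) = c} : ℝ) ≤
        rt (Fintype.card (Option L)) n N * (Fintype.card (Option L) : ℝ) ^ N := by
  have hX1 : (0 : ℝ) ≤ Fintype.card (Option L) := Nat.cast_nonneg _
  induction n with
  | zero =>
    intro F hF p q hne
    exact absurd (hF.const p q) hne
  | succ n ih =>
    intro F hF p q hne N c
    obtain ⟨k, hk, u, u', hl, h1, h2⟩ := exists_pair hx hg hF hne
    set γ := quo x u u' with hγ
    obtain ⟨U, U', hU, hUU⟩ := hl.fn (not_mem_ker_ne h1)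
    have hcard : (2 : ℝ) ≤ Fintype.card (Option L) := by
      obtain ⟨i, hi⟩ := Function.ne_iff.1 hU
      have := card_le_univ ({U i, U' i} : Finset (Option L))
      rw [card_pair hi] at this
      exact_mod_cast this
    have hcom := ker_comm h2
    -- the difference
    have hD : Pol (n + 1) (D γ F) :=
      Pol.mono (m := n + 1 - k) (by omega) (hl.low x _ F (by
        rw [show n + 1 - k + (k + 1) = n + 1 + 1 by omega]; exact hF))
    have hDne : ∃ a, D γ F a ≠ 0 := by
      by_contra hcon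
      push Not at hcon
      apply h1
      intro a b
      have h3 := hcom 1 a b
      rw [one_mul, one_mul] at h3
      have h4 := hcon (a * b)
      unfold D at h4
      rw [← h3, mul_assoc, sub_eq_zero.1 h4]
    have hDcom : ∀ a g b, D γ F (a * γ * g * b) = D γ F (a * g * γ * b) := by
      intro a g b
      unfold D
      have h3 := hcom (γ * a) g b
      have e1 : γ * (a * γ * g * b) = γ * a * γ * g * b := by simp only [mul_assoc]
      have e2 : γ * (a * g * γ * b) = γ * a * g * γ * b := by simp only [mul_assoc]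
      rw [e1, e2, h3, hcom]
    -- words on which the difference vanishes
    have hA : (#{w : Fin N → Option L | D γ F (pr x w) = 0} : ℝ) ≤
        rt (Fintype.card (Option L)) n N * (Fintype.card (Option L) : ℝ) ^ N := by
      by_cases hcc : ∃ a b, D γ F a ≠ D γ F b
      · obtain ⟨a, b, hab⟩ := hcc
        exact ih hD hab N 0
      · push Not at hcc
        obtain ⟨a, ha⟩ := hDne
        have : (univ.filter fun w : Fin N → Option L => D γ F (pr x w) = 0) = ∅ := by
          rw [filter_eq_empty_iff]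
          intro w _ hw
          rw [hcc _ a] at hw
          exact ha hw
        rw [this, card_empty]
        push_cast
        exact mul_nonneg (rt_nonneg _ _ _) (by positivity)
    -- the other words
    have hB : (#{w : Fin N → Option L | F (pr x w) = c ∧ D γ F (pr x w) ≠ 0} : ℝ) ≤
        (n + 1) * st (Fintype.card (Option L)) (n + 1) N * (Fintype.card (Option L) : ℝ) ^ N := by
      have h5 := count_words (ι := Unit) x (fun _ => 1) (γ := γ)
        (E := fun p => F p = c ∧ D γ F p ≠ 0) (Q := fun _ => True) (n := n + 1) (B := 1)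
        (fun a g b => by rw [hcom, hDcom]) (fun p q s hs => by
          rcases s.eq_empty_or_nonempty with rfl | ⟨k₀, hk₀⟩
          · simp
          · have h6 := (hs k₀ hk₀).2
            have h7 : F (p * γ ^ (k₀ + 1) * q) ≠ c := by
              have h8 := (hs k₀ hk₀).1
              intro h9
              apply h6
              unfold D
              have h10 := hcom 1 (p * γ ^ k₀) q
              have e1 : (1 : K) * γ * (p * γ ^ k₀) * q = γ * (p * γ ^ k₀ * q) := by
                simp only [mul_assoc, one_mul]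
              have e2 : (1 : K) * (p * γ ^ k₀) * γ * q = p * γ ^ (k₀ + 1) * q := by
                rw [pow_succ]; simp only [mul_assoc, one_mul]
              rw [e1, e2, h9] at h10
              rw [h10, h8, sub_self]
            exact zeros_pow hF p γ q c h7 s fun k hk => (hs k hk).1)
        (fun _ _ => trivial) (fun _ _ => Iff.rfl) (fun q => by simp) hU hUU N
      have e2 : (#{w : Fin N → Option L | F (pr x w) = c ∧ D γ F (pr x w) ≠ 0} : ℝ) ≤
          ((1 : ℕ) : ℝ) * ((n + 1 : ℕ) : ℝ) * ((Fintype.card (Option L) : ℝ) ^ N *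
          Real.sqrt (((2 ^ (k + 1) - 1 : ℕ) : ℝ) *
          (Fintype.card (Option L) : ℝ) ^ (2 ^ (k + 1) - 1) / (2 * (N + 1)))) := by
        refine le_trans (le_of_eq ?_) h5
        norm_cast
        rw [card_filter, card_filter, Fintype.sum_prod_type]
        refine Eq.trans ?_ (Fintype.sum_unique (ι := Unit) _).symm
        refine sum_congr rfl fun w _ => ?_
        simp only [one_mul]
      refine e2.trans ?_
      have hm : ((2 ^ (k + 1) - 1 : ℕ) : ℝ) = (2 : ℝ) ^ (k + 1) - 1 := by
        rw [Nat.cast_sub Nat.one_le_two_pow]; push_cast; rfl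
      have h6 := st_mono hcard (show k + 1 ≤ n + 1 by omega) N
      have h7 : Real.sqrt (((2 ^ (k + 1) - 1 : ℕ) : ℝ) *
          (Fintype.card (Option L) : ℝ) ^ (2 ^ (k + 1) - 1) / (2 * (N + 1))) =
          st (Fintype.card (Option L)) (k + 1) N := by
        unfold st; rw [hm]
      rw [h7]
      push_cast
      have h8 : (0 : ℝ) ≤ (Fintype.card (Option L) : ℝ) ^ N := by positivity
      have h9 := mul_le_mul_of_nonneg_right h6 h8
      have h10 : (0 : ℝ) ≤ (n : ℝ) + 1 := by positivity
      calc (1 : ℝ) * (n + 1) * ((Fintype.card (Option L) : ℝ) ^ N * st (Fintype.card (Option L))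
            (k + 1) N) = (n + 1) * (st (Fintype.card (Option L)) (k + 1) N *
            (Fintype.card (Option L) : ℝ) ^ N) := by ring
        _ ≤ (n + 1) * (st (Fintype.card (Option L)) (n + 1) N *
            (Fintype.card (Option L) : ℝ) ^ N) := mul_le_mul_of_nonneg_left h9 h10
        _ = _ := by ring
    have hC : (#{w : Fin N → Option L | F (pr x w) = c} : ℝ) ≤
        #{w : Fin N → Option L | D γ F (pr x w) = 0} +
        #{w : Fin N → Option L | F (pr x w) = c ∧ D γ F (pr x w) ≠ 0} := by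
      have : #{w : Fin N → Option L | F (pr x w) = c} ≤
          #{w : Fin N → Option L | D γ F (pr x w) = 0} +
          #{w : Fin N → Option L | F (pr x w) = c ∧ D γ F (pr x w) ≠ 0} := by
        refine le_trans (card_le_card fun w hw => ?_) (card_union_le _ _)
        rw [mem_union, mem_filter, mem_filter]
        by_cases h : D γ F (pr x w) = 0
        · exact Or.inl ⟨mem_univ _, h⟩
        · exact Or.inr ⟨mem_univ _, (mem_filter.1 hw).2, h⟩
      exact_mod_cast this
    have hE := mul_le_mul_of_nonneg_right (rt_step hcard n N)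
      (show (0 : ℝ) ≤ (Fintype.card (Option L) : ℝ) ^ N by positivity)
    rw [add_mul] at hE
    linarith

end

end Pool.Agent.Helper69.LW
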