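import Pool.Agent.Helper69.LW.Pol

/-!
# Means of functions of finite degree on random products
-/

set_option autoImplicit false

namespace Pool.Agent.Helper69.LW

open Finset Polynomial

/-- The mean of a function on a finite set. -/
def Mean {α : Type*} [Fintype α] (f : α → ℚ) : ℚ := (∑ a, f a) / Fintype.card α

section
variable {α β : Type*} [Fintype α] [Fintype β]

theorem mean_add (f g : α → ℚ) : Mean (fun a => f a + g a) = Mean f + Mean g := by
  unfold Mean
  rw [sum_add_distrib, add_div]

theorem mean_sub (f g : α → ℚ) : Mean (fun a => f a - g a) = Mean f - Mean g := by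
  unfold Mean
  rw [sum_sub_distrib, sub_div]

theorem mean_mul_left (c : ℚ) (f : α → ℚ) : Mean (fun a => c * f a) = c * Mean f := by
  unfold Mean
  rw [← mul_sum, mul_div_assoc]

theorem mean_mul_right (c : ℚ) (f : α → ℚ) : Mean (fun a => f a * c) = Mean f * c := by
  simp only [mul_comm _ c, mean_mul_left]

theorem mean_zero : Mean (fun _ : α => (0 : ℚ)) = 0 := by
  unfold Mean
  simp

theorem mean_const [Nonempty α] (c : ℚ) : Mean (fun _ : α => c) = c := by
  unfold Mean
  rw [sum_const, card_univ, nsmul_eq_mul, mul_div_assoc, mul_div_cancel₀]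
  exact_mod_cast Fintype.card_ne_zero

theorem mean_mono {f g : α → ℚ} (h : ∀ a, f a ≤ g a) : Mean f ≤ Mean g := by
  unfold Mean
  exact div_le_div_of_nonneg_right (sum_le_sum fun a _ => h a) (Nat.cast_nonneg _)

theorem mean_nonneg {f : α → ℚ} (h : ∀ a, 0 ≤ f a) : 0 ≤ Mean f := by
  have := mean_mono (f := fun _ => 0) h
  rwa [mean_zero] at this

theorem mean_comm (f : α → β → ℚ) :
    Mean (fun a => Mean fun b => f a b) = Mean fun b => Mean fun a => f a b := by
  unfold Mean
  rw [← sum_div, ← sum_div, sum_comm, div_div, div_div, mul_comm]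

theorem mean_equiv (e : α ≃ β) (f : β → ℚ) : Mean (fun a => f (e a)) = Mean f := by
  unfold Mean
  rw [Fintype.card_congr e, Equiv.sum_comp e f]

theorem mean_prod (f : α × β → ℚ) : Mean f = Mean fun a => Mean fun b => f (a, b) := by
  unfold Mean
  rw [← sum_div, Fintype.sum_prod_type, Fintype.card_prod, div_div]
  push_cast
  rw [mul_comm]

theorem mean_cons {N : ℕ} (f : (Fin (N + 1) → α) → ℚ) :
    Mean f = Mean fun a => Mean fun w : Fin N → α => f (Fin.cons a w) := by
  rw [← mean_equiv (Fin.consEquiv fun _ => α) f, mean_prod]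
  rfl

theorem mean_cs (f g : α → ℚ) :
    Mean (fun a => f a * g a) ^ 2 ≤ (Mean fun a => f a ^ 2) * Mean fun a => g a ^ 2 := by
  unfold Mean
  rw [div_pow, div_mul_div_comm, ← sq]
  exact div_le_div_of_nonneg_right (sum_mul_sq_le_sq_mul_sq _ _ _) (by positivity)

theorem mean_eq_zero {f : α → ℚ} (h : ∀ a, 0 ≤ f a) (h0 : Mean f = 0) (a : α) : f a = 0 := by
  have : Nonempty α := ⟨a⟩
  unfold Mean at h0
  rw [div_eq_zero_iff] at h0
  rcases h0 with h0 | h0
  · exact (sum_eq_zero_iff_of_nonneg fun b _ => h b).1 h0 a (mem_univ _)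
  · exact absurd h0 (by exact_mod_cast Fintype.card_ne_zero)

/-- The mean of the squares. -/
theorem mean_sq_le [Nonempty α] {f : α → ℚ} (h : ∀ a, 0 ≤ f a) :
    Mean (fun a => f a ^ 2) ≤ Fintype.card α * Mean f ^ 2 := by
  have hc : (0 : ℚ) < Fintype.card α := by exact_mod_cast Fintype.card_pos
  have h1 : ∑ a, f a ^ 2 ≤ (∑ a, f a) ^ 2 := sum_sq_le_sq_sum_of_nonneg fun a _ => h a
  unfold Mean
  rw [div_pow, div_le_iff₀ hc]
  have : (Fintype.card α : ℚ) * ((∑ a, f a) ^ 2 / (Fintype.card α : ℚ) ^ 2) * Fintype.card α =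
      (∑ a, f a) ^ 2 := by
    field_simp
  rw [this]
  exact h1

end

section
variable {K : Type*} [Group K]

theorem Pol.sum {ι A : Type*} [AddCommGroup A] {n : ℕ} {s : Finset ι} {F : ι → K → A}
    (h : ∀ i ∈ s, Pol n (F i)) : Pol n fun p => ∑ i ∈ s, F i p := by
  classical
  induction s using Finset.induction_on with
  | empty =>
    simp only [sum_empty]
    exact Pol.zero n
  | insert i s hi ih =>
    simp only [sum_insert hi]
    exact (h i (mem_insert_self _ _)).add (ih fun j hj => h j (mem_insert_of_mem hj))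

theorem Pol.smul {n : ℕ} {F : K → ℚ} (h : Pol n F) (c : ℚ) : Pol n fun p => c * F p :=
  h.map (AddMonoidHom.mulLeft c)

theorem pol_const (c : ℚ) : Pol 1 fun _ : K => c := by
  intro g p
  simp [D]

theorem Pol.mean {α : Type*} [Fintype α] {n : ℕ} {F : α → K → ℚ} (h : ∀ a, Pol n (F a)) :
    Pol n fun p => Mean fun a => F a p := by
  have h1 := (Pol.sum (s := univ) fun a _ => h a).smul ((Fintype.card α : ℚ)⁻¹)
  have e : (fun p => Mean fun a => F a p) = fun p => (Fintype.card α : ℚ)⁻¹ * ∑ a, F a p := by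
    funext p
    unfold Mean
    rw [div_eq_inv_mul]
  rw [e]
  exact h1

/-- Products. -/
theorem Pol.mul (s : ℕ) : ∀ {m n : ℕ} {F G : K → ℚ}, m + n = s → Pol (m + 1) F → Pol (n + 1) G →
    Pol (s + 1) fun p => F p * G p := by
  induction s with
  | zero =>
    intro m n F G hmn hF hG
    have hm : m = 0 := by omega
    have hn : n = 0 := by omega
    subst hm
    subst hn
    intro g p
    show F (g * p) * G (g * p) - F p * G p = 0
    rw [hF.const (g * p) p, hG.const (g * p) p, sub_self]
  | succ s ih =>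
    intro m n F G hmn hF hG g
    have e : D g (fun p => F p * G p) = fun p => D g F p * G (g * p) + F p * D g G p := by
      funext p
      simp only [D]
      ring
    rw [e]
    refine Pol.add ?_ ?_
    · rcases m with _ | m
      · have : (fun p => D g F p * G (g * p)) = fun _ => 0 := by
          funext p
          rw [show D g F p = 0 from hF g p, zero_mul]
        rw [this]
        exact Pol.zero _
      · exact ih (m := m) (n := n) (by omega) (hF g) (hG.left g)
    · rcases n with _ | n
      · have : (fun p => F p * D g G p) = fun _ => 0 := by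
          funext p
          rw [show D g G p = 0 from hG g p, mul_zero]
        rw [this]
        exact Pol.zero _
      · exact ih (m := m) (n := n) (by omega) hF (hG g)

theorem Pol.finprod {ι : Type*} {s : Finset ι} {F : ι → K → ℚ} {n : ι → ℕ}
    (h : ∀ i ∈ s, Pol (n i + 1) (F i)) : Pol (∑ i ∈ s, n i + 1) fun p => ∏ i ∈ s, F i p := by
  classical
  induction s using Finset.induction_on with
  | empty =>
    simp only [sum_empty, prod_empty, zero_add]
    exact pol_const 1
  | insert i s hi ih =>
    simp only [sum_insert hi, prod_insert hi]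
    exact Pol.mul _ rfl (h i (mem_insert_self _ _)) (ih fun j hj => h j (mem_insert_of_mem hj))

theorem Pol.pow {n : ℕ} {F : K → ℚ} (h : Pol (n + 1) F) (k : ℕ) :
    Pol (k * n + 1) fun p => F p ^ k := by
  have := Pol.finprod (s := range k) (F := fun _ => F) (n := fun _ => n) fun _ _ => h
  simpa using this

end

section
variable {α K : Type*} [Fintype α] [Group K]

/-- The mean of `f` over the lists of length `N`. -/
def EL : ℕ → (List α → ℚ) → ℚ
  | 0, f => f []
  | N + 1, f => Mean fun a => EL N fun l => f (a :: l)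

theorem EL_eq (N : ℕ) (f : List α → ℚ) : EL N f = Mean fun w : Fin N → α => f (List.ofFn w) := by
  induction N generalizing f with
  | zero =>
    show f [] = _
    simp only [List.ofFn_zero]
    rw [mean_const]
  | succ N ih =>
    rw [mean_cons]
    show (Mean fun a => EL N fun l => f (a :: l)) = _
    congr 1
    funext a
    rw [ih]
    congr 1
    funext w
    rw [List.ofFn_succ]
    rfl

theorem EL_add (N : ℕ) (f g : List α → ℚ) : EL N (fun l => f l + g l) = EL N f + EL N g := by
  rw [EL_eq, EL_eq, EL_eq, mean_add]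

theorem EL_sub (N : ℕ) (f g : List α → ℚ) : EL N (fun l => f l - g l) = EL N f - EL N g := by
  rw [EL_eq, EL_eq, EL_eq, mean_sub]

theorem EL_mul_left (N : ℕ) (c : ℚ) (f : List α → ℚ) : EL N (fun l => c * f l) = c * EL N f := by
  rw [EL_eq, EL_eq, mean_mul_left]

theorem EL_zero (N : ℕ) : EL N (fun _ : List α => (0 : ℚ)) = 0 := by
  rw [EL_eq, mean_zero]

theorem EL_const [Nonempty α] (N : ℕ) (c : ℚ) : EL N (fun _ : List α => c) = c := by
  rw [EL_eq, mean_const]

theorem EL_mono {N : ℕ} {f g : List α → ℚ} (h : ∀ l, f l ≤ g l) : EL N f ≤ EL N g := by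
  rw [EL_eq, EL_eq]
  exact mean_mono fun w => h _

theorem EL_nonneg {N : ℕ} {f : List α → ℚ} (h : ∀ l, 0 ≤ f l) : 0 ≤ EL N f := by
  rw [EL_eq]
  exact mean_nonneg fun w => h _

theorem EL_mean {β : Type*} [Fintype β] (N : ℕ) (f : β → List α → ℚ) :
    EL N (fun l => Mean fun b => f b l) = Mean fun b => EL N (f b) := by
  rw [EL_eq, mean_comm]
  congr 1
  funext b
  rw [EL_eq]

theorem EL_cs (N : ℕ) (f g : List α → ℚ) :
    EL N (fun l => f l * g l) ^ 2 ≤ (EL N fun l => f l ^ 2) * EL N fun l => g l ^ 2 := by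
  rw [EL_eq, EL_eq, EL_eq]
  exact mean_cs _ _

/-- The product of the letters. -/
def vl (x : α → K) (l : List α) : K := (l.map x).prod

omit [Fintype α] in
theorem vl_cons (x : α → K) (a : α) (l : List α) : vl x (a :: l) = x a * vl x l := by
  unfold vl
  rw [List.map_cons, List.prod_cons]

/-- The mean of `F` over the products of `N` letters. -/
def EP (x : α → K) (N : ℕ) (F : K → ℚ) : ℚ := EL N fun l => F (vl x l)

theorem EP_succ (x : α → K) (N : ℕ) (F : K → ℚ) :
    EP x (N + 1) F = Mean fun a => EP x N fun p => F (x a * p) := by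
  show (Mean fun a => EL N fun l => F (vl x (a :: l))) = _
  simp only [vl_cons]
  rfl

/-- The difference operator of the random walk. -/
def U (x : α → K) (F : K → ℚ) : K → ℚ := fun p => Mean fun a => D (x a) F p

theorem EP_diff [Nonempty α] (x : α → K) (N : ℕ) (F : K → ℚ) :
    EP x (N + 1) F - EP x N F = EP x N (U x F) := by
  rw [EP_succ]
  unfold EP U
  rw [EL_mean]
  unfold D
  simp only [EL_sub]
  rw [mean_sub, mean_const]

theorem pol_U {x : α → K} {n : ℕ} {F : K → ℚ} (h : Pol (n + 1) F) : Pol n (U x F) :=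
  Pol.mean fun a => h (x a)

/-- Symmetric steps lower the degree by `2`. -/
theorem pol_U_sym {x : α → K} {ι : α → α} (hι : Function.Involutive ι)
    (hx : ∀ a, x (ι a) = (x a)⁻¹) {n : ℕ} {F : K → ℚ} (h : Pol (n + 2) F) : Pol n (U x F) := by
  have e : U x F = fun p => (1 / 2) * Mean fun a => D (x a) (D (x a) F) ((x a)⁻¹ * p) := by
    funext p
    have h1 : U x F p = Mean fun a => D (x a)⁻¹ F p := by
      unfold U
      rw [← mean_equiv hι.toPerm]
      congr 1
      funext a
      show D (x (ι a)) F p = _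
      rw [hx]
    have h2 : U x F p = (1 / 2) * (U x F p + U x F p) := by ring
    rw [h2]
    nth_rewrite 2 [h1]
    unfold U
    rw [← mean_add]
    congr 2
    funext a
    simp only [D, mul_inv_cancel_left]
    ring
  rw [e]
  refine Pol.smul (Pol.mean fun a => ?_) _
  exact (h (x a) (x a)).left (x a)⁻¹

/-- Sequences with vanishing differences are polynomials. -/
theorem poly_of_fwdDiff {f : ℕ → ℚ} {n : ℕ} (h : (fwdDiff (1 : ℕ))^[n + 1] f = 0) :
    ∃ P : ℚ[X], P.natDegree ≤ n ∧ ∀ N : ℕ, f N = P.eval (N : ℚ) := by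
  have hz : ∀ k ≥ n + 1, (fwdDiff (1 : ℕ))^[k] f = 0 := by
    intro k hk
    obtain ⟨j, rfl⟩ := Nat.exists_eq_add_of_le' hk
    rw [Function.iterate_add_apply, h]
    clear h hk
    induction j with
    | zero => rfl
    | succ j ih =>
      rw [Function.iterate_succ_apply', ih]
      funext y
      simp [fwdDiff]
  refine ⟨∑ k ∈ range (n + 1), C ((fwdDiff (1 : ℕ))^[k] f 0 / (k.factorial : ℚ)) *
    descPochhammer ℚ k, ?_, fun N => ?_⟩
  · refine natDegree_sum_le_of_forall_le _ _ fun k hk => ?_
    refine (natDegree_C_mul_le _ _).trans ?_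
    rw [descPochhammer_natDegree]
    have := mem_range.1 hk
    omega
  · have h1 := shift_eq_sum_fwdDiff_iter (1 : ℕ) f N 0
    rw [smul_eq_mul, mul_one, zero_add] at h1
    rw [h1, eval_finsetSum]
    have h2 : ∀ k, N.choose k • (fwdDiff (1 : ℕ))^[k] f 0 =
        eval (N : ℚ) (C ((fwdDiff (1 : ℕ))^[k] f 0 / (k.factorial : ℚ)) * descPochhammer ℚ k) := by
      intro k
      rw [eval_mul, eval_C, descPochhammer_eval_eq_descFactorial,
        Nat.descFactorial_eq_factorial_mul_choose, nsmul_eq_mul]
      push_cast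
      have : (k.factorial : ℚ) ≠ 0 := by exact_mod_cast k.factorial_ne_zero
      field_simp
    simp only [h2]
    rcases le_total (N + 1) (n + 1) with hN | hN
    · refine sum_subset (range_subset_range.2 hN) fun k _ hk => ?_
      rw [← h2, Nat.choose_eq_zero_of_lt (by rw [mem_range] at hk; omega), zero_smul]
    · refine (sum_subset (range_subset_range.2 hN) fun k _ hk => ?_).symm
      rw [← h2, hz k (by rw [mem_range] at hk; omega)]
      simp

theorem fwdDiff_EP [Nonempty α] (x : α → K) (F : K → ℚ) (n : ℕ) :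
    (fwdDiff (1 : ℕ))^[n] (fun N => EP x N F) = fun N => EP x N ((U x)^[n] F) := by
  induction n generalizing F with
  | zero => rfl
  | succ n ih =>
    rw [Function.iterate_succ_apply, Function.iterate_succ_apply, ← ih]
    congr 1
    funext N
    exact EP_diff x N F

/-- **The means are polynomials in the length.** -/
theorem EP_poly [Nonempty α] (x : α → K) {F : K → ℚ} {n : ℕ} (h : Pol (n + 1) F) :
    ∃ P : ℚ[X], P.natDegree ≤ n ∧ ∀ N : ℕ, EP x N F = P.eval (N : ℚ) := by
  have h0 : ∀ (m : ℕ) (F : K → ℚ), Pol m F → (U x)^[m] F = fun _ => 0 := by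
    intro m
    induction m with
    | zero => intro F hF; funext p; exact hF p
    | succ m ih => intro F hF; rw [Function.iterate_succ_apply]; exact ih _ (pol_U hF)
  obtain ⟨P, hP, h1⟩ := poly_of_fwdDiff (f := fun N => EP x N F) (n := n) (by
    rw [fwdDiff_EP, h0 _ _ h]
    funext N
    exact EL_zero N)
  exact ⟨P, hP, h1⟩

/-- The same with symmetric steps. -/
theorem EP_poly_sym [Nonempty α] {x : α → K} {ι : α → α} (hι : Function.Involutive ι)
    (hx : ∀ a, x (ι a) = (x a)⁻¹) {F : K → ℚ} {n : ℕ} (h : Pol (n + 1) F) :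
    ∃ P : ℚ[X], P.natDegree ≤ n / 2 ∧ ∀ N : ℕ, EP x N F = P.eval (N : ℚ) := by
  have h0 : ∀ (m : ℕ) (F : K → ℚ), Pol (2 * m) F → (U x)^[m] F = fun _ => 0 := by
    intro m
    induction m with
    | zero => intro F hF; funext p; exact hF p
    | succ m ih =>
      intro F hF
      rw [Function.iterate_succ_apply]
      exact ih _ (pol_U_sym hι hx hF)
  obtain ⟨P, hP, h1⟩ := poly_of_fwdDiff (f := fun N => EP x N F) (n := n / 2) (by
    rw [fwdDiff_EP, h0 _ _ (h.mono (by omega))]
    funext N
    exact EL_zero N)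
  exact ⟨P, hP, h1⟩

end

end Pool.Agent.Helper69.LW
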