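import Pool.Agent.Helper69.LW.Ext
import Pool.Agent.Helper69.LW.Bridge
import Pool.Agent.Helper69.LW.GDefs

/-!
# Moments of finite type invariants on random products of Torelli elements
-/

set_option autoImplicit false

namespace Pool.Agent.Helper69.LW

open Finset Polynomial Pool.Agent.Y466.LM

section
variable {L : Type} {g : ℕ}

/-- `v` has degree at most `n` along the walk: the function `a ↦ v(M_{u₀ a_1 u_1 ⋯ a_k u_k})` on the
group generated by the letters is of degree less than `n + 1` (its `(n + 1)`-fold differences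
vanish). -/
def Along (W : Walk L g) (n : ℕ) (v : ∀ g : ℕ, MulAut (Fg g) → ℚ) : Prop :=
  Pol (n + 1) fun a : grp W => v g (put W a)

/-- The set of the letters is symmetric: the inverse of each letter is a letter. -/
def Symm (W : Walk L g) : Prop :=
  ∃ ι : L → L, Function.Involutive ι ∧ ∀ l, W.x (ι l) = (W.x l)⁻¹

/-- The function on the group generated by the letters. -/
def fn (W : Walk L g) (v : ∀ g : ℕ, MulAut (Fg g) → ℚ) (a : grp W) : ℚ := v g (put W a)

theorem letr_mem (W : Walk L g) (o : Option L) : letr W.x o ∈ grp W := by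
  cases o with
  | none => exact Subgroup.one_mem _
  | some s => exact Subgroup.subset_closure ⟨s, rfl⟩

/-- The letters. -/
def lt (W : Walk L g) (o : Option L) : grp W := ⟨letr W.x o, letr_mem W o⟩

theorem lt_none (W : Walk L g) : lt W none = 1 := rfl

theorem closure_lt (W : Walk L g) : Subgroup.closure (Set.range (lt W)) = ⊤ := by
  rw [eq_top_iff]
  rintro a -
  have h1 : grp W ≤ (Subgroup.closure (Set.range (lt W))).map (grp W).subtype := by
    unfold grp
    rw [Subgroup.closure_le]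
    rintro _ ⟨s, rfl⟩
    exact ⟨lt W (some s), Subgroup.subset_closure ⟨some s, rfl⟩, rfl⟩
  obtain ⟨b, hb, hab⟩ := h1 a.2
  have : b = a := Subtype.ext hab
  rwa [← this]

theorem vl_coe (W : Walk L g) (l : List (Option L)) :
    ((vl (lt W) l : grp W) : Fin W.k → Tor g) = (l.map (letr W.x)).prod := by
  unfold vl
  rw [Subgroup.val_list_prod, List.map_map]
  rfl

theorem at_fn (W : Walk L g) (v : ∀ g : ℕ, MulAut (Fg g) → ℚ) {N : ℕ} (w : Fin N → Option L) :
    v g (W.at w) = fn W v (vl (lt W) (List.ofFn w)) := by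
  rw [at_ins]
  unfold fn
  rw [vl_coe, List.map_ofFn]
  rfl

theorem along_of (W : Walk L g) {n : ℕ} {v : ∀ g : ℕ, MulAut (Fg g) → ℚ} (h : DegreeLE n v) :
    Along W n v := (pol_vf W h).hom (grp W).subtype

variable [Fintype L]

theorem mean_at (W : Walk L g) (N : ℕ) (Φ : grp W → ℚ) :
    (Mean fun w : Fin N → Option L => Φ (vl (lt W) (List.ofFn w))) = EP (lt W) N Φ := by
  unfold EP
  rw [EL_eq]

/-- The involution on the letters. -/
def inv' (ι : L → L) : Option L → Option L := Option.map ι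

omit [Fintype L] in
theorem inv'_invol {ι : L → L} (h : Function.Involutive ι) : Function.Involutive (inv' ι) := by
  intro o
  cases o with
  | none => rfl
  | some s => exact congrArg some (h s)

omit [Fintype L] in
theorem lt_inv' {W : Walk L g} {ι : L → L} (h : ∀ l, W.x (ι l) = (W.x l)⁻¹) (o : Option L) :
    lt W (inv' ι o) = (lt W o)⁻¹ := by
  apply Subtype.ext
  cases o with
  | none =>
    show (1 : Fin W.k → Tor g) = 1⁻¹
    rw [inv_one]
  | some s => exact h s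

theorem Prob_mean {β : Type} [Fintype β] (p : β → Prop) [DecidablePred p] :
    Prob p = ((Mean fun b => if p b then (1 : ℚ) else 0 : ℚ) : ℝ) := by
  unfold Prob Mean
  have h1 : (∑ b, if p b then (1 : ℚ) else 0) = ((univ.filter p).card : ℚ) := by
    rw [card_filter]
    push_cast
    rfl
  rw [h1]
  push_cast
  congr

theorem Prob_EP (W : Walk L g) (N : ℕ) (p : grp W → Prop) [DecidablePred p] :
    Prob (fun w : Fin N → Option L => p (vl (lt W) (List.ofFn w))) =
      ((EP (lt W) N fun a => if p a then (1 : ℚ) else 0 : ℚ) : ℝ) := by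
  rw [Prob_mean]
  unfold EP
  rw [EL_eq]

/-- The moments. -/
theorem moments₂ (W : Walk L g) {s : ℕ} (v : Fin s → ∀ g : ℕ, MulAut (Fg g) → ℚ) (n : Fin s → ℕ)
    (h : ∀ i, Along W (n i) (v i)) :
    ∃ P : ℚ[X], P.natDegree ≤ ∑ i, n i ∧ (Symm W → 2 * P.natDegree ≤ ∑ i, n i) ∧
      ∀ N : ℕ, Mean (fun w : Fin N → Option L => ∏ i, v i g (W.at w)) = P.eval (N : ℚ) := by
  have h1 : Pol (∑ i, n i + 1) fun a => ∏ i, fn W (v i) a := Pol.finprod fun i _ => h i
  have h2 : ∀ N : ℕ, Mean (fun w : Fin N → Option L => ∏ i, v i g (W.at w)) =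
      EP (lt W) N fun a => ∏ i, fn W (v i) a := by
    intro N
    rw [← mean_at]
    simp only [at_fn]
  simp only [h2]
  by_cases hs : Symm W
  · obtain ⟨ι, hι, hx⟩ := hs
    obtain ⟨P, hP, he⟩ := EP_poly_sym (inv'_invol hι) (lt_inv' hx) h1
    exact ⟨P, hP.trans (Nat.div_le_self _ _), fun _ => by omega, he⟩
  · obtain ⟨P, hP, he⟩ := EP_poly (lt W) h1
    exact ⟨P, hP, fun h => absurd h hs, he⟩

theorem kc_option : kc (Option L) = 3 * Fintype.card L + 16 := by
  unfold kc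
  rw [Fintype.card_option]
  push_cast
  ring

/-- The fourth moment. -/
theorem hyper₂ (W : Walk L g) {n : ℕ} {v : ∀ g : ℕ, MulAut (Fg g) → ℚ} (h : Along W n v) (N : ℕ) :
    Mean (fun w : Fin N → Option L => v g (W.at w) ^ 4) ≤
      (3 * (Fintype.card L : ℚ) + 16) ^ n * Mean (fun w : Fin N → Option L => v g (W.at w) ^ 2) ^ 2
      := by
  have h1 := hyper (lt W) N h
  rw [kc_option] at h1
  simp only [at_fn]
  rw [mean_at W N fun a => fn W v a ^ 4, mean_at W N fun a => fn W v a ^ 2]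
  exact h1

theorem paley₂ (W : Walk L g) {n : ℕ} {v : ∀ g : ℕ, MulAut (Fg g) → ℚ} (h : Along W n v) {N : ℕ}
    {w₀ : Fin N → Option L} (h0 : v g (W.at w₀) ≠ 0) {θ : ℚ} (hθ0 : 0 ≤ θ) (hθ : θ ≤ 1) :
    (1 - θ : ℝ) ^ 2 / (3 * (Fintype.card L : ℝ) + 16) ^ n ≤
      Prob fun w : Fin N → Option L =>
        θ * Mean (fun w : Fin N → Option L => v g (W.at w) ^ 2) < v g (W.at w) ^ 2 := by
  classical
  rw [Prob_mean]
  have h1 := hyper₂ W h N
  have h2 : 0 < Mean (fun w : Fin N → Option L => v g (W.at w) ^ 2) := by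
    refine lt_of_le_of_ne (mean_nonneg fun w => by positivity) fun h3 => h0 ?_
    have h4 := mean_eq_zero (f := fun w : Fin N → Option L => v g (W.at w) ^ 2)
      (fun w => by positivity) h3.symm w₀
    exact pow_eq_zero_iff (two_ne_zero) |>.1 h4
  have h3 := paley (by positivity) h1 h2 hθ0 hθ
  have h4 : ((1 - θ) ^ 2 / (3 * (Fintype.card L : ℚ) + 16) ^ n : ℚ) = 
    ((1 - θ) ^ 2 / (3 * (Fintype.card L : ℚ) + 16) ^ n : ℚ) := rfl
  have h5 : (((1 - θ) ^ 2 / (3 * (Fintype.card L : ℚ) + 16) ^ n : ℚ) : ℝ) =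
      (1 - θ : ℝ) ^ 2 / (3 * (Fintype.card L : ℝ) + 16) ^ n := by
    push_cast
    ring
  rw [← h5]
  exact_mod_cast h3

theorem nonvanish₂ (W : Walk L g) {n : ℕ} {v : ∀ g : ℕ, MulAut (Fg g) → ℚ} (h : Along W n v)
    {N : ℕ} {w₀ : Fin N → Option L} (h0 : v g (W.at w₀) ≠ 0) :
    1 / ((Fintype.card L : ℝ) + 1) ^ n ≤ Prob fun w : Fin N → Option L => v g (W.at w) ≠ 0 := by
  classical
  rw [at_fn W v w₀] at h0
  have h1 := nonvanish (lt W) N h (l₀ := List.ofFn w₀) (List.length_ofFn) h0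
  rw [Fintype.card_option] at h1
  have h5 : ((1 / ((Fintype.card L + 1 : ℕ) : ℚ) ^ n : ℚ) : ℝ) =
      1 / ((Fintype.card L : ℝ) + 1) ^ n := by
    push_cast
    ring
  rw [← h5]
  have h6 : (fun w : Fin N → Option L => v g (W.at w) ≠ 0) =
      fun w => (fun a => fn W v a ≠ 0) (vl (lt W) (List.ofFn w)) := by
    funext w
    rw [at_fn W v w]
  rw [h6, Prob_EP W N fun a => fn W v a ≠ 0]
  refine (Rat.cast_le (K := ℝ)).2 (h1.trans (le_of_eq ?_))
  unfold EP
  congr 1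

/-- The proportion of the separated words of each length. -/
theorem sep₂ (W : Walk L g) {n N g₁ : ℕ} {ψ : Tor g₁} {w₀ : Fin N → Option L}
    (hs : Separated n (W.at w₀) ψ.1) : 1 / ((Fintype.card L : ℝ) + 1) ^ n ≤
      Prob fun w : Fin N → Option L => Separated n (W.at w) ψ.1 := by
  obtain ⟨v, hv, hn, hne⟩ := hs
  have h1 : Along W n fun g φ => v g φ - v g₁ ψ.1 :=
    Pol.sub (along_of W hn) ((pol_const (v g₁ ψ.1)).mono (Nat.le_add_left 1 n))
  refine (nonvanish₂ W h1 (sub_ne_zero.2 hne)).trans (Prob_mono fun w hw => ?_)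
  exact ⟨v, hv, hn, sub_ne_zero.1 hw⟩

/-- Fluctuations. -/
theorem fluct₂ (W : Walk L g) {m : ℕ} {v : ∀ g : ℕ, MulAut (Fg g) → ℚ} (h : Along W (m + 1) v)
    (h' : ¬ Along W m v) : ∃ δ : ℚ, 0 < δ ∧ ∀ v' : ∀ g : ℕ, MulAut (Fg g) → ℚ, Along W m v' →
      ∀ N : ℕ, m + 1 ≤ N → (δ : ℝ) ≤ Prob fun w : Fin N → Option L =>
        δ * (N : ℚ) ^ (m + 1) ≤ (v g (W.at w) - v' g (W.at w)) ^ 2 := by
  classical
  obtain ⟨δ, hδ, hb⟩ := fluct (closure_lt W) (lt_none W) h h'
  refine ⟨δ, hδ, fun v' hv' N hN => ?_⟩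
  have h1 := hb (fn W v') hv' N hN
  have h6 : (fun w : Fin N → Option L =>
      δ * (N : ℚ) ^ (m + 1) ≤ (v g (W.at w) - v' g (W.at w)) ^ 2) =
      fun w => (fun a => δ * (N : ℚ) ^ (m + 1) ≤ (fn W v a - fn W v' a) ^ 2)
        (vl (lt W) (List.ofFn w)) := by
    funext w
    rw [at_fn W v w, at_fn W v' w]
  rw [h6, Prob_EP W N fun a => δ * (N : ℚ) ^ (m + 1) ≤ (fn W v a - fn W v' a) ^ 2]
  exact (Rat.cast_le (K := ℝ)).2 h1

/-- Tails. -/
theorem tail₂ (W : Walk L g) (hs : Symm W) {m : ℕ} {v : ∀ g : ℕ, MulAut (Fg g) → ℚ}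
    (h : Along W m v) (k : ℕ) : ∃ C : ℚ, 0 ≤ C ∧ ∀ N : ℕ, 0 < N → ∀ t : ℚ, 0 < t →
      Prob (fun w : Fin N → Option L => t * (N : ℚ) ^ m ≤ v g (W.at w) ^ 2) ≤
        (C : ℝ) / (t : ℝ) ^ k := by
  classical
  obtain ⟨ι, hι, hx⟩ := hs
  obtain ⟨C, hC, hb⟩ := tail_sym (inv'_invol hι) (lt_inv' hx) h k
  refine ⟨C, hC, fun N hN t ht => ?_⟩
  have h1 := hb N hN t ht
  have h6 : (fun w : Fin N → Option L => t * (N : ℚ) ^ m ≤ v g (W.at w) ^ 2) =
      fun w => (fun a => t * (N : ℚ) ^ m ≤ fn W v a ^ 2) (vl (lt W) (List.ofFn w)) := by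
    funext w
    rw [at_fn W v w]
  rw [h6, Prob_EP W N fun a => t * (N : ℚ) ^ m ≤ fn W v a ^ 2]
  have h2 : (C : ℝ) / (t : ℝ) ^ k = ((C / t ^ k : ℚ) : ℝ) := by push_cast; rfl
  rw [h2]
  exact (Rat.cast_le (K := ℝ)).2 h1

end

end Pool.Agent.Helper69.LW
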