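import Mathlib

/-!
# Polynomial functions on groups
-/

set_option autoImplicit false

namespace Pool.Agent.Helper69.LW

section
variable {K : Type*} [Group K] {A : Type*} [AddCommGroup A]

/-- The left difference. -/
def D (g : K) (F : K → A) : K → A := fun p => F (g * p) - F p

/-- Functions of degree less than `n`: all `n`-fold left differences vanish. -/
def Pol : ℕ → (K → A) → Prop
  | 0, F => ∀ p, F p = 0
  | n + 1, F => ∀ g, Pol n (D g F)

theorem Pol.zero (n : ℕ) : Pol n (fun _ : K => (0 : A)) := by
  induction n with
  | zero => intro p; rfl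
  | succ n ih =>
    intro g
    have : D g (fun _ : K => (0 : A)) = fun _ => 0 := by
      funext p; simp [D]
    rw [this]
    exact ih

theorem Pol.sub {n : ℕ} {F F' : K → A} (h : Pol n F) (h' : Pol n F') :
    Pol n (fun p => F p - F' p) := by
  induction n generalizing F F' with
  | zero => intro p; simp only [h p, h' p, sub_self]
  | succ n ih =>
    intro g
    have : D g (fun p => F p - F' p) = fun p => D g F p - D g F' p := by
      funext p; simp only [D]; abel
    rw [this]
    exact ih (h g) (h' g)

theorem Pol.neg {n : ℕ} {F : K → A} (h : Pol n F) : Pol n (fun p => - F p) := by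
  have := (Pol.zero (K := K) (A := A) n).sub h
  simpa using this

theorem Pol.add {n : ℕ} {F F' : K → A} (h : Pol n F) (h' : Pol n F') :
    Pol n (fun p => F p + F' p) := by
  have := h.sub h'.neg
  simpa using this

theorem Pol.left {n : ℕ} {F : K → A} (h : Pol n F) (a : K) : Pol n (fun p => F (a * p)) := by
  induction n generalizing F with
  | zero => intro p; exact h _
  | succ n ih =>
    intro g
    have : D g (fun p => F (a * p)) = fun p => D (a * g * a⁻¹) F (a * p) := by
      funext p; simp [D, mul_assoc]
    rw [this]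
    exact ih (h _)

theorem Pol.right {n : ℕ} {F : K → A} (h : Pol n F) (b : K) : Pol n (fun p => F (p * b)) := by
  induction n generalizing F with
  | zero => intro p; exact h _
  | succ n ih =>
    intro g
    have : D g (fun p => F (p * b)) = fun p => D g F (p * b) := by
      funext p; simp [D, mul_assoc]
    rw [this]
    exact ih (h _)

theorem Pol.diff {n : ℕ} {F : K → A} (h : Pol n F) (g : K) : Pol n (D g F) :=
  (h.left g).sub h

theorem Pol.succ {n : ℕ} {F : K → A} (h : Pol n F) : Pol (n + 1) F := fun g => h.diff g

theorem Pol.mono {m n : ℕ} (hmn : m ≤ n) {F : K → A} (h : Pol m F) : Pol n F := by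
  induction hmn with
  | refl => exact h
  | step _ ih => exact ih.succ

theorem Pol.hom {n : ℕ} {K' : Type*} [Group K'] {F : K → A} (h : Pol n F) (φ : K' →* K) :
    Pol n (fun p => F (φ p)) := by
  induction n generalizing F with
  | zero => intro p; exact h _
  | succ n ih =>
    intro g
    have : D g (fun p => F (φ p)) = fun p => D (φ g) F (φ p) := by
      funext p; simp [D]
    rw [this]
    exact ih (h _)

theorem Pol.map {n : ℕ} {B : Type*} [AddCommGroup B] {F : K → A} (h : Pol n F) (φ : A →+ B) :
    Pol n (fun p => φ (F p)) := by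
  induction n generalizing F with
  | zero => intro p; simp [h p]
  | succ n ih =>
    intro g
    have : D g (fun p => φ (F p)) = fun p => φ (D g F p) := by
      funext p; simp [D]
    rw [this]
    exact ih (h _)

theorem Pol.const {F : K → A} (h : Pol 1 F) (p q : K) : F p = F q := by
  have := h (p * q⁻¹) q
  simpa [D, sub_eq_zero] using this

variable (A) in
/-- The differences by `c` lower the degree by `k`. -/
def Low (k : ℕ) (c : K) : Prop := ∀ (n : ℕ) (F : K → A), Pol (n + k) F → Pol n (D c F)

theorem low_one (c : K) : Low A 1 c := fun _ _ h => h c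

theorem low_comm {k : ℕ} {c : K} (h : Low A k c) (g : K) : Low A (k + 1) (c * g * c⁻¹ * g⁻¹) := by
  intro n F hF
  have h1 : Pol n (D g (D c F)) := h (n + 1) F (by
    rw [show n + 1 + k = n + (k + 1) by omega]; exact hF) g
  have h2 : Pol n (D c (D g F)) := h n (D g F) (hF g)
  have h3 := (h1.sub h2).left (c⁻¹ * g⁻¹)
  have e : D (c * g * c⁻¹ * g⁻¹) F =
      fun p => D g (D c F) (c⁻¹ * g⁻¹ * p) - D c (D g F) (c⁻¹ * g⁻¹ * p) := by
    funext p
    simp only [D]
    have e1 : g * (c * (c⁻¹ * g⁻¹ * p)) = p := by group
    have e2 : c * (g * (c⁻¹ * g⁻¹ * p)) = c * g * c⁻¹ * g⁻¹ * p := by group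
    rw [e1, e2]
    abel
  rw [e]
  exact h3

theorem low_conj {k : ℕ} {c : K} (h : Low A k c) (g : K) : Low A k (g * c * g⁻¹) := by
  intro n F hF
  have h1 := (h n _ (hF.left g)).left g⁻¹
  have e : D (g * c * g⁻¹) F = fun p => D c (fun q => F (g * q)) (g⁻¹ * p) := by
    funext p
    simp [D, mul_assoc]
  rw [e]
  exact h1

theorem low_mul {k : ℕ} {c d : K} (h : Low A k c) (h' : Low A k d) : Low A k (c * d) := by
  intro n F hF
  have e : D (c * d) F = fun p => D c F (d * p) + D d F p := by
    funext p
    simp [D, mul_assoc]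
  rw [e]
  exact ((h n F hF).left d).add (h' n F hF)

theorem low_inv {k : ℕ} {c : K} (h : Low A k c) : Low A k c⁻¹ := by
  intro n F hF
  have e : D c⁻¹ F = fun p => - D c F (c⁻¹ * p) := by
    funext p
    simp [D]
  rw [e]
  exact ((h n F hF).left _).neg

theorem low_id (k : ℕ) : Low A k (1 : K) := by
  intro n F _
  have e : D (1 : K) F = fun _ => 0 := by
    funext p
    simp [D]
  rw [e]
  exact Pol.zero n

variable (K A) in
/-- The elements which lower the degree by `k` form a normal subgroup. -/
def lowS (k : ℕ) : Subgroup K where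
  carrier := {c | Low A k c}
  mul_mem' := fun h h' => low_mul h h'
  one_mem' := low_id k
  inv_mem' := fun h => low_inv h

theorem mem_lowS {k : ℕ} {c : K} : c ∈ lowS K A k ↔ Low A k c := Iff.rfl

theorem lcs_le_lowS (n : ℕ) : (⊤ : Subgroup K).lowerCentralSeries n ≤ lowS K A (n + 1) := by
  induction n with
  | zero =>
    intro c _
    exact low_one c
  | succ n ih =>
    rw [Subgroup.lowerCentralSeries_succ, Subgroup.commutator_le]
    intro c hc g _
    exact low_comm (ih hc) g

/-- The two-sided kernel of a function. -/
def Ker (F : K → A) : Subgroup K where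
  carrier := {h | ∀ a b : K, F (a * h * b) = F (a * b)}
  mul_mem' := by
    intro h h' e e' a b
    have e1 := e a (h' * b)
    have e2 := e' a b
    simp only [mul_assoc] at e1 e2 ⊢
    rw [e1, e2]
  one_mem' := by
    intro a b
    rw [mul_one]
  inv_mem' := by
    intro h e a b
    have e1 := e (a * h⁻¹) b
    simp only [mul_assoc, inv_mul_cancel_left] at e1 ⊢
    exact e1.symm

omit [AddCommGroup A] in
theorem mem_Ker {F : K → A} {h : K} : h ∈ Ker F ↔ ∀ a b : K, F (a * h * b) = F (a * b) := Iff.rfl

instance (F : K → A) : (Ker F).Normal where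
  conj_mem := by
    intro h e g a b
    have e1 := e (a * g) (g⁻¹ * b)
    simp only [mul_assoc, mul_inv_cancel_left] at e1 ⊢
    exact e1

theorem Low.mem_Ker {k : ℕ} {c : K} (h : Low A k c) {F : K → A} (hF : Pol k F) : c ∈ Ker F := by
  intro a b
  have h1 := low_conj h a 0 F (by rw [zero_add]; exact hF) (a * b)
  simp only [D, mul_assoc, inv_mul_cancel_left] at h1
  rw [mul_assoc]
  exact sub_eq_zero.1 h1

end

end Pool.Agent.Helper69.LW
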