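import Pool.Agent.Helper69.LW.Bridge

/-!
# Superpolynomial decay and optimality
-/

set_option autoImplicit false

namespace Pool.Agent.Helper69.LW

open Finset Pool.Agent.Y466.FT Pool.Agent.Y466.RW Pool.Agent.Y466.LM

section
variable {L : Type} [Fintype L] {g : ℕ} (W : Walk L g)

theorem super₂ (h : ∀ m : ℕ, ∃ n > m, Sees W n) (K : ℕ) : ∃ C : ℝ, ∀ {g' : ℕ} (ψ : Tor g')
    (N : ℕ), Prob (fun w : Fin N → Option L => ∀ n, ¬ Separated n (W.at w) ψ.1) ≤
      C / (N + 1) ^ K := by
  obtain ⟨φ, hφ, hs⟩ := Nat.exists_strictMono_subsequence h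
  -- the degrees
  set n : ℕ → ℕ := fun i => φ (i + 1) with hn
  have hmono : ∀ i j, i < j → n i < n j := fun i j hij => hφ (by omega)
  have hpos : ∀ i, 0 < n i := fun i => lt_of_le_of_lt (Nat.zero_le _) (hφ (Nat.succ_pos i))
  set d := n (2 * K) with hd
  refine ⟨((2 * K : ℕ) * 2 ^ d * ((Fintype.card L : ℝ) + 1) ^ 2 ^ d) ^ K, fun {g'} ψ N => ?_⟩
  have h1 := jumps₂ W ψ (n := n) (r := 2 * K) (fun i j hij _ => hmono i j hij)
    (fun i _ => hpos i) (fun i _ => hs _) (d := d) (fun i hi => (hmono i _ hi).le) N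
  have h2 := Prob_mono (p := fun w : Fin N → Option L => ∀ n, ¬ Separated n (W.at w) ψ.1)
    (q := fun w => ¬ Separated d (W.at w) ψ.1) (fun w hw => hw d)
  refine h2.trans (h1.trans (le_of_eq ?_))
  rw [pow_mul, Real.sq_sqrt (by positivity), div_pow]

end

section
variable {K : Type*} [Group K]

theorem pr_unit {x : Option Unit → K} (hx : x none = 1) {N : ℕ} (w : Fin N → Option Unit) :
    pr x w = x (some ()) ^ (#{i | w i = some ()}) := by
  induction N with
  | zero => simp [pr]
  | succ N ih =>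
    have h1 : pr x w = x (w 0) * pr x (fun i : Fin N => w i.succ) := by
      unfold pr
      rw [List.ofFn_succ, List.prod_cons]
    rw [h1, ih, Fin.card_filter_univ_succ]
    cases h : w 0 with
    | none => simp [hx]
    | some s =>
      cases s
      simp only [if_true]
      rw [pow_succ']

theorem le_card_words (N k : ℕ) :
    N.choose k ≤ #{w : Fin N → Option Unit | #{i | w i = some ()} = k} := by
  have h1 : (powersetCard k (univ : Finset (Fin N))).card = N.choose k := by
    rw [card_powersetCard, card_univ, Fintype.card_fin]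
  rw [← h1]
  refine card_le_card_of_injOn (fun s i => if i ∈ s then some () else none) (fun s hs => ?_)
    (fun s _ s' _ h => ?_)
  · have h2 := (mem_powersetCard.1 (mem_coe.1 hs)).2
    refine mem_coe.2 (mem_filter.2 ⟨mem_univ _, ?_⟩)
    rw [← h2]
    congr 1
    ext i
    simp
  · ext i
    have h2 := congrFun h i
    simp only at h2
    by_cases h3 : i ∈ s
    · by_cases h4 : i ∈ s'
      · simp [h3, h4]
      · simp [h3, h4] at h2
    · by_cases h4 : i ∈ s'
      · simp [h3, h4] at h2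
      · simp [h3, h4]

theorem bm_lower (t : ℕ) : 4 ^ t ≤ 2 * (t + 1) * (bm t) ^ 2 := by
  have cb : ∀ n : ℕ, 16 ^ (n + 1) ≤ 4 * (n + 1) * (Nat.centralBinom (n + 1)) ^ 2 := by
    intro n
    induction n with
    | zero => simp [Nat.centralBinom_eq_two_mul_choose]
    | succ n ih =>
      have h := Nat.succ_mul_centralBinom_succ (n + 1)
      have h1 : (n + 1 + 1) ^ 2 * 16 ^ (n + 1 + 1) ≤
          (n + 1 + 1) ^ 2 * (4 * (n + 1 + 1) * (Nat.centralBinom (n + 1 + 1)) ^ 2) := by
        calc (n + 1 + 1) ^ 2 * 16 ^ (n + 1 + 1)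
            = 16 * (n + 1 + 1) ^ 2 * 16 ^ (n + 1) := by ring
          _ ≤ 16 * (n + 1 + 1) ^ 2 * (4 * (n + 1) * (Nat.centralBinom (n + 1)) ^ 2) :=
              Nat.mul_le_mul_left _ ih
          _ = (16 * (n + 1 + 1) * (n + 1)) * (4 * (n + 1 + 1) * (Nat.centralBinom (n + 1)) ^ 2) := by
              ring
          _ ≤ (2 * (2 * (n + 1) + 1)) ^ 2 * (4 * (n + 1 + 1) * (Nat.centralBinom (n + 1)) ^ 2) := by
              refine Nat.mul_le_mul_right _ ?_
              nlinarith
          _ = 4 * (n + 1 + 1) * (2 * (2 * (n + 1) + 1) * Nat.centralBinom (n + 1)) ^ 2 := by ring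
          _ = 4 * (n + 1 + 1) * ((n + 1 + 1) * Nat.centralBinom (n + 1 + 1)) ^ 2 := by rw [h]
          _ = _ := by ring
      exact Nat.le_of_mul_le_mul_left h1 (by positivity)
  rcases Nat.even_or_odd' t with ⟨n, rfl | rfl⟩
  · rcases Nat.eq_zero_or_pos n with rfl | hn
    · simp [bm]
    · obtain ⟨m, rfl⟩ := Nat.exists_eq_succ_of_ne_zero hn.ne'
      have h := cb m
      unfold bm
      rw [Nat.mul_div_cancel_left _ (by norm_num), ← Nat.centralBinom_eq_two_mul_choose, pow_mul]
      have h2 : 4 * (m + 1) * (Nat.centralBinom (m + 1)) ^ 2 ≤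
          2 * (2 * (m + 1) + 1) * (Nat.centralBinom (m + 1)) ^ 2 :=
        Nat.mul_le_mul_right _ (by omega)
      exact h.trans h2
  · have h := cb n
    have e : (2 * n + 1) / 2 = n := by omega
    have h2 : Nat.centralBinom (n + 1) = 2 * (2 * n + 1).choose n := by
      rw [Nat.centralBinom_eq_two_mul_choose, show 2 * (n + 1) = (2 * n + 1) + 1 by ring,
        Nat.choose_succ_succ, Nat.choose_symm_half n]
      ring
    unfold bm
    rw [e]
    rw [h2] at h
    have h3 : 4 * 4 ^ (2 * n + 1) ≤ 4 * (2 * (2 * n + 1 + 1) * (2 * n + 1).choose n ^ 2) := by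
      calc 4 * 4 ^ (2 * n + 1) = 16 ^ (n + 1) := by
            rw [show (16 : ℕ) = 4 ^ 2 by norm_num, ← pow_mul]; ring
        _ ≤ 4 * (n + 1) * (2 * (2 * n + 1).choose n) ^ 2 := h
        _ = 4 * (2 * (2 * n + 1 + 1) * (2 * n + 1).choose n ^ 2) := by ring
    exact Nat.le_of_mul_le_mul_left h3 (by norm_num)

end

/-- **Optimality**: the walks with one letter. -/
theorem sharp₂ {g : ℕ} (W : Walk Unit g) (N : ℕ) : ∃ w₀ : Fin N → Option Unit,
    1 / Real.sqrt (2 * (N + 1)) ≤ Prob (fun w : Fin N → Option Unit => W.at w = W.at w₀) := by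
  classical
  have hle := le_card_words N (N / 2)
  have hpos : 0 < N.choose (N / 2) := Nat.choose_pos (Nat.div_le_self N 2)
  obtain ⟨w₀, hw₀⟩ := card_pos.1 (lt_of_lt_of_le hpos hle)
  refine ⟨w₀, ?_⟩
  have hx : letr W.x none = 1 := rfl
  have h1 : #{w : Fin N → Option Unit | #{i | w i = some ()} = N / 2} ≤
      #{w : Fin N → Option Unit | W.at w = W.at w₀} := by
    refine card_le_card fun w hw => ?_
    rw [mem_filter] at hw hw₀ ⊢
    refine ⟨mem_univ _, ?_⟩
    rw [at_ins, at_ins, pr_unit hx, pr_unit hx, hw.2, hw₀.2]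
  have h2 := hle.trans h1
  have h3 := bm_lower N
  unfold Prob
  have hc : Fintype.card (Fin N → Option Unit) = 2 ^ N := by
    rw [Fintype.card_fun, Fintype.card_fin, Fintype.card_option, Fintype.card_unit]
  rw [hc]
  have h4 : ((2 : ℝ) ^ N) ≤ Real.sqrt (2 * (N + 1)) * (bm N : ℝ) := by
    have h5 : ((2 : ℝ) ^ N) ^ 2 ≤ (Real.sqrt (2 * (N + 1)) * (bm N : ℝ)) ^ 2 := by
      rw [mul_pow, Real.sq_sqrt (by positivity), ← pow_mul, mul_comm N 2, pow_mul]
      norm_num
      exact_mod_cast h3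
    exact le_of_sq_le_sq h5 (by positivity)
  have hs : 0 < Real.sqrt (2 * ((N : ℝ) + 1)) := Real.sqrt_pos.2 (by positivity)
  rw [div_le_div_iff₀ hs (by positivity), one_mul]
  push_cast
  refine h4.trans ?_
  rw [mul_comm]
  refine mul_le_mul_of_nonneg_right ?_ hs.le
  have h6 : bm N ≤ #{w : Fin N → Option Unit | W.at w = W.at w₀} := h2
  have h7 : (bm N : ℝ) ≤ (#{w : Fin N → Option Unit | W.at w = W.at w₀} : ℝ) := by
    exact_mod_cast h6
  convert h7

end Pool.Agent.Helper69.LW
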